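import Pool.Agent.V5helper2.HR.Norm

/-!
# Isometries with small displacement
-/

set_option autoImplicit false

namespace Pool.Agent.V5helper2.HR

open Polynomial

noncomputable section

variable {n : ℕ} {S A A' : Matrix (Fin n) (Fin n) ℤ} {τ : ℝ} {up um : Fin n → ℝ}

/-- a hyperbolic form is invertible, so integral isometries are invertible -/
theorem exists_inv (hlor : Lor (bf (rm S))) (h : A.transpose * S * A = S) :
    ∃ A' : Matrix (Fin n) (Fin n) ℤ, A * A' = 1 := by
  have hdet : S.det ≠ 0 := by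
    intro h0
    have h1 : (rm S).det = 0 := by
      have : (rm S).det = ((S.det : ℤ) : ℝ) := by
        unfold rm
        exact ((Int.castRingHom ℝ).map_det S).symm
      rw [this, h0, Int.cast_zero]
    obtain ⟨v, hv, hv0⟩ := Matrix.exists_mulVec_eq_zero_iff.mpr h1
    apply hv
    apply hlor.nondeg
    intro z
    rw [hlor.1, bf_apply, hv0, dotProduct_zero]
  have h1 := congrArg Matrix.det h
  rw [Matrix.det_mul, Matrix.det_mul, Matrix.det_transpose] at h1
  have h2 : A.det * A.det = 1 := by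
    have h3 : (A.det * A.det) * S.det = 1 * S.det := by linear_combination h1
    exact mul_right_cancel₀ hdet h3
  have h4 : IsUnit A.det := IsUnit.of_mul_eq_one _ h2
  obtain ⟨u, hu⟩ := (Matrix.isUnit_iff_isUnit_det A).mpr h4
  exact ⟨(u⁻¹ : (Matrix (Fin n) (Fin n) ℤ)ˣ), by rw [← hu]; exact u.mul_inv⟩

theorem iso_of (h : A.transpose * S * A = S) (x y : Fin n → ℝ) :
    bf (rm S) ((rm A).mulVec x) ((rm A).mulVec y) = bf (rm S) x y := by
  have h1 : (rm A).transpose * rm S * rm A = rm S := by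
    have h2 := congrArg rm h
    rw [rm_mul, rm_mul] at h2
    have h3 : rm A.transpose = (rm A).transpose := by
      unfold rm
      rw [Matrix.transpose_map]
    rw [h3] at h2
    exact h2
  rw [bf_apply, bf_apply]
  conv_rhs => rw [← h1]
  rw [← Matrix.mulVec_mulVec, ← Matrix.mulVec_mulVec, Matrix.dotProduct_mulVec x,
    Matrix.vecMul_transpose]

/-- integral eigenvectors do not exist -/
theorem Situ.not_eig (h : Situ S A A' τ up um) {v : Fin n → ℤ} (hv : v ≠ 0) :
    ¬ (rm A').mulVec (iv v) = τ⁻¹ • iv v := by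
  intro h0
  obtain ⟨i, hi⟩ : ∃ i, v i ≠ 0 := by
    by_contra hc
    push Not at hc
    exact hv (funext hc)
  have h1 : ∀ k : ℕ, iv ((A' ^ k).mulVec v) = (τ⁻¹) ^ k • iv v := by
    intro k
    induction k with
    | zero => simp
    | succ k ih =>
      rw [pow_succ', ← Matrix.mulVec_mulVec, ← rm_iv, ih, Matrix.mulVec_smul, h0, smul_smul,
        pow_succ]
  have h2 : |τ⁻¹| < 1 := by
    rw [abs_inv]
    exact inv_lt_one_of_one_lt₀ h.hτ
  have hvi : (0 : ℝ) < |(v i : ℝ)| := by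
    rw [abs_pos]
    exact_mod_cast hi
  obtain ⟨k, hk⟩ := exists_pow_lt_of_lt_one (inv_pos.mpr hvi) h2
  have h3 := congrFun (h1 k) i
  have h4 : (((A' ^ k).mulVec v i : ℤ) : ℝ) = (τ⁻¹) ^ k * (v i : ℝ) := h3
  have h5 : |(((A' ^ k).mulVec v i : ℤ) : ℝ)| < 1 := by
    rw [h4, abs_mul, abs_pow]
    calc |τ⁻¹| ^ k * |(v i : ℝ)| < |(v i : ℝ)|⁻¹ * |(v i : ℝ)| :=
          mul_lt_mul_of_pos_right hk hvi
      _ = 1 := inv_mul_cancel₀ hvi.ne'
  have h6 : (A' ^ k).mulVec v i = 0 := by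
    have h7 : |(A' ^ k).mulVec v i| < 1 := by exact_mod_cast h5
    exact Int.abs_lt_one_iff.mp h7
  rw [h6, Int.cast_zero] at h4
  have h8 : (τ⁻¹) ^ k ≠ 0 := pow_ne_zero _ (inv_ne_zero h.τ0)
  have h9 : (v i : ℝ) ≠ 0 := by exact_mod_cast hi
  exact mul_ne_zero h8 h9 h4.symm

/-- the weight is negative for vectors of nonnegative norm -/
theorem Situ.wt_neg (h : Situ S A A' τ up um) {v : Fin n → ℤ} (hv : v ≠ 0)
    (hv0 : 0 ≤ bf (rm S) (iv v) (iv v)) : wt S up um (iv v) < 0 := by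
  have h0 := h.off_nonneg (iv v)
  have h1 : wt S up um (iv v) ≤ 0 := by linarith
  rcases h1.lt_or_eq with h2 | h2
  · exact h2
  exfalso
  obtain ⟨w, e1, e2, ⟨α, β, e3⟩, e4⟩ := h.off (iv v)
  have hB := h.lor.1
  have hw : w = 0 := by
    by_contra hw0
    have := h.neg_orth hw0 e1 e2
    linarith
  rw [hw, zero_add] at e3
  have hpm := h.pm
  have e5 : bf (rm S) (iv v) up = β * bf (rm S) up um := by
    rw [e3]
    simp only [map_add, map_smul, LinearMap.add_apply, LinearMap.smul_apply, smul_eq_mul]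
    rw [h.pp, hB um up]
    ring
  have e6 : bf (rm S) (iv v) um = α * bf (rm S) up um := by
    rw [e3]
    simp only [map_add, map_smul, LinearMap.add_apply, LinearMap.smul_apply, smul_eq_mul]
    rw [h.mm]
    ring
  unfold wt at h2
  rw [e5, e6] at h2
  have h3 : α * β = 0 := by
    field_simp at h2
    have h4 : bf (rm S) up um * (α * β) = 0 := by linear_combination (-1 / 2) * h2
    exact (mul_eq_zero.mp h4).resolve_left hpm.ne'
  rcases mul_eq_zero.mp h3 with h4 | h4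
  · -- multiple of `um`
    rw [h4, zero_smul, zero_add] at e3
    have hneg : Situ S A' A τ um up :=
      { lor := h.lor
        inv := mul_eq_one_comm.mp h.inv
        iso := fun x y => by
          rw [h.adj1, h.inv1]
        hτ := h.hτ
        hup := h.Aum
        hum := h.Aup
        pp := h.mm
        mm := h.pp
        pm := by rw [hB]; exact h.pm }
    apply hneg.not_eig hv
    rw [e3, Matrix.mulVec_smul, h.hum, smul_smul, smul_smul, mul_comm]
  · rw [h4, zero_smul, add_zero] at e3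
    apply h.not_eig hv
    rw [e3, Matrix.mulVec_smul, h.Aup, smul_smul, smul_smul, mul_comm]

/-- the weight is negative if some image is far away -/
theorem Situ.wt_neg' (h : Situ S A A' τ up um) {v : Fin n → ℤ} {m : ℕ}
    (hm : |bf (rm S) (iv v) (iv v)| < bf (rm S) (iv v) (iv ((A ^ (2 * m)).mulVec v))) :
    wt S up um (iv v) < 0 := by
  by_contra hcon
  push Not at hcon
  have hB := h.lor.1
  have hm0 : m ≠ 0 := by
    rintro rfl
    rw [Nat.mul_zero, pow_zero, Matrix.one_mulVec] at hm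
    exact absurd (le_abs_self _) (not_le.mpr hm)
  have hp := h.pow (j := 2 * m) (by omega)
  obtain ⟨w, e1, e2, ⟨α, β, e3⟩, e4⟩ := hp.off (iv v)
  rw [← rm_iv] at hm
  set Q := A ^ (2 * m) with hQ
  set σ := τ ^ (2 * m) with hσ
  have hσ0 : 0 < σ := by
    rw [hσ, pow_mul]
    have := h.τ0
    positivity
  have hpm := h.pm
  have e5 : bf (rm S) (iv v) up = β * bf (rm S) up um := by
    rw [e3]
    simp only [map_add, map_smul, LinearMap.add_apply, LinearMap.smul_apply, smul_eq_mul]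
    rw [h.pp, hB um up, e1]
    ring
  have e6 : bf (rm S) (iv v) um = α * bf (rm S) up um := by
    rw [e3]
    simp only [map_add, map_smul, LinearMap.add_apply, LinearMap.smul_apply, smul_eq_mul]
    rw [h.mm, e2]
    ring
  have e7 : wt S up um (iv v) = -(2 * (α * β) * bf (rm S) up um) := by
    unfold wt
    rw [e5, e6]
    field_simp
  have hab : α * β ≤ 0 := by
    rw [e7] at hcon
    by_contra hc
    push Not at hc
    have : 0 < 2 * (α * β) * bf (rm S) up um := by positivity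
    linarith
  have e8 : bf (rm S) (iv v) ((rm Q).mulVec (iv v)) =
      bf (rm S) w ((rm Q).mulVec w) + (α * β) * (σ + σ⁻¹) * bf (rm S) up um := by
    rw [e3, Matrix.mulVec_add, Matrix.mulVec_add, Matrix.mulVec_smul, Matrix.mulVec_smul, hp.hup,
      hp.hum]
    have f1 : bf (rm S) up ((rm Q).mulVec w) = 0 := by
      rw [← hp.adj1, hp.Aup, map_smul, LinearMap.smul_apply, hB up w, e1, smul_zero]
    have f2 : bf (rm S) um ((rm Q).mulVec w) = 0 := by
      rw [← hp.adj1, hp.Aum, map_smul, LinearMap.smul_apply, hB um w, e2, smul_zero]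
    simp only [map_add, map_smul, LinearMap.add_apply, LinearMap.smul_apply, smul_eq_mul]
    rw [h.pp, h.mm, hB um up, e1, e2, f1, f2]
    ring
  have e9 : bf (rm S) w ((rm Q).mulVec w) ≤ -bf (rm S) w w := by
    have f1 : bf (rm S) (w + (rm Q).mulVec w) (w + (rm Q).mulVec w) ≤ 0 := by
      apply h.lor.nonpos_of_orth h.ee_pos
      have g1 : bf (rm S) ((rm Q).mulVec w) up = 0 := by
        rw [hp.adj2, hp.Aup, map_smul, e1, smul_zero]
      have g2 : bf (rm S) ((rm Q).mulVec w) um = 0 := by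
        rw [hp.adj2, hp.Aum, map_smul, e2, smul_zero]
      rw [hB, map_add, map_add, LinearMap.add_apply, LinearMap.add_apply, e1, e2, g1, g2]
      ring
    simp only [map_add, LinearMap.add_apply] at f1
    rw [hp.iso, hB ((rm Q).mulVec w) w] at f1
    linarith
  have e10 : 2 ≤ σ + σ⁻¹ := by
    have : 0 ≤ (σ - 1) ^ 2 / σ := by positivity
    have h2 : (σ - 1) ^ 2 / σ = σ + σ⁻¹ - 2 := by
      field_simp
      ring
    linarith
  have e11 : (α * β) * (σ + σ⁻¹) * bf (rm S) up um ≤ (α * β) * 2 * bf (rm S) up um :=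
    mul_le_mul_of_nonneg_right (mul_le_mul_of_nonpos_left e10 hab) hpm.le
  have e12 : (α * β) * 2 * bf (rm S) up um ≤ 0 :=
    mul_nonpos_of_nonpos_of_nonneg (mul_nonpos_of_nonpos_of_nonneg hab (by norm_num)) hpm.le
  have e13 : -bf (rm S) (iv v) (iv v) ≤ |bf (rm S) (iv v) (iv v)| := neg_le_abs _
  have e14 : -bf (rm S) w w = -bf (rm S) (iv v) (iv v) + 2 * (α * β) * bf (rm S) up um := by
    rw [← e4, e7]
    ring
  linarith

/-- **Small displacement.** -/
theorem Situ.disp (h : Situ S A A' τ up um) (κ : ℝ → ℝ) {v : Fin n → ℤ}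
    (hw : wt S up um (iv v) < 0)
    (hd : |bf (rm S) (iv v) (iv (A.mulVec v))| ≤ bf (rm S) (iv v) (iv v) + κ |τ|) :
    |τ| ∈ Kl (fun x => 2 * κ x) := by
  have hB := h.lor.1
  obtain ⟨ε, hε, hετ⟩ : ∃ ε : ℤ, (ε = 1 ∨ ε = -1) ∧ (ε : ℝ) * (τ + τ⁻¹) = |τ + τ⁻¹| := by
    rcases le_or_gt 0 (τ + τ⁻¹) with h1 | h1
    · exact ⟨1, Or.inl rfl, by rw [abs_of_nonneg h1]; push_cast; ring⟩
    · exact ⟨-1, Or.inr rfl, by rw [abs_of_neg h1]; push_cast; ring⟩
  have hε2 : (ε : ℝ) * ε = 1 := by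
    rcases hε with h1 | h1 <;> rw [h1] <;> norm_num
  set r : Fin n → ℤ := A.mulVec v - ε • v with hr
  have hivr : iv r = (rm A).mulVec (iv v) - (ε : ℝ) • iv v := by
    rw [hr, iv_sub, iv_smul, rm_iv]
  have e1 : bf (rm S) (iv r) up = (τ⁻¹ - ε) * bf (rm S) (iv v) up := by
    rw [hivr, map_sub, LinearMap.sub_apply, h.adj2, h.Aup, map_smul, map_smul,
      LinearMap.smul_apply, smul_eq_mul, smul_eq_mul]
    ring
  have e2 : bf (rm S) (iv r) um = (τ - ε) * bf (rm S) (iv v) um := by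
    rw [hivr, map_sub, LinearMap.sub_apply, h.adj2, h.Aum, map_smul, map_smul,
      LinearMap.smul_apply, smul_eq_mul, smul_eq_mul]
    ring
  have e3 : wt S up um (iv r) = (2 - |τ + τ⁻¹|) * wt S up um (iv v) := by
    unfold wt
    rw [e1, e2, ← hετ]
    have h1 : τ⁻¹ * τ = 1 := inv_mul_cancel₀ h.τ0
    have h2 : (τ⁻¹ - ε) * (τ - ε) = 2 - ε * (τ + τ⁻¹) := by
      linear_combination h1 + hε2
    rw [← h2]
    ring
  have h0 := h.t0_gt
  have hwr : 0 < wt S up um (iv r) := by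
    rw [e3]
    exact mul_pos_of_neg_of_neg (by linarith) hw
  refine mem_Kl h r hwr.ne' _ ?_
  rw [abs_of_pos hwr]
  have e4 : bf (rm S) (iv r) (iv r) = 2 * bf (rm S) (iv v) (iv v) -
      2 * ε * bf (rm S) (iv v) (iv (A.mulVec v)) := by
    rw [hivr]
    simp only [map_sub, map_smul, LinearMap.sub_apply, LinearMap.smul_apply, smul_eq_mul]
    rw [h.iso, hB ((rm A).mulVec (iv v)) (iv v), rm_iv]
    linear_combination (bf (rm S) (iv v) (iv v)) * hε2
  rw [e4]
  have e5 : (ε : ℝ) * bf (rm S) (iv v) (iv (A.mulVec v)) ≤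
      |bf (rm S) (iv v) (iv (A.mulVec v))| := by
    rcases hε with h1 | h1
    · rw [h1]
      push_cast
      rw [one_mul]
      exact le_abs_self _
    · rw [h1]
      push_cast
      rw [neg_one_mul]
      exact neg_le_abs _
  linarith

/-- the whole statement -/
theorem disp_mem (hlor : Lor (bf (rm S))) (κ : ℝ → ℝ) {x : ℝ} (hA : A.transpose * S * A = S)
    (hx : IsSR A x) {v : Fin n → ℤ}
    (hv : (v ≠ 0 ∧ 0 ≤ v ⬝ᵥ S.mulVec v) ∨
      ∃ m : ℕ, |v ⬝ᵥ S.mulVec v| < v ⬝ᵥ S.mulVec ((A ^ (2 * m)).mulVec v))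
    (hd : |((v ⬝ᵥ S.mulVec (A.mulVec v) : ℤ) : ℝ)| ≤ ((v ⬝ᵥ S.mulVec v : ℤ) : ℝ) + κ x) :
    x ∈ Kl (fun x => 2 * κ x) ∪ {1} := by
  obtain ⟨A', hinv⟩ := exists_inv hlor hA
  rcases (one_le_SR hinv hx).eq_or_lt with h1 | h1
  · exact Or.inr h1.symm
  left
  have hiso := iso_of hA
  obtain ⟨⟨z, hz, hzx⟩, _⟩ := hx
  obtain ⟨τ, up, um, e1, e2, e3, e4, e5, e6, e7⟩ := exists_axis hlor (rm A) hiso z
    (by rw [charpoly_conv]; exact hz) (by rw [hzx]; exact h1)
  have hτx : |τ| = x := by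
    rw [← hzx, e1, Complex.norm_real, Real.norm_eq_abs]
  have hs : Situ S A A' τ up um := ⟨hlor, hinv, hiso, e2, e3, e4, e5, e6, e7⟩
  rw [← bf_iv, ← bf_iv, ← hτx] at hd
  rw [← hτx]
  refine hs.disp κ ?_ hd
  rcases hv with ⟨h2, h3⟩ | ⟨m, hm⟩
  · refine hs.wt_neg h2 ?_
    rw [bf_iv]
    exact_mod_cast h3
  · refine hs.wt_neg' (m := m) ?_
    rw [bf_iv, bf_iv]
    exact_mod_cast hm

end

end Pool.Agent.V5helper2.HR
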