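import Pool.Agent.V5helper2.HR.Lim

/-!
# The limits are algebraic integers all of whose other conjugates lie in the closed unit disc
-/

set_option autoImplicit false

namespace Pool.Agent.V5helper2.HR

open Polynomial Filter Topology

noncomputable section

/-- growth of the Chebyshev values -/
theorem Ur_growth {x : ℝ} (hx : 1 < x) :
    Tendsto (fun i : ℕ => Ur (x + x⁻¹) i * (x⁻¹) ^ i) atTop (𝓝 (1 - x⁻¹ ^ 2)⁻¹) := by
  have hx0 : x ≠ 0 := by positivity
  have h1 : ∀ i : ℕ, Ur (x + x⁻¹) i * (x⁻¹) ^ i = ∑ j ∈ Finset.range (i + 1), (x⁻¹ ^ 2) ^ j := by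
    intro i
    induction i with
    | zero => simp [Ur]
    | succ i ih =>
      rw [Finset.sum_range_succ, ← ih, Ur_eq hx0]
      rw [pow_succ (x⁻¹) i]
      have h2 : x * x⁻¹ = 1 := mul_inv_cancel₀ hx0
      have h3 : x * Ur (x + x⁻¹) i * (x⁻¹ ^ i * x⁻¹) = Ur (x + x⁻¹) i * x⁻¹ ^ i := by
        calc x * Ur (x + x⁻¹) i * (x⁻¹ ^ i * x⁻¹) = (x * x⁻¹) * (Ur (x + x⁻¹) i * x⁻¹ ^ i) := by
              ring
          _ = _ := by rw [h2, one_mul]
      rw [add_mul, h3]
      ring
  have h4 : |x⁻¹ ^ 2| < 1 := by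
    rw [abs_of_nonneg (by positivity)]
    apply pow_lt_one₀ (by positivity) (inv_lt_one_of_one_lt₀ hx) (by norm_num)
  have h5 := (hasSum_geometric_of_abs_lt_one h4).tendsto_sum_nat
  have h6 := h5.comp (tendsto_add_atTop_nat 1)
  refine h6.congr fun i => ?_
  rw [h1]
  rfl

theorem lin_geom {r : ℝ} (h0 : 0 ≤ r) (h1 : r < 1) (L : ℝ) :
    Tendsto (fun i : ℕ => ((i : ℝ) + 1) * L * r ^ i) atTop (𝓝 0) := by
  have h2 := tendsto_pow_const_mul_const_pow_of_abs_lt_one 1
    (show |r| < 1 by rwa [abs_of_nonneg h0])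
  have h3 := tendsto_pow_const_mul_const_pow_of_abs_lt_one 0
    (show |r| < 1 by rwa [abs_of_nonneg h0])
  have h4 := (h2.add h3).mul_const L
  rw [add_zero, zero_mul] at h4
  refine h4.congr fun i => ?_
  ring

/-- growth of the coefficients -/
theorem coeff_growth {x t L : ℝ} (hx : 1 < x) (c : ℕ → ℤ)
    (hc : ∀ i : ℕ, |(c i : ℝ) - t * Ur (x + x⁻¹) i| ≤ (i + 1) * L) :
    Tendsto (fun i : ℕ => (c i : ℝ) * (x⁻¹) ^ i) atTop (𝓝 (t * (1 - x⁻¹ ^ 2)⁻¹)) := by
  have h1 := (Ur_growth hx).const_mul t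
  have h2 : Tendsto (fun i : ℕ => ((c i : ℝ) - t * Ur (x + x⁻¹) i) * (x⁻¹) ^ i) atTop (𝓝 0) := by
    refine squeeze_zero_norm (fun i => ?_) (lin_geom (r := x⁻¹) (by positivity)
      (inv_lt_one_of_one_lt₀ hx) L)
    rw [norm_mul, Real.norm_eq_abs, Real.norm_eq_abs, abs_of_nonneg (by positivity : 0 ≤ x⁻¹ ^ i)]
    exact mul_le_mul_of_nonneg_right (hc i) (by positivity)
  have h3 := h2.add h1
  rw [zero_add] at h3
  refine h3.congr fun i => ?_
  ring

/-- the limit is not zero -/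
theorem lim_ne {x t : ℝ} (hx : 1 < x) (ht : 1 ≤ |t|) : t * (1 - x⁻¹ ^ 2)⁻¹ ≠ 0 := by
  have h1 : x⁻¹ ^ 2 < 1 := pow_lt_one₀ (by positivity) (inv_lt_one_of_one_lt₀ hx) (by norm_num)
  have h2 : t ≠ 0 := by
    rintro rfl
    norm_num at ht
  have h3 : (1 - x⁻¹ ^ 2) ≠ 0 := by linarith
  exact mul_ne_zero h2 (inv_ne_zero h3)

/-! ### Integrality -/

/-- the sequences which satisfy the recurrence with the coefficients of `a` -/
def recs (a : ℤ[X]) : Submodule ℤ (ℕ → ℤ) where
  carrier := {f | ∀ m, ∑ e ∈ Finset.range (a.natDegree + 1), a.coeff e * f (m + (a.natDegree - e)) = 0}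
  zero_mem' := fun m => by simp
  add_mem' := fun {f g} hf hg m => by
    simp only [Pi.add_apply, mul_add, Finset.sum_add_distrib]
    rw [hf m, hg m, add_zero]
  smul_mem' := fun c f hf m => by
    simp only [Pi.smul_apply, smul_eq_mul]
    have : ∑ e ∈ Finset.range (a.natDegree + 1), a.coeff e * (c * f (m + (a.natDegree - e))) =
        c * ∑ e ∈ Finset.range (a.natDegree + 1), a.coeff e * f (m + (a.natDegree - e)) := by
      rw [Finset.mul_sum]
      exact Finset.sum_congr rfl fun e _ => by ring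
    rw [this, hf m, mul_zero]

theorem mem_recs {a : ℤ[X]} {f : ℕ → ℤ} : f ∈ recs a ↔
    ∀ m, ∑ e ∈ Finset.range (a.natDegree + 1), a.coeff e * f (m + (a.natDegree - e)) = 0 := Iff.rfl

theorem recs_finite {a : ℤ[X]} (ha : a.coeff 0 ≠ 0) : Module.Finite ℤ (recs a) := by
  set d := a.natDegree with hd
  let φ : recs a →ₗ[ℤ] (Fin d → ℤ) :=
    { toFun := fun f i => f.1 i
      map_add' := fun f g => rfl
      map_smul' := fun c f => rfl }
  have hφ : Function.Injective φ := by
    rw [← LinearMap.ker_eq_bot, LinearMap.ker_eq_bot']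
    intro f hf
    have h0 : ∀ m, f.1 m = 0 := by
      intro m
      induction m using Nat.strong_induction_on with
      | _ m ih =>
        by_cases hm : m < d
        · exact congrFun hf ⟨m, hm⟩
        · obtain ⟨k, hk⟩ := Nat.exists_eq_add_of_le (not_lt.mp hm)
          have h1 := mem_recs.mp f.2 k
          rw [← hd, Finset.sum_range_succ', Nat.sub_zero] at h1
          have h2 : ∑ e ∈ Finset.range d, a.coeff (e + 1) * f.1 (k + (d - (e + 1))) = 0 := by
            refine Finset.sum_eq_zero fun e he => ?_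
            rw [Finset.mem_range] at he
            rw [ih (k + (d - (e + 1))) (by omega), mul_zero]
          rw [h2, zero_add, Nat.add_comm k d, ← hk] at h1
          exact (mul_eq_zero.mp h1).resolve_left ha
    exact Subtype.ext (funext h0)
  have : IsNoetherian ℤ (recs a) := isNoetherian_of_injective φ hφ
  infer_instance

/-- the shift -/
def shift (a : ℤ[X]) : Module.End ℤ (recs a) where
  toFun f := ⟨fun m => f.1 (m + 1), fun m => by
    have h1 := mem_recs.mp f.2 (m + 1)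
    rw [← h1]
    exact Finset.sum_congr rfl fun e _ => congrArg (fun t => a.coeff e * f.1 t)
      (show m + (a.natDegree - e) + 1 = m + 1 + (a.natDegree - e) by omega)⟩
  map_add' f g := rfl
  map_smul' c f := rfl

theorem shift_pow (a : ℤ[X]) (k : ℕ) (f : recs a) (m : ℕ) :
    ((shift a ^ k) f).1 m = f.1 (m + k) := by
  induction k generalizing m with
  | zero => rfl
  | succ k ih =>
    rw [pow_succ', Module.End.mul_apply]
    show ((shift a ^ k) f).1 (m + 1) = _
    rw [ih]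
    exact congrArg f.1 (show m + 1 + k = m + (k + 1) by omega)

theorem aeval_shift (a p : ℤ[X]) (f : recs a) (m : ℕ) :
    (aeval (shift a) p f).1 m = ∑ k ∈ Finset.range (p.natDegree + 1), p.coeff k * f.1 (m + k) := by
  rw [aeval_eq_sum_range, LinearMap.sum_apply, Submodule.coe_sum, Finset.sum_apply]
  refine Finset.sum_congr rfl fun k _ => ?_
  rw [LinearMap.smul_apply]
  show p.coeff k • ((shift a ^ k) f).1 m = _
  rw [shift_pow, smul_eq_mul]

theorem LimData.integral {x : ℝ} (hx : 1 < x) (h : LimData x) : IsIntegral ℤ x := by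
  obtain ⟨a, b, c, t, L, ha, hab, ht, hc⟩ := h
  have hfin := recs_finite ha
  obtain ⟨p, hpm, hp⟩ := LinearMap.exists_monic_and_aeval_eq_zero ℤ (shift a)
  set M := b.natDegree + 1 with hM
  have hf0 : (fun j => c (j + M)) ∈ recs a := by
    rw [mem_recs]
    intro m
    have h1 := congrArg (PowerSeries.coeff (m + a.natDegree + M)) hab
    rw [Polynomial.coeff_coe, PowerSeries.coeff_mul, Finset.Nat.sum_antidiagonal_eq_sum_range_succ_mk] at h1
    rw [coeff_eq_zero_of_natDegree_lt (p := b) (by omega)] at h1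
    simp only [Polynomial.coeff_coe, PowerSeries.coeff_mk] at h1
    rw [← h1]
    have h2 : Finset.range (a.natDegree + 1) ⊆ Finset.range (m + a.natDegree + M).succ := by
      intro i hi
      rw [Finset.mem_range] at *
      omega
    rw [← Finset.sum_subset h2]
    · refine Finset.sum_congr rfl fun e he => ?_
      rw [Finset.mem_range] at he
      congr 2
      omega
    · intro e _ he
      rw [Finset.mem_range, not_lt] at he
      rw [coeff_eq_zero_of_natDegree_lt (by omega), zero_mul]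
  have h1 : ∀ m, ∑ k ∈ Finset.range (p.natDegree + 1), p.coeff k * c (m + k + M) = 0 := by
    intro m
    have h2 := aeval_shift a p ⟨_, hf0⟩ m
    rw [hp] at h2
    exact h2.symm
  set κ0 := t * (1 - x⁻¹ ^ 2)⁻¹ with hκ0
  have hx0 : x ≠ 0 := by positivity
  have h3 := coeff_growth hx c hc
  have h4 : Tendsto (fun m : ℕ => ∑ k ∈ Finset.range (p.natDegree + 1),
      (p.coeff k : ℝ) * x ^ (k + M) * ((c (m + k + M) : ℝ) * (x⁻¹) ^ (m + k + M))) atTop
      (𝓝 (∑ k ∈ Finset.range (p.natDegree + 1), (p.coeff k : ℝ) * x ^ (k + M) * κ0)) := by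
    refine tendsto_finsetSum _ fun k _ => Tendsto.const_mul _ ?_
    have h5 := h3.comp (tendsto_add_atTop_nat (k + M))
    refine h5.congr fun m => ?_
    simp only [Function.comp_apply]
    rw [Nat.add_assoc]
  have h5 : ∀ m : ℕ, ∑ k ∈ Finset.range (p.natDegree + 1),
      (p.coeff k : ℝ) * x ^ (k + M) * ((c (m + k + M) : ℝ) * (x⁻¹) ^ (m + k + M)) = 0 := by
    intro m
    have h6 : ∑ k ∈ Finset.range (p.natDegree + 1), (p.coeff k : ℝ) * (c (m + k + M) : ℝ) = 0 := by
      have := h1 m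
      exact_mod_cast this
    have h7 : ∀ k, (p.coeff k : ℝ) * x ^ (k + M) * ((c (m + k + M) : ℝ) * (x⁻¹) ^ (m + k + M)) =
        (x⁻¹) ^ m * ((p.coeff k : ℝ) * (c (m + k + M) : ℝ)) := by
      intro k
      have h8 : (x⁻¹) ^ (m + k + M) * x ^ (k + M) = (x⁻¹) ^ m := by
        rw [Nat.add_assoc, pow_add, mul_assoc, ← mul_pow, inv_mul_cancel₀ hx0, one_pow, mul_one]
      calc (p.coeff k : ℝ) * x ^ (k + M) * ((c (m + k + M) : ℝ) * (x⁻¹) ^ (m + k + M)) =
          ((x⁻¹) ^ (m + k + M) * x ^ (k + M)) * ((p.coeff k : ℝ) * (c (m + k + M) : ℝ)) := by ring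
        _ = _ := by rw [h8]
    rw [Finset.sum_congr rfl fun k _ => h7 k, ← Finset.mul_sum, h6, mul_zero]
  have h6 : ∑ k ∈ Finset.range (p.natDegree + 1), (p.coeff k : ℝ) * x ^ (k + M) * κ0 = 0 := by
    refine tendsto_nhds_unique h4 ?_
    refine tendsto_const_nhds.congr fun m => (h5 m).symm
  refine ⟨p, hpm, ?_⟩
  rw [← aeval_def, aeval_eq_sum_range]
  have h7 : x ^ M * κ0 * ∑ k ∈ Finset.range (p.natDegree + 1), (p.coeff k : ℝ) * x ^ k = 0 := by
    rw [Finset.mul_sum, ← h6]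
    exact Finset.sum_congr rfl fun k _ => by ring
  have h8 := (mul_eq_zero.mp h7).resolve_left (mul_ne_zero (pow_ne_zero _ hx0) (lim_ne hx ht))
  rw [← h8]
  exact Finset.sum_congr rfl fun k _ => by rw [zsmul_eq_mul]

/-! ### Conjugates -/

theorem eval_series (d : ℕ → ℂ) {K : ℝ} (hd : ∀ i : ℕ, ‖d i‖ ≤ (i + 1) * K) (V W : ℂ[X])
    (h : (V : PowerSeries ℂ) * PowerSeries.mk d = (W : PowerSeries ℂ)) {z : ℂ} (hz : ‖z‖ < 1) :
    V.eval z * ∑' i, d i * z ^ i = W.eval z := by
  have hK : 0 ≤ K := by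
    have := hd 0
    have h1 := (norm_nonneg _).trans this
    simpa using h1
  have hsd : Summable fun i => ‖d i * z ^ i‖ := by
    have h1 : Summable fun i : ℕ => (((i : ℝ) ^ 1 * ‖z‖ ^ i) + (((i : ℝ) ^ 0 * ‖z‖ ^ i))) * K :=
      ((summable_pow_mul_geometric_of_norm_lt_one 1 (by simpa using hz)).add
        (summable_pow_mul_geometric_of_norm_lt_one 0 (by simpa using hz))).mul_right K
    refine Summable.of_nonneg_of_le (fun i => norm_nonneg _) (fun i => ?_) h1
    rw [norm_mul, norm_pow]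
    calc ‖d i‖ * ‖z‖ ^ i ≤ ((i + 1) * K) * ‖z‖ ^ i :=
          mul_le_mul_of_nonneg_right (hd i) (by positivity)
      _ = _ := by ring
  have hpoly : ∀ P : ℂ[X], (Summable fun i => ‖P.coeff i * z ^ i‖) ∧
      ∑' i, P.coeff i * z ^ i = P.eval z := by
    intro P
    have h0 : ∀ i ∉ Finset.range (P.natDegree + 1), P.coeff i * z ^ i = 0 := by
      intro i hi
      rw [Finset.mem_range, not_lt] at hi
      rw [coeff_eq_zero_of_natDegree_lt (by omega), zero_mul]
    refine ⟨summable_of_ne_finset_zero (s := Finset.range (P.natDegree + 1)) fun i hi => ?_, ?_⟩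
    · rw [h0 i hi, norm_zero]
    · rw [tsum_eq_sum h0, eval_eq_sum_range]
  rw [← (hpoly V).2, ← (hpoly W).2,
    tsum_mul_tsum_eq_tsum_sum_antidiagonal_of_summable_norm (hpoly V).1 hsd]
  congr 1
  funext m
  have h1 := congrArg (PowerSeries.coeff m) h
  rw [Polynomial.coeff_coe, PowerSeries.coeff_mul] at h1
  simp only [Polynomial.coeff_coe, PowerSeries.coeff_mk] at h1
  rw [← h1, Finset.sum_mul]
  refine Finset.sum_congr rfl fun p hp => ?_
  have h2 : p.1 + p.2 = m := Finset.HasAntidiagonal.mem_antidiagonal.mp hp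
  rw [← h2, pow_add]
  ring

theorem inv_root {a : ℚ[X]} {y : ℂ} (hy : y ≠ 0) :
    aeval y a.reverse = 0 ↔ aeval y⁻¹ a = 0 := by
  have : Invertible y⁻¹ := invertibleOfNonzero (inv_ne_zero hy)
  have h1 := eval₂_reverse_eq_zero_iff (algebraMap ℚ ℂ) y⁻¹ a
  have h2 : ⅟(y⁻¹) = y := by
    rw [invOf_eq_inv, inv_inv]
  rw [h2] at h1
  rw [aeval_def, aeval_def]
  exact h1

theorem LimData.conj {x : ℝ} (hx : 1 < x) (h : LimData x) (y : ℂ)
    (hy : aeval y (minpoly ℚ x) = 0) : y = x ∨ ‖y‖ ≤ 1 := by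
  have hint := h.integral hx
  obtain ⟨a, b, c, t, L, ha, hab, ht, hc⟩ := h
  by_contra hcon
  push Not at hcon
  obtain ⟨hyx, hy1⟩ := hcon
  have hy0 : y ≠ 0 := by
    rintro rfl
    rw [norm_zero] at hy1
    linarith
  have hx0 : (x : ℂ) ≠ 0 := by
    rw [Ne, Complex.ofReal_eq_zero]
    positivity
  -- lowest terms
  set aQ := a.map (Int.castRingHom ℚ) with haQ
  set bQ := b.map (Int.castRingHom ℚ) with hbQ
  have haQ0 : aQ ≠ 0 := by
    intro h0
    have h1 := congrArg (fun p : ℚ[X] => p.coeff 0) h0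
    simp [haQ] at h1
    exact ha h1
  have hbQ0 : bQ ≠ 0 := by
    intro h0
    have hb0 : b = 0 := by
      rw [hbQ] at h0
      exact (Polynomial.map_eq_zero_iff (RingHom.injective_int (Int.castRingHom ℚ))).mp h0
    rw [hb0, Polynomial.coe_zero] at hab
    have ha0 : (a : PowerSeries ℤ) ≠ 0 := by
      intro h1
      rw [Polynomial.coe_eq_zero_iff] at h1
      rw [h1, coeff_zero] at ha
      exact ha rfl
    have h1 := (mul_eq_zero.mp hab).resolve_left ha0
    have h2 : ∀ i, c i = 0 := fun i => by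
      have := congrArg (PowerSeries.coeff i) h1
      simpa using this
    have h3 := coeff_growth hx c hc
    have h4 : Tendsto (fun i : ℕ => (c i : ℝ) * (x⁻¹) ^ i) atTop (𝓝 0) := by
      refine tendsto_const_nhds.congr fun i => ?_
      rw [h2]
      simp
    exact lim_ne hx ht (tendsto_nhds_unique h3 h4)
  classical
  set g := GCDMonoid.gcd aQ bQ with hg
  have hg0 : g ≠ 0 := by
    rw [hg, Ne, gcd_eq_zero_iff]
    exact fun h => haQ0 h.1
  obtain ⟨a1, ha1⟩ : g ∣ aQ := GCDMonoid.gcd_dvd_left _ _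
  obtain ⟨b1, hb1⟩ : g ∣ bQ := GCDMonoid.gcd_dvd_right _ _
  have hcop : IsCoprime a1 b1 := by
    have h1 : IsCoprime (aQ / g) (bQ / g) := isCoprime_div_gcd_div_gcd hbQ0
    have h2 : aQ / g = a1 := by rw [ha1, mul_div_cancel_left₀ _ hg0]
    have h3 : bQ / g = b1 := by rw [hb1, mul_div_cancel_left₀ _ hg0]
    rwa [h2, h3] at h1
  have hser1 : (a1 : PowerSeries ℚ) * PowerSeries.mk (fun i => (c i : ℚ)) = (b1 : PowerSeries ℚ) := by
    have h1 : (aQ : PowerSeries ℚ) * PowerSeries.mk (fun i => (c i : ℚ)) = (bQ : PowerSeries ℚ) := by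
      rw [haQ, hbQ, Polynomial.polynomial_map_coe, Polynomial.polynomial_map_coe, ← hab, map_mul]
      congr 1
    have hg0' : (g : PowerSeries ℚ) ≠ 0 := by
      rw [Ne, Polynomial.coe_eq_zero_iff]
      exact hg0
    rw [ha1, hb1, Polynomial.coe_mul, Polynomial.coe_mul, mul_assoc] at h1
    exact mul_left_cancel₀ hg0' h1
  -- over the complex numbers
  set V := a1.map (algebraMap ℚ ℂ) with hV
  set W := b1.map (algebraMap ℚ ℂ) with hW
  set d : ℕ → ℂ := fun i => (c i : ℂ) - x * (if i = 0 then 0 else (c (i - 1) : ℂ)) with hd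
  have hserC : (V : PowerSeries ℂ) * PowerSeries.mk (fun i => (c i : ℂ)) = (W : PowerSeries ℂ) := by
    rw [hV, hW, Polynomial.polynomial_map_coe, Polynomial.polynomial_map_coe, ← hser1, map_mul]
    congr 1
  have hmkd : PowerSeries.mk d = ((1 - C (x : ℂ) * X : ℂ[X]) : PowerSeries ℂ) *
      PowerSeries.mk (fun i => (c i : ℂ)) := by
    rw [Polynomial.coe_sub, Polynomial.coe_mul, Polynomial.coe_X, Polynomial.coe_one,
      Polynomial.coe_C, sub_mul, one_mul, mul_assoc]
    ext i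
    rw [map_sub, PowerSeries.coeff_C_mul, PowerSeries.coeff_mk, PowerSeries.coeff_mk]
    cases i with
    | zero => simp [hd]
    | succ i =>
      rw [PowerSeries.coeff_succ_X_mul, PowerSeries.coeff_mk]
      simp [hd]
  have hserd : (V : PowerSeries ℂ) * PowerSeries.mk d =
      ((((1 - C (x : ℂ) * X) * W : ℂ[X])) : PowerSeries ℂ) := by
    rw [hmkd, Polynomial.coe_mul, ← hserC]
    ring
  -- the growth of `d`
  set K := |t| + (1 + x) * L with hK
  have hL0 : 0 ≤ L := by
    have := hc 0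
    have h1 := (abs_nonneg _).trans this
    simpa using h1
  have hdb : ∀ i : ℕ, ‖d i‖ ≤ (i + 1) * K := by
    intro i
    cases i with
    | zero =>
      have h1 := hc 0
      have h2 : d 0 = ((c 0 : ℝ) : ℂ) := by simp [hd]
      rw [h2, Complex.norm_real, Real.norm_eq_abs]
      have h3 : Ur (x + x⁻¹) 0 = 1 := rfl
      rw [h3] at h1
      have h4 : |(c 0 : ℝ)| ≤ |t| + L := by
        have e1 : (c 0 : ℝ) = ((c 0 : ℝ) - t * 1) + t := by ring
        rw [e1]
        refine (abs_add_le _ _).trans ?_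
        have : (((0 : ℕ) : ℝ) + 1) * L = L := by simp
        linarith
      rw [hK]
      push_cast
      nlinarith
    | succ i =>
      have h2 : d (i + 1) = (((c (i + 1) : ℝ) - x * (c i : ℝ) : ℝ) : ℂ) := by
        simp [hd]
      rw [h2, Complex.norm_real, Real.norm_eq_abs]
      have h1 := hc (i + 1)
      have h3 := hc i
      rw [Ur_eq (by positivity : x ≠ 0)] at h1
      set U := Ur (x + x⁻¹) i with hU
      have e1 : (c (i + 1) : ℝ) - x * (c i : ℝ) = ((c (i + 1) : ℝ) - t * (x * U + x⁻¹ ^ (i + 1))) +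
          (-(x * ((c i : ℝ) - t * U)) + t * x⁻¹ ^ (i + 1)) := by ring
      rw [e1]
      refine (abs_add_le _ _).trans ?_
      have h4 : |-(x * ((c i : ℝ) - t * U)) + t * x⁻¹ ^ (i + 1)| ≤ x * ((i + 1) * L) + |t| := by
        refine (abs_add_le _ _).trans ?_
        rw [abs_neg, abs_mul, abs_mul, abs_of_pos (by linarith : 0 < x)]
        have h5 : |x⁻¹ ^ (i + 1)| ≤ 1 := by
          rw [abs_of_nonneg (by positivity)]
          exact pow_le_one₀ (by positivity) (inv_le_one_of_one_le₀ hx.le)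
        have h6 := mul_le_mul_of_nonneg_left h3 (by linarith : 0 ≤ x)
        have h7 := mul_le_mul_of_nonneg_left h5 (abs_nonneg t)
        linarith
      push_cast at h1 ⊢
      rw [hK]
      have h5 : (0 : ℝ) ≤ i := Nat.cast_nonneg i
      have h6 : 0 ≤ |t| := abs_nonneg t
      have h7 : 0 ≤ (i : ℝ) * |t| := by positivity
      have h8 : 0 ≤ x * L := by positivity
      nlinarith
  -- value at `1/x`
  have hinvx : ‖((x : ℂ))⁻¹‖ < 1 := by
    rw [norm_inv, Complex.norm_real, Real.norm_eq_abs, abs_of_pos (by linarith)]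
    exact inv_lt_one_of_one_lt₀ hx
  have hD : ∑' i, d i * ((x : ℂ)⁻¹) ^ i ≠ 0 := by
    have hsd : Summable fun i => d i * ((x : ℂ)⁻¹) ^ i := by
      have h1 : Summable fun i : ℕ => (((i : ℝ) ^ 1 * ‖((x : ℂ))⁻¹‖ ^ i) +
          (((i : ℝ) ^ 0 * ‖((x : ℂ))⁻¹‖ ^ i))) * K :=
        ((summable_pow_mul_geometric_of_norm_lt_one 1 (by simpa using hinvx)).add
          (summable_pow_mul_geometric_of_norm_lt_one 0 (by simpa using hinvx))).mul_right K
      refine Summable.of_norm_bounded h1 fun i => ?_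
      rw [norm_mul, norm_pow]
      calc ‖d i‖ * ‖((x : ℂ))⁻¹‖ ^ i ≤ ((i + 1) * K) * ‖((x : ℂ))⁻¹‖ ^ i :=
            mul_le_mul_of_nonneg_right (hdb i) (by positivity)
        _ = _ := by ring
    have h1 := hsd.hasSum.tendsto_sum_nat
    have h2 : ∀ m : ℕ, ∑ i ∈ Finset.range (m + 1), d i * ((x : ℂ)⁻¹) ^ i =
        (((c m : ℝ) * (x⁻¹) ^ m : ℝ) : ℂ) := by
      intro m
      induction m with
      | zero => simp [hd]
      | succ m ih =>
        rw [Finset.sum_range_succ, ih]
        have h3 : d (m + 1) = (c (m + 1) : ℂ) - x * (c m : ℂ) := by simp [hd]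
        rw [h3, pow_succ]
        push_cast
        rw [sub_mul]
        have h4 : (x : ℂ) * (c m : ℂ) * ((x : ℂ)⁻¹ ^ m * (x : ℂ)⁻¹) = (c m : ℂ) * (x : ℂ)⁻¹ ^ m := by
          calc (x : ℂ) * (c m : ℂ) * ((x : ℂ)⁻¹ ^ m * (x : ℂ)⁻¹) =
              ((x : ℂ) * (x : ℂ)⁻¹) * ((c m : ℂ) * (x : ℂ)⁻¹ ^ m) := by ring
            _ = _ := by rw [mul_inv_cancel₀ hx0, one_mul]
        rw [h4, pow_succ]
        ring
    have h3 := h1.comp (tendsto_add_atTop_nat 1)
    have h4 := coeff_growth hx c hc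
    have h5 : Tendsto (fun m : ℕ => (((c m : ℝ) * (x⁻¹) ^ m : ℝ) : ℂ)) atTop
        (𝓝 ((t * (1 - x⁻¹ ^ 2)⁻¹ : ℝ) : ℂ)) :=
      (Complex.continuous_ofReal.tendsto _).comp h4
    have h6 : Tendsto (fun m : ℕ => (((c m : ℝ) * (x⁻¹) ^ m : ℝ) : ℂ)) atTop
        (𝓝 (∑' i, d i * ((x : ℂ)⁻¹) ^ i)) := by
      refine h3.congr fun m => ?_
      rw [← h2]
      rfl
    rw [tendsto_nhds_unique h6 h5, Ne, Complex.ofReal_eq_zero]
    exact lim_ne hx ht
  have hVx : V.eval ((x : ℂ)⁻¹) = 0 := by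
    have h1 := eval_series d hdb V _ hserd hinvx
    rw [eval_mul, eval_sub, eval_one, eval_mul, eval_C, eval_X, mul_inv_cancel₀ hx0, sub_self,
      zero_mul] at h1
    exact (mul_eq_zero.mp h1).resolve_right hD
  have hVx' : aeval ((x : ℂ)⁻¹) a1 = 0 := by
    rw [aeval_def, ← eval_map]
    exact hVx
  have hrev : aeval (x : ℂ) a1.reverse = 0 := (inv_root hx0).mpr hVx'
  have hrev' : aeval x a1.reverse = 0 := by
    have h1 : aeval (x : ℂ) a1.reverse = ((aeval x a1.reverse : ℝ) : ℂ) := by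
      have := aeval_algebraMap_apply ℂ x a1.reverse
      simpa using this
    rw [h1, Complex.ofReal_eq_zero] at hrev
    exact hrev
  have hdvd := minpoly.dvd ℚ x hrev'
  have hrevy : aeval y a1.reverse = 0 := by
    obtain ⟨q, hq⟩ := hdvd
    rw [hq, map_mul, hy, zero_mul]
  have hVy : aeval y⁻¹ a1 = 0 := (inv_root hy0).mp hrevy
  have hinvy : ‖y⁻¹‖ < 1 := by
    rw [norm_inv]
    exact inv_lt_one_of_one_lt₀ hy1
  have hWy : W.eval y⁻¹ = 0 := by
    have h1 := eval_series d hdb V _ hserd hinvy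
    have h2 : V.eval y⁻¹ = 0 := by
      rw [hV, eval_map, ← aeval_def]
      exact hVy
    rw [h2, zero_mul, eval_mul, eval_sub, eval_one, eval_mul, eval_C, eval_X] at h1
    have h3 : 1 - (x : ℂ) * y⁻¹ ≠ 0 := by
      intro h4
      apply hyx
      field_simp at h4
      linear_combination h4
    exact (mul_eq_zero.mp h1.symm).resolve_left h3
  obtain ⟨u, v, huv⟩ := hcop
  have h1 := congrArg (fun q => aeval y⁻¹ q) huv
  simp only [map_add, map_mul, map_one] at h1
  have h2 : aeval y⁻¹ b1 = 0 := by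
    rw [aeval_def, ← eval_map]
    exact hWy
  rw [hVy, h2, mul_zero, mul_zero, add_zero] at h1
  exact zero_ne_one h1

end

end Pool.Agent.V5helper2.HR
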