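import Mathlib

/-!
# The quadratic polynomials `X² - a X + 1`
-/

set_option autoImplicit false

namespace Pool.Agent.V5helper2.HR

open Polynomial

noncomputable section

/-- Chebyshev recursion -/
def Ur {K : Type*} [Field K] (a : K) : ℕ → K
  | 0 => 1
  | 1 => a
  | i + 2 => a * Ur a (i + 1) - Ur a i

theorem Ur_eq {K : Type*} [Field K] {ζ : K} (hζ : ζ ≠ 0) (i : ℕ) :
    Ur (ζ + ζ⁻¹) (i + 1) = ζ * Ur (ζ + ζ⁻¹) i + (ζ⁻¹) ^ (i + 1) := by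
  induction i with
  | zero => simp [Ur]
  | succ i ih =>
    rw [Ur]
    have h1 : ζ⁻¹ * Ur (ζ + ζ⁻¹) (i + 1) = Ur (ζ + ζ⁻¹) i + (ζ⁻¹) ^ (i + 2) := by
      rw [ih, mul_add, inv_mul_cancel_left₀ hζ]
      ring
    rw [add_mul, h1]
    ring

theorem Ur_bound {ζ : ℂ} (hζ : ‖ζ‖ = 1) (i : ℕ) : ‖Ur (ζ + ζ⁻¹) i‖ ≤ i + 1 := by
  have h0 : ζ ≠ 0 := by
    rintro rfl
    simp at hζ
  induction i with
  | zero => simp [Ur]
  | succ i ih =>
    rw [Ur_eq h0]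
    calc ‖ζ * Ur (ζ + ζ⁻¹) i + (ζ⁻¹) ^ (i + 1)‖
        ≤ ‖ζ * Ur (ζ + ζ⁻¹) i‖ + ‖(ζ⁻¹) ^ (i + 1)‖ := norm_add_le _ _
      _ = ‖Ur (ζ + ζ⁻¹) i‖ + 1 := by
        rw [norm_mul, hζ, one_mul, norm_pow, norm_inv, hζ, inv_one, one_pow]
      _ ≤ _ := by
        push_cast
        linarith

theorem Ur_cast (a : ℝ) (i : ℕ) : Ur (a : ℂ) i = ((Ur a i : ℝ) : ℂ) := by
  have key : ∀ i, Ur (a : ℂ) i = ((Ur a i : ℝ) : ℂ) ∧ Ur (a : ℂ) (i + 1) = ((Ur a (i + 1) : ℝ) : ℂ) := by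
    intro i
    induction i with
    | zero => simp [Ur]
    | succ i ih =>
      refine ⟨ih.2, ?_⟩
      rw [Ur, Ur, ih.1, ih.2]
      push_cast
      rfl
  exact (key i).1

/-- a unit complex number with given real part -/
theorem exists_unit {a : ℝ} (ha : |a| ≤ 2) : ∃ ζ : ℂ, ‖ζ‖ = 1 ∧ ζ + ζ⁻¹ = a := by
  have h1 : (a / 2) ^ 2 ≤ 1 := by
    have := abs_le.mp ha
    nlinarith
  set b := Real.sqrt (1 - (a / 2) ^ 2) with hb
  have hb2 : b ^ 2 = 1 - (a / 2) ^ 2 := Real.sq_sqrt (by linarith)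
  set ζ : ℂ := ⟨a / 2, b⟩ with hζ
  have hn : Complex.normSq ζ = 1 := by
    rw [Complex.normSq_apply]
    simp only [hζ]
    nlinarith
  have hn' : ‖ζ‖ = 1 := by
    have h2 : ‖ζ‖ ^ 2 = 1 := by rw [← Complex.normSq_eq_norm_sq, hn]
    exact (pow_eq_one_iff_of_nonneg (norm_nonneg _) two_ne_zero).mp h2
  refine ⟨ζ, hn', ?_⟩
  rw [Complex.inv_def, hn, inv_one, Complex.ofReal_one, mul_one]
  apply Complex.ext
  · simp [hζ]
  · simp [hζ]

theorem Ur_real_bound {a : ℝ} (ha : |a| ≤ 2) (i : ℕ) : |Ur a i| ≤ i + 1 := by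
  obtain ⟨ζ, h1, h2⟩ := exists_unit ha
  have h3 := Ur_bound h1 i
  rw [h2, Ur_cast, Complex.norm_real, Real.norm_eq_abs] at h3
  exact h3

/-- the quadratic polynomial -/
def qd (a : ℂ) : ℂ[X] := X ^ 2 - C a * X + 1

theorem qd_factor {ζ : ℂ} (hζ : ζ ≠ 0) : qd (ζ + ζ⁻¹) = (X - C ζ) * (X - C ζ⁻¹) := by
  unfold qd
  have h1 : C ζ * C ζ⁻¹ = (1 : ℂ[X]) := by rw [← C_mul, mul_inv_cancel₀ hζ, C_1]
  rw [C_add]
  linear_combination -h1

theorem mahler_qd {ζ : ℂ} (hζ : ζ ≠ 0) : (qd (ζ + ζ⁻¹)).mahlerMeasure =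
    max 1 ‖ζ‖ * max 1 ‖ζ⁻¹‖ := by
  rw [qd_factor hζ, mahlerMeasure_mul, mahlerMeasure_X_sub_C, mahlerMeasure_X_sub_C]

theorem mahler_qd_unit {a : ℝ} (ha : |a| ≤ 2) : (qd a).mahlerMeasure = 1 := by
  obtain ⟨ζ, h1, h2⟩ := exists_unit ha
  have h0 : ζ ≠ 0 := by
    rintro rfl
    simp at h1
  rw [← h2, mahler_qd h0, norm_inv, h1]
  simp

theorem mahler_qd_top {τ : ℝ} (hτ : 1 < |τ|) : (qd ((τ + τ⁻¹ : ℝ) : ℂ)).mahlerMeasure = |τ| := by
  have h0 : (τ : ℂ) ≠ 0 := by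
    intro h
    have : τ = 0 := by exact_mod_cast h
    rw [this] at hτ
    simp at hτ
    linarith
  push_cast
  rw [mahler_qd h0, norm_inv, Complex.norm_real, Real.norm_eq_abs, max_eq_right hτ.le,
    max_eq_left (inv_le_one_of_one_le₀ hτ.le), mul_one]

theorem root_qd {a : ℝ} (ha : |a| ≤ 2) {z : ℂ} (hz : (qd a).eval z = 0) : ‖z‖ = 1 := by
  obtain ⟨ζ, h1, h2⟩ := exists_unit ha
  have h0 : ζ ≠ 0 := by
    rintro rfl
    simp at h1
  rw [← h2, qd_factor h0, eval_mul, eval_sub, eval_sub, eval_X, eval_C, eval_C] at hz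
  rcases mul_eq_zero.mp hz with h3 | h3
  · rw [sub_eq_zero.mp h3, h1]
  · rw [sub_eq_zero.mp h3, norm_inv, h1, inv_one]

/-- the power series inverse to the quadratic polynomial -/
def ser (a : ℂ) : PowerSeries ℂ := PowerSeries.mk (Ur a)

theorem qd_ser (a : ℂ) : (qd a : PowerSeries ℂ) * ser a = 1 := by
  ext i
  have h1 : ((qd a : ℂ[X]) : PowerSeries ℂ) = PowerSeries.X ^ 2 - PowerSeries.C a * PowerSeries.X + 1 := by
    unfold qd
    simp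
  rw [h1, add_mul, sub_mul, one_mul, map_add, map_sub, mul_assoc (PowerSeries.C a),
    PowerSeries.coeff_C_mul]
  rcases i with _ | _ | i
  · simp [ser, Ur, PowerSeries.coeff_mk, pow_two, mul_assoc]
  · have h2 : PowerSeries.coeff (0 + 1) (PowerSeries.X ^ 2 * ser a) = 0 := by
      rw [PowerSeries.coeff_X_pow_mul']
      simp
    rw [h2, PowerSeries.coeff_succ_X_mul, PowerSeries.coeff_one]
    simp [ser, Ur, PowerSeries.coeff_mk]
  · have h2 : PowerSeries.coeff (i + 1 + 1) (PowerSeries.X ^ 2 * ser a) = Ur a i := by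
      rw [PowerSeries.coeff_X_pow_mul']
      simp [ser, PowerSeries.coeff_mk]
    rw [h2, PowerSeries.coeff_succ_X_mul, PowerSeries.coeff_one]
    simp only [ser, PowerSeries.coeff_mk, Ur]
    rw [if_neg (by omega)]
    ring

end

end Pool.Agent.V5helper2.HR
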