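import Pool.Agent.V5helper2.HR.Vec
import Pool.Agent.V5helper2.HR.Che
import Pool.Agent.Y820.LB.Classes

/-!
# The coprime pair of a vector crossing the axis
-/

set_option autoImplicit false

namespace Pool.Agent.V5helper2.HR

open Polynomial Pool.Agent.Y820.LB Pool.Agent.H261R2.CM

noncomputable section

/-- the numerator of `z + 1/z` -/
def h2 : ℤ[X] := X ^ 2 + 1

theorem h2_monic : h2.Monic := by
  unfold h2
  monicity!

theorem h2_deg : h2.natDegree = 2 := by
  unfold h2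
  compute_degree!

theorem h2_eval (z : ℂ) : (toC h2).eval z = z ^ 2 + 1 := by
  unfold h2 toC
  simp

variable {P : ℤ[X]} {s : Finset ℝ}

theorem card_eq (hP : P.Monic) (hs : P.map (Int.castRingHom ℝ) = ∏ a ∈ s, (X - C a)) :
    P.natDegree = s.card := by
  have h1 := congrArg natDegree hs
  rw [hP.natDegree_map, natDegree_prod_of_monic _ _ fun a _ => monic_X_sub_C a] at h1
  simpa using h1

theorem toC_prod (hs : P.map (Int.castRingHom ℝ) = ∏ a ∈ s, (X - C a)) :
    toC P = ∏ a ∈ s, (X - C (a : ℂ)) := map_C_prod hs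

/-- the substituted polynomial -/
theorem F_eq (hP : P.Monic) (hs : P.map (Int.castRingHom ℝ) = ∏ a ∈ s, (X - C a)) :
    toC (hom h2 1 P.natDegree P) = ∏ a ∈ s, qd (a : ℂ) := by
  refine eq_of_infinite_eval_eq _ _ ?_
  refine Set.Infinite.mono (s := {z : ℂ | z ≠ 0}) ?_ ?_
  · intro z hz
    have hz0 : z ≠ 0 := hz
    show (toC (hom h2 1 P.natDegree P)).eval z = (∏ a ∈ s, qd (a : ℂ)).eval z
    rw [hom_eval h2 1 _ P le_rfl z hz0, h2_eval, toC_prod hs, eval_prod, eval_prod, one_mul,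
      pow_one, card_eq hP hs, ← Finset.prod_const, ← Finset.prod_mul_distrib]
    refine Finset.prod_congr rfl fun a _ => ?_
    unfold qd
    simp only [eval_sub, eval_X, eval_C, eval_add, eval_mul, eval_pow, eval_one]
    field_simp
    ring
  · have : ({z : ℂ | z ≠ 0} : Set ℂ) = {0}ᶜ := by ext; simp
    rw [this]
    exact Set.Finite.infinite_compl (Set.finite_singleton 0)

theorem Q_eq (hP : P.Monic) (hs : P.map (Int.castRingHom ℝ) = ∏ a ∈ s, (X - C a)) (m : ℕ → ℤ) (ℓ : ℝ[X] →ₗ[ℝ] ℝ) (hm : ∀ l, ℓ (X ^ l) = m l) (z : ℂ) :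
    (toC (QQ P m)).eval z = ∑ a ∈ s, ((ℓ (DD (P.map (Int.castRingHom ℝ)) a) /
      (DD (P.map (Int.castRingHom ℝ)) a).eval a : ℝ) : ℂ) * ∏ b ∈ s.erase a, (z - b) := by
  -- the real polynomial identity
  have h1 : (QQ P m).map (Int.castRingHom ℝ) = ∑ a ∈ s,
      C (ℓ (DD (P.map (Int.castRingHom ℝ)) a) / (DD (P.map (Int.castRingHom ℝ)) a).eval a) *
        DD (P.map (Int.castRingHom ℝ)) a := by
    refine eq_of_degree_sub_lt_of_eval_finset_eq s ?_ ?_
    · refine lt_of_le_of_lt (degree_sub_le _ _) (max_lt ?_ ?_)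
      · refine lt_of_le_of_lt degree_map_le ?_
        have := QQ_degree P hP m
        rwa [degree_eq_natDegree hP.ne_zero, card_eq hP hs] at this
      · refine lt_of_le_of_lt (degree_sum_le _ _) ?_
        rw [Finset.sup_lt_iff (WithBot.bot_lt_coe _)]
        intro a ha
        rw [← smul_eq_C_mul]
        exact lt_of_le_of_lt (degree_smul_le _ _) (DD_degree hs ha)
    · intro b hb
      rw [eval_finsetSum, Finset.sum_eq_single b]
      · rw [eval_mul, eval_C, div_mul_cancel₀ _ (DD_eval_ne hs hb), QQ_eval P m ℓ hm]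
      · intro a ha hab
        rw [eval_mul, DD_eval_other hs ha hb hab, mul_zero]
      · intro h
        exact absurd hb h
  have h2 : ∀ a ∈ s, DD (P.map (Int.castRingHom ℝ)) a = ∏ b ∈ s.erase a, (X - C b) := by
    intro a ha
    have h3 : (∏ b ∈ s.erase a, (X - C b)) * (X - C a) = P.map (Int.castRingHom ℝ) := by
      rw [hs, Finset.prod_erase_mul _ _ ha]
    exact mul_right_cancel₀ (X_sub_C_ne_zero a)
      ((DD_mul _ a (eval_zero_of_mem hs ha)).trans h3.symm)
  have h3 : toC (QQ P m) = ((QQ P m).map (Int.castRingHom ℝ)).map Complex.ofRealHom := by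
    unfold toC
    rw [Polynomial.map_map]
    congr 1
  rw [h3, h1, Polynomial.map_sum, eval_finsetSum]
  refine Finset.sum_congr rfl fun a ha => ?_
  rw [Polynomial.map_mul, map_C, eval_mul, eval_C]
  congr 1
  rw [h2 a ha, Polynomial.map_prod, eval_prod]
  simp

theorem G_eq (hP : P.Monic) (hs : P.map (Int.castRingHom ℝ) = ∏ a ∈ s, (X - C a)) (m : ℕ → ℤ) (ℓ : ℝ[X] →ₗ[ℝ] ℝ) (hm : ∀ l, ℓ (X ^ l) = m l) :
    toC (hom h2 1 (P.natDegree - 1) (QQ P m)) = ∑ a ∈ s,
      C ((ℓ (DD (P.map (Int.castRingHom ℝ)) a) /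
      (DD (P.map (Int.castRingHom ℝ)) a).eval a : ℝ) : ℂ) * ∏ b ∈ s.erase a, qd (b : ℂ) := by
  refine eq_of_infinite_eval_eq _ _ ?_
  refine Set.Infinite.mono (s := {z : ℂ | z ≠ 0}) ?_ ?_
  · intro z hz
    have hz0 : z ≠ 0 := hz
    show (toC (hom h2 1 (P.natDegree - 1) (QQ P m))).eval z = _
    have hdeg : (QQ P m).natDegree ≤ P.natDegree - 1 := by
      have h1 := QQ_degree P hP m
      by_cases h0 : QQ P m = 0
      · rw [h0]
        simp
      · have := natDegree_lt_natDegree h0 h1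
        omega
    rw [hom_eval h2 1 _ _ hdeg z hz0, h2_eval, Q_eq hP hs m ℓ hm, eval_finsetSum, one_mul,
      pow_one, card_eq hP hs, Finset.mul_sum]
    refine Finset.sum_congr rfl fun a ha => ?_
    rw [eval_mul, eval_C, eval_prod, mul_left_comm]
    congr 1
    rw [← Finset.card_erase_of_mem ha, ← Finset.prod_const, ← Finset.prod_mul_distrib]
    refine Finset.prod_congr rfl fun b _ => ?_
    unfold qd
    simp only [eval_sub, eval_X, eval_C, eval_add, eval_mul, eval_pow, eval_one]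
    field_simp
    ring
  · have : ({z : ℂ | z ≠ 0} : Set ℂ) = {0}ᶜ := by ext; simp
    rw [this]
    exact Set.Finite.infinite_compl (Set.finite_singleton 0)

/-- the weight of the vector `v` at the axis: minus the norm of its component in the plane -/
def wt {n : ℕ} (S : Matrix (Fin n) (Fin n) ℤ) (up um v : Fin n → ℝ) : ℝ :=
  -(2 * (bf (rm S) v up * bf (rm S) v um) / bf (rm S) up um)

/-- **The pair of a lattice vector.** -/
theorem Situ.core {n : ℕ} {S A A' : Matrix (Fin n) (Fin n) ℤ} {τ : ℝ} {up um : Fin n → ℝ}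
    (h : Situ S A A' τ up um) {v : Fin n → ℤ}
    (hv : wt S up um (iv v) ≠ 0) {L : ℝ}
    (hL : -bf (rm S) (iv v) (iv v) - wt S up um (iv v) + |wt S up um (iv v)| ≤ L) :
    ∃ (A0 B0 : ℤ[X]) (c : ℕ → ℤ), A0 ≠ 0 ∧ B0 ≠ 0 ∧ IsRelPrime A0 B0 ∧
      mx1 A0 B0 ≤ Real.log (m1 A0) + subC (toC h2) 1 L ∧ m1 A0 = |τ| ∧
      (A0 : PowerSeries ℤ) * PowerSeries.mk c = (B0 : PowerSeries ℤ) ∧
      ∀ i : ℕ, |(c i : ℝ) - wt S up um (iv v) * Ur (τ + τ⁻¹) i| ≤ (i + 1) * L := by
  classical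
  obtain ⟨P, s, hPm, hs, hP0, hts, hsb⟩ := h.exists_P
  have hne : s.Nonempty := ⟨_, hts⟩
  set m := mom S A A' v with hm
  set ℓ := ell S A A' v with hℓ
  have hmℓ : ∀ l, ℓ (X ^ l) = m l := fun l => ell_X v l
  set w : ℝ → ℝ := fun a => ℓ (DD (P.map (Int.castRingHom ℝ)) a) /
      (DD (P.map (Int.castRingHom ℝ)) a).eval a with hw
  have hw0 : ∀ a ∈ s, a ≠ τ + τ⁻¹ → 0 ≤ w a := h.weight_nonneg v hs hP0
  have hwt : w (τ + τ⁻¹) = wt S up um (iv v) := h.weight_top hs hP0 hts
  have hwt0 : w (τ + τ⁻¹) ≠ 0 := by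
    rw [hwt]
    exact hv
  have hws : ∑ a ∈ s, w a = -bf (rm S) (iv v) (iv v) := by
    rw [hw, sum_weights hs ℓ hne, hℓ, ell_one]
  have hws2 : ∑ a ∈ s.erase (τ + τ⁻¹), w a = -bf (rm S) (iv v) (iv v) - wt S up um (iv v) := by
    rw [← Finset.add_sum_erase s _ hts, hwt] at hws
    linarith
  have hwabs : ∑ a ∈ s, |w a| ≤ L := by
    rw [← Finset.add_sum_erase s _ hts, hwt]
    have h1 : ∑ a ∈ s.erase (τ + τ⁻¹), |w a| = ∑ a ∈ s.erase (τ + τ⁻¹), w a := by
      refine Finset.sum_congr rfl fun a ha => ?_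
      exact abs_of_nonneg (hw0 a (Finset.mem_of_mem_erase ha) (Finset.ne_of_mem_erase ha))
    rw [h1, hws2]
    linarith
  set Q := QQ P m with hQ
  set F := hom h2 1 P.natDegree P with hF
  set G := hom h2 1 (P.natDegree - 1) Q with hG
  have hdeg : Q.degree < P.degree := QQ_degree P hPm m
  have hd2 : 1 < h2.natDegree := by rw [h2_deg]; norm_num
  have hk := kp_ne_of_monic h2 1 hd2
  have hFm : F.Monic := hom_monic h2 1 h2_monic hd2 P hPm
  have hFC : toC F = ∏ a ∈ s, qd (a : ℂ) := F_eq hPm hs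
  have hGC := G_eq hPm hs m ℓ hmℓ
  rw [← hG] at hGC
  have hmF : m1 F = |τ| := by
    unfold m1
    rw [hFC, Finset.prod_eq_multiset_prod, prod_mahlerMeasure_eq_mahlerMeasure_prod,
      Multiset.map_map, ← Finset.prod_eq_multiset_prod, Finset.prod_eq_single (τ + τ⁻¹)]
    · exact mahler_qd_top h.hτ
    · intro a ha hat
      exact mahler_qd_unit ((hsb a ha).resolve_left hat)
    · intro h0
      exact absurd hts h0
  -- the value of `Q` at `t0`
  have hQt : (toC Q).eval (((τ + τ⁻¹ : ℝ)) : ℂ) ≠ 0 := by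
    have h1 : (toC Q).eval (((τ + τ⁻¹ : ℝ)) : ℂ) =
        ((Q.map (Int.castRingHom ℝ)).eval (τ + τ⁻¹) : ℝ) := ev_real Q _
    rw [h1, hQ, QQ_eval P m ℓ hmℓ]
    have h3 : ℓ (DD (P.map (Int.castRingHom ℝ)) (τ + τ⁻¹)) ≠ 0 := by
      intro h0
      apply hwt0
      rw [hw]
      simp only
      rw [h0, zero_div]
    exact_mod_cast h3
  have hQ0 : Q ≠ 0 := by
    intro h0
    rw [h0] at hQt
    simp [toC] at hQt
  have hQn : Q.natDegree ≤ P.natDegree - 1 := by
    have := natDegree_lt_natDegree hQ0 hdeg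
    omega
  have hG0 : G ≠ 0 := hom_ne h2 1 _ hk Q hQn hQ0
  -- no common zeros outside the unit circle
  have hz : ∀ z : ℂ, 1 < ‖z‖ → (toC F).eval z = 0 → (toC G).eval z ≠ 0 := by
    intro z hz1 hFz
    have hz0 : z ≠ 0 := by
      rintro rfl
      rw [norm_zero] at hz1
      linarith
    rw [hFC, eval_prod, Finset.prod_eq_zero_iff] at hFz
    obtain ⟨a, ha, haz⟩ := hFz
    have hat : a = τ + τ⁻¹ := by
      rcases hsb a ha with h1 | h1
      · exact h1
      · exact absurd (root_qd h1 haz) hz1.ne'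
    have hfr : (z ^ 2 + 1) / z = ((τ + τ⁻¹ : ℝ) : ℂ) := by
      rw [← hat, div_eq_iff hz0]
      unfold qd at haz
      simp only [eval_sub, eval_X, eval_C, eval_add, eval_mul, eval_pow, eval_one] at haz
      linear_combination haz
    rw [hG, hom_eval h2 1 _ Q hQn z hz0, h2_eval, pow_one, hfr]
    exact mul_ne_zero (pow_ne_zero _ hz0) hQt
  -- reduce the pair
  have hnd : (toC P).roots.Nodup := roots_nodup hs
  have hres := residue_sum hs m ℓ hmℓ
  obtain ⟨A0, B0, d, e1, e2, e3, e4, e5, e6, e7, e8⟩ := reduce F G hFm.ne_zero hG0 _ _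
    (dom_sub (toC h2) 1 hk L _ _ (by
      simp only [norm_div]
      rw [Finset.sum_coe_sort (toC P).roots.toFinset
        (fun a => ‖(toC Q).eval a‖ / ‖(derivative (toC P)).eval a‖)]
      exact (le_of_eq hres).trans hwabs)) (hom_frac h2 1 hk P Q hnd hdeg)
  have hmd : m1 d = 1 := by
    refine m1_of_no_root d F hFm ⟨A0, e1⟩ fun z h9 h10 => hz z h9 ?_ ?_
    · rw [e1, toC_mul, eval_mul, h10, zero_mul]
    · rw [e2, toC_mul, eval_mul, h10, zero_mul]
  have hmA : m1 A0 = |τ| := by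
    rw [hmd, one_mul] at e7
    rw [← e7, hmF]
  -- the power series
  have hF0 : F.coeff 0 = 1 := by
    have h1 : (toC F).coeff 0 = 1 := by
      rw [hFC, coeff_zero_eq_eval_zero, eval_prod]
      refine Finset.prod_eq_one fun a _ => ?_
      unfold qd
      simp
    unfold toC at h1
    rw [coeff_map] at h1
    simpa using h1
  set Cs : PowerSeries ℤ := PowerSeries.invOfUnit (F : PowerSeries ℤ) 1 * (G : PowerSeries ℤ)
    with hCs
  have hinv : (F : PowerSeries ℤ) * PowerSeries.invOfUnit (F : PowerSeries ℤ) 1 = 1 := by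
    apply PowerSeries.mul_invOfUnit
    simp [hF0]
  have hFC' : (F : PowerSeries ℤ) * Cs = (G : PowerSeries ℤ) := by
    rw [hCs, ← mul_assoc, hinv, one_mul]
  have hmk : PowerSeries.mk (fun i => PowerSeries.coeff i Cs) = Cs := by
    ext i
    simp
  refine ⟨A0, B0, fun i => PowerSeries.coeff i Cs, e4, e5, e6, e8, hmA, ?_, ?_⟩
  · rw [hmk]
    have hd0 : (d : PowerSeries ℤ) ≠ 0 := by
      intro h0
      apply e3
      exact_mod_cast h0
    apply mul_left_cancel₀ hd0
    rw [← mul_assoc]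
    have h1 : (d : PowerSeries ℤ) * (A0 : PowerSeries ℤ) = (F : PowerSeries ℤ) := by
      rw [e1]
      simp
    have h3 : (d : PowerSeries ℤ) * (B0 : PowerSeries ℤ) = (G : PowerSeries ℤ) := by
      rw [e2]
      simp
    rw [h1, h3, hFC']
  · intro i
    -- the coefficients
    have hser : PowerSeries.map (Int.castRingHom ℂ) Cs = ∑ a ∈ s, PowerSeries.C (w a : ℂ) * ser a := by
      have hFne : (toC F : PowerSeries ℂ) ≠ 0 := by
        intro h0
        have h1 : toC F = 0 := by exact_mod_cast h0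
        exact (hFm.map (Int.castRingHom ℂ)).ne_zero h1
      apply mul_left_cancel₀ hFne
      have h1 : (toC F : PowerSeries ℂ) * PowerSeries.map (Int.castRingHom ℂ) Cs =
          (toC G : PowerSeries ℂ) := by
        have h3 := congrArg (PowerSeries.map (Int.castRingHom ℂ)) hFC'
        rw [map_mul] at h3
        unfold toC
        rw [← Polynomial.polynomial_map_coe, ← Polynomial.polynomial_map_coe] at h3
        exact h3
      rw [h1, hGC, hFC, Finset.mul_sum]
      have h3 : ∀ a ∈ s, ((∏ b ∈ s, qd (b : ℂ) : ℂ[X]) : PowerSeries ℂ) *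
          (PowerSeries.C (w a : ℂ) * ser a) =
          ((C (w a : ℂ) * ∏ b ∈ s.erase a, qd (b : ℂ) : ℂ[X]) : PowerSeries ℂ) := by
        intro a ha
        rw [← Finset.mul_prod_erase s _ ha, Polynomial.coe_mul, Polynomial.coe_mul,
          Polynomial.coe_C]
        calc (qd (a : ℂ) : PowerSeries ℂ) * ((∏ b ∈ s.erase a, qd (b : ℂ) : ℂ[X]) : PowerSeries ℂ) *
            (PowerSeries.C (w a : ℂ) * ser a)
            = PowerSeries.C (w a : ℂ) * ((∏ b ∈ s.erase a, qd (b : ℂ) : ℂ[X]) : PowerSeries ℂ) *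
              ((qd (a : ℂ) : PowerSeries ℂ) * ser a) := by ring
          _ = _ := by rw [qd_ser, mul_one]
      rw [Finset.sum_congr rfl h3]
      have h4 : ((∑ a ∈ s, C (w a : ℂ) * ∏ b ∈ s.erase a, qd (b : ℂ) : ℂ[X]) : PowerSeries ℂ) =
          ∑ a ∈ s, ((C (w a : ℂ) * ∏ b ∈ s.erase a, qd (b : ℂ) : ℂ[X]) : PowerSeries ℂ) :=
        map_sum (Polynomial.coeToPowerSeries.ringHom (R := ℂ)) _ _
      rw [← h4]
    have hci : ((PowerSeries.coeff i Cs : ℤ) : ℝ) = ∑ a ∈ s, w a * Ur a i := by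
      have h1 := congrArg (PowerSeries.coeff i) hser
      rw [PowerSeries.coeff_map, map_sum] at h1
      have h3 : ∀ a ∈ s, PowerSeries.coeff i (PowerSeries.C (w a : ℂ) * ser a) =
          ((w a * Ur a i : ℝ) : ℂ) := by
        intro a _
        rw [PowerSeries.coeff_C_mul, ser, PowerSeries.coeff_mk, Ur_cast]
        push_cast
        rfl
      rw [Finset.sum_congr rfl h3] at h1
      have h4 : (((PowerSeries.coeff i Cs : ℤ) : ℝ) : ℂ) = ((∑ a ∈ s, w a * Ur a i : ℝ) : ℂ) := by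
        rw [Complex.ofReal_sum, ← h1]
        simp
      exact_mod_cast h4
    simp only
    rw [hci, ← hwt, ← Finset.add_sum_erase s _ hts, add_sub_cancel_left]
    have hs2 : ∑ a ∈ s.erase (τ + τ⁻¹), w a ≤ L := by
      rw [hws2]
      have := abs_nonneg (wt S up um (iv v))
      linarith
    calc |∑ a ∈ s.erase (τ + τ⁻¹), w a * Ur a i|
        ≤ ∑ a ∈ s.erase (τ + τ⁻¹), |w a * Ur a i| := Finset.abs_sum_le_sum_abs _ _
      _ ≤ ∑ a ∈ s.erase (τ + τ⁻¹), w a * (i + 1) := by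
        refine Finset.sum_le_sum fun a ha => ?_
        have ha' := Finset.mem_of_mem_erase ha
        have ha'' := hw0 a ha' (Finset.ne_of_mem_erase ha)
        rw [abs_mul, abs_of_nonneg ha'']
        apply mul_le_mul_of_nonneg_left _ ha''
        exact Ur_real_bound ((hsb a ha').resolve_left (Finset.ne_of_mem_erase ha)) i
      _ = (i + 1) * ∑ a ∈ s.erase (τ + τ⁻¹), w a := by rw [← Finset.sum_mul, mul_comm]
      _ ≤ _ := by gcongr

end

end Pool.Agent.V5helper2.HR
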