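import Pool.Agent.V5helper2.HR.Lat

/-!
# The axis of a loxodromic product of reflections crosses a mirror
-/

set_option autoImplicit false

namespace Pool.Agent.V5helper2.HR

variable {n : ℕ} {M : Matrix (Fin n) (Fin n) ℝ}

/-- powers of a list -/
def pw {α : Type*} (L : List α) : ℕ → List α
  | 0 => []
  | j + 1 => L ++ pw L j

theorem mem_pw {α : Type*} {L : List α} {j : ℕ} {a : α} (h : a ∈ pw L j) : a ∈ L := by
  induction j with
  | zero => simp [pw] at h
  | succ j ih =>
    rcases List.mem_append.mp h with h | h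
    · exact h
    · exact ih h

theorem act_pw {V : Type*} [AddCommGroup V] [Module ℝ V] {B : LinearMap.BilinForm ℝ V}
    (L : List V) (j : ℕ) (x : V) : act B (pw L j) x = (act B L)^[j] x := by
  induction j with
  | zero => rfl
  | succ j ih =>
    rw [pw, act_append, ih, Function.iterate_succ_apply']

theorem iter_eig {V : Type*} [AddCommGroup V] [Module ℝ V] {B : LinearMap.BilinForm ℝ V}
    (L : List V) {u : V} {c : ℝ} (h : act B L u = c • u) (j : ℕ) :
    (act B L)^[j] u = c ^ j • u := by
  induction j with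
  | zero => simp
  | succ j ih => rw [Function.iterate_succ_apply', ih, act_smul, h, smul_smul, pow_succ]

theorem exists_crossing (h : Lor (bf M)) (k : ℝ) {L : List (Fin n → ℝ)}
    (hL : ∀ r ∈ L, r ∈ RR M k) {up um : Fin n → ℝ} {τ : ℝ} (hτ : 1 < |τ|)
    (hup : act (bf M) L up = τ • up) (hum : act (bf M) L um = τ⁻¹ • um)
    (hpp : bf M up up = 0) (hmm : bf M um um = 0) (hpm : 0 < bf M up um) :
    ∃ r ∈ RR M k, bf M r up * bf M r um < 0 := by
  by_contra hno
  push Not at hno
  have hB := h.1
  have h1 : ∀ r ∈ RR M k, bf M r r = -1 := fun r hr => RR_norm hr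
  have h2 := RR_refl hB (k := k)
  have hτ0 : τ ≠ 0 := by
    rintro rfl
    simp at hτ
    linarith
  set x := up + um with hx
  have hxx : bf M x x = 2 * bf M up um := by
    rw [hx]
    simp only [map_add, LinearMap.add_apply]
    rw [hpp, hmm, hB um up]
    ring
  have hx0 : 0 < bf M x x := by rw [hxx]; linarith
  obtain ⟨y, hy0, hy1, hy2⟩ := exists_generic h k hx0
  set g := act (bf M) L with hg
  have hBx : ∀ r, bf M r x = bf M r up + bf M r um := fun r => by rw [hx, map_add]
  -- roots orthogonal to the axis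
  set F0 : Set (Fin n → ℝ) := {r | r ∈ RR M k ∧ bf M r x = 0} with hF0
  have hF0fin : F0.Finite := by
    refine ((finite_lattice h hx0 k 0).image (fun r => nrm M (iv r))).subset ?_
    rintro _ ⟨⟨r, hr, rfl⟩, hrx⟩
    refine ⟨r, ⟨hr.1, ?_⟩, rfl⟩
    rw [root_sq hr.2.1, hrx]
    simp
  have hF0z : ∀ r ∈ F0, bf M r up = 0 ∧ bf M r um = 0 := by
    rintro r ⟨hr, hrx⟩
    have h3 := hno r hr
    rw [hBx] at hrx
    have h4 : bf M r um = -bf M r up := by linarith
    rw [h4] at h3
    have h5 : bf M r up = 0 := by nlinarith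
    exact ⟨h5, by rw [h4, h5, neg_zero]⟩
  have hgF : ∀ r ∈ F0, g r ∈ F0 := by
    rintro r hr
    obtain ⟨h3, h4⟩ := hF0z r hr
    refine ⟨act_mem h2 hL hr.1, ?_⟩
    have h5 : x = g (τ⁻¹ • up + τ • um) := by
      rw [hg, act_add, act_smul, act_smul, ← hg, hup, hum, smul_smul, smul_smul, inv_mul_cancel₀ hτ0,
        mul_inv_cancel₀ hτ0, one_smul, one_smul]
    rw [h5, hg, act_form hB h1 hL, map_add, map_smul, map_smul, h3, h4]
    simp
  have : Finite F0 := hF0fin
  set G : F0 → F0 := fun r => ⟨g r.1, hgF r.1 r.2⟩ with hG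
  have hGi : Function.Injective G := by
    intro a b hab
    apply Subtype.ext
    have h3 : g a.1 = g b.1 := congrArg Subtype.val hab
    have h4 := congrArg (act (bf M) L.reverse) h3
    rwa [hg, act_reverse h1 hL, act_reverse h1 hL] at h4
  set e : Equiv.Perm F0 := Equiv.ofBijective G (Finite.injective_iff_bijective.mp hGi) with he
  have hm := orderOf_pos e
  set m := orderOf e with hmd
  have hGm : ∀ (j : ℕ) (r : F0), ((e ^ j) r).1 = g^[j] r.1 := by
    intro j
    induction j with
    | zero => intro r; simp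
    | succ j ih =>
      intro r
      rw [pow_succ', Equiv.Perm.mul_apply, Function.iterate_succ_apply', ← ih]
      rfl
  have hfix : ∀ r ∈ F0, g^[2 * m] r = r := by
    intro r hr
    have h3 := hGm (2 * m) ⟨r, hr⟩
    rw [pow_mul', hmd, pow_orderOf_eq_one, one_pow] at h3
    exact h3.symm
  -- the power of the product
  have hLN : ∀ r ∈ pw L (2 * m), r ∈ RR M k := fun r hr => hL r (mem_pw hr)
  have hact : ∀ v, act (bf M) (pw L (2 * m)) v = g^[2 * m] v := fun v => act_pw L (2 * m) v
  have hτp : 0 < τ ^ (2 * m) := by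
    rw [pow_mul]
    have : 0 < τ ^ 2 := by positivity
    positivity
  have hτp' : 0 < (τ⁻¹) ^ (2 * m) := by
    rw [inv_pow]
    exact inv_pos.mpr hτp
  have hfree := free hB h1 h2 hy1 (fun r hr => sep_finite h k hy0
    (by rw [s_form hB (h1 r hr)]; exact hy0) (image_pos hy0)) (h.hcs h1 hy0) hLN (by
    intro r hr hry
    set r' := act (bf M) (pw L (2 * m)).reverse r with hr'
    have hr'r : act (bf M) (pw L (2 * m)) r' = r := act_reverse' h1 hLN r
    have hr'R : r' ∈ RR M k := act_mem h2 (fun q hq => hLN q (List.mem_reverse.mp hq)) hr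
    have h3 : ∀ v, bf M r (act (bf M) (pw L (2 * m)) v) = bf M r' v := by
      intro v
      conv_lhs => rw [← hr'r]
      exact act_form hB h1 hLN r' v
    rw [h3]
    by_cases hrx : bf M r x = 0
    · have h4 : act (bf M) (pw L (2 * m)) r = r := by
        rw [hact]
        exact hfix r ⟨hr, hrx⟩
      have h5 : r' = r := by
        rw [hr']
        conv_lhs => rw [← h4]
        exact act_reverse h1 hLN r
      rw [h5]
      exact hry
    · have h4 : 0 < bf M r x := by
        rcases lt_or_gt_of_ne hrx with h5 | h5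
        · exfalso
          have h6 := hy2 (-r) (neg_mem h1 h2 hr) (by rw [map_neg, LinearMap.neg_apply]; linarith)
          rw [map_neg, LinearMap.neg_apply] at h6
          linarith
        · exact h5
      apply hy2 r' hr'R
      rw [← h3, hact, hx, ← hact, act_add, hact, hact, iter_eig L hup, iter_eig L hum, map_add,
        map_smul, map_smul, smul_eq_mul, smul_eq_mul]
      have h5 := hno r hr
      rw [hBx] at h4
      have h6 : 0 ≤ bf M r up := by
        by_contra hc
        push Not at hc
        nlinarith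
      have h7 : 0 ≤ bf M r um := by
        by_contra hc
        push Not at hc
        nlinarith
      rcases h6.eq_or_lt with h8 | h8
      · rw [← h8, mul_zero, zero_add]
        rw [← h8, zero_add] at h4
        positivity
      · have : 0 < τ ^ (2 * m) * bf M r up := by positivity
        have : 0 ≤ (τ⁻¹) ^ (2 * m) * bf M r um := by positivity
        linarith)
  have h3 := hfree up
  rw [hact, iter_eig L hup] at h3
  have hup0 : up ≠ 0 := by
    rintro rfl
    simp at hpm
  have h4 : (τ ^ (2 * m) - 1) • up = 0 := by rw [sub_smul, one_smul, h3, sub_self]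
  have h5 : τ ^ (2 * m) = 1 := by
    have := (smul_eq_zero.mp h4).resolve_right hup0
    linarith
  have h6 : 1 < |τ| ^ (2 * m) := one_lt_pow₀ hτ (by omega)
  rw [← abs_pow, h5, abs_one] at h6
  exact lt_irrefl _ h6

end Pool.Agent.V5helper2.HR
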