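import Pool.Agent.V5helper2.HR.Cross

/-!
# Eigenvalues of isometries of Lorentzian forms
-/

set_option autoImplicit false

namespace Pool.Agent.V5helper2.HR

open Matrix

variable {n : ℕ} {M : Matrix (Fin n) (Fin n) ℝ}

/-- real and imaginary parts of an eigenvector -/
theorem complex_eig (A : Matrix (Fin n) (Fin n) ℝ) (z : ℂ)
    (hz : (A.map (algebraMap ℝ ℂ)).charpoly.eval z = 0) :
    ∃ a b : Fin n → ℝ, (a ≠ 0 ∨ b ≠ 0) ∧ A.mulVec a = z.re • a - z.im • b ∧
      A.mulVec b = z.im • a + z.re • b := by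
  rw [Matrix.eval_charpoly] at hz
  obtain ⟨w, hw, hw0⟩ := Matrix.exists_mulVec_eq_zero_iff.mpr hz
  rw [Matrix.sub_mulVec, sub_eq_zero] at hw0
  have h1 : ∀ i, z * w i = ∑ j, (A i j : ℂ) * w j := by
    intro i
    have := congrFun hw0 i
    rw [Matrix.scalar_apply, Matrix.mulVec_diagonal] at this
    rw [this]
    simp [Matrix.mulVec, dotProduct]
  refine ⟨fun i => (w i).re, fun i => (w i).im, ?_, ?_, ?_⟩
  · by_contra hc
    push Not at hc
    apply hw
    funext i
    apply Complex.ext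
    · exact congrFun hc.1 i
    · exact congrFun hc.2 i
  · funext i
    have := congrArg Complex.re (h1 i)
    rw [Complex.re_sum] at this
    simp only [Complex.mul_re, Complex.ofReal_re, Complex.ofReal_im, zero_mul, sub_zero] at this
    simp only [Matrix.mulVec, dotProduct, Pi.sub_apply, Pi.smul_apply, smul_eq_mul]
    exact this.symm
  · funext i
    have := congrArg Complex.im (h1 i)
    rw [Complex.im_sum] at this
    simp only [Complex.mul_im, Complex.ofReal_re, Complex.ofReal_im, zero_mul, add_zero] at this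
    simp only [Matrix.mulVec, dotProduct, Pi.add_apply, Pi.smul_apply, smul_eq_mul]
    rw [← this]
    ring

/-- an eigenvalue outside the unit circle is real and has an isotropic eigenvector -/
theorem eig_out (h : Lor (bf M)) (A : Matrix (Fin n) (Fin n) ℝ)
    (hA : ∀ x y, bf M (A.mulVec x) (A.mulVec y) = bf M x y) (z : ℂ)
    (hz : (A.map (algebraMap ℝ ℂ)).charpoly.eval z = 0) (hz1 : 1 < ‖z‖) :
    ∃ τ : ℝ, z = τ ∧ ∃ u : Fin n → ℝ, u ≠ 0 ∧ A.mulVec u = τ • u ∧ bf M u u = 0 := by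
  obtain ⟨a, b, hab, ha, hb⟩ := complex_eig A z hz
  have hB := h.1
  set p := z.re with hp
  set q := z.im with hq
  have hpq : 1 < p ^ 2 + q ^ 2 := by
    have h1 : ‖z‖ ^ 2 = p ^ 2 + q ^ 2 := by
      rw [← Complex.normSq_eq_norm_sq, Complex.normSq_apply]
      ring
    nlinarith [norm_nonneg z]
  have e1 := hA a a
  have e2 := hA b b
  have e3 := hA a b
  rw [ha] at e1
  rw [hb] at e2
  rw [ha, hb] at e3
  simp only [map_add, map_sub, map_smul, LinearMap.add_apply, LinearMap.sub_apply,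
    LinearMap.smul_apply, smul_eq_mul] at e1 e2 e3
  rw [hB b a] at e1 e2 e3
  set X := bf M a a with hX
  set Y := bf M b b with hY
  set Z := bf M a b with hZ
  have s1 : (p ^ 2 + q ^ 2 - 1) * (X + Y) = 0 := by linear_combination e1 + e2
  have s2 : X + Y = 0 := (mul_eq_zero.mp s1).resolve_left (by linarith)
  have s3 : (p ^ 2 - q ^ 2) * (X - Y) - 4 * p * q * Z = X - Y := by linear_combination e1 - e2
  have s4 : 2 * p * q * (X - Y) + (p ^ 2 - q ^ 2) * (2 * Z) = 2 * Z := by
    linear_combination 2 * e3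
  have s5 : ((p ^ 2 + q ^ 2) ^ 2 - 1) * ((X - Y) ^ 2 + (2 * Z) ^ 2) = 0 := by
    have h1 : (p ^ 2 + q ^ 2) ^ 2 * ((X - Y) ^ 2 + (2 * Z) ^ 2) =
        ((p ^ 2 - q ^ 2) * (X - Y) - 4 * p * q * Z) ^ 2 +
          (2 * p * q * (X - Y) + (p ^ 2 - q ^ 2) * (2 * Z)) ^ 2 := by ring
    rw [sub_mul, h1, s3, s4]
    ring
  have s6 : (X - Y) ^ 2 + (2 * Z) ^ 2 = 0 := by
    refine (mul_eq_zero.mp s5).resolve_left ?_
    nlinarith
  have s7 : X - Y = 0 := by nlinarith [sq_nonneg (X - Y), sq_nonneg (2 * Z)]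
  have s8 : Z = 0 := by nlinarith [sq_nonneg (X - Y), sq_nonneg (2 * Z)]
  have hX0 : X = 0 := by linarith
  have hY0 : Y = 0 := by linarith
  by_cases hb0 : b = 0
  · have ha0 : a ≠ 0 := hab.resolve_right (not_not.mpr hb0)
    rw [hb0, smul_zero, sub_zero] at ha
    rw [hb0, Matrix.mulVec_zero, smul_zero, add_zero] at hb
    have hq0 : q = 0 := (smul_eq_zero.mp hb.symm).resolve_right ha0
    refine ⟨p, ?_, a, ha0, ha, hX0⟩
    apply Complex.ext
    · simp [hp]
    · simp [← hq, hq0]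
  · obtain ⟨c, hc⟩ := h.parallel (x := a) (z := b) hX0 hY0 s8 hb0
    have h1 : A.mulVec a = (c * (q * c + p)) • b := by
      rw [hc, Matrix.mulVec_smul, hb, hc]
      module
    have h2 : (c * (q * c + p)) • b = (p * c - q) • b := by
      rw [← h1, ha, hc]
      module
    have h3 : c * (q * c + p) = p * c - q := smul_left_injective ℝ hb0 h2
    have hq0 : q = 0 := by
      have h4 : q * (1 + c ^ 2) = 0 := by linear_combination h3
      exact (mul_eq_zero.mp h4).resolve_right (by positivity)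
    refine ⟨p, ?_, b, hb0, ?_, hY0⟩
    · apply Complex.ext
      · simp [hp]
      · simp [← hq, hq0]
    · rw [hb, hq0, zero_smul, zero_add]

/-- the two eigenvectors -/
theorem exists_axis (h : Lor (bf M)) (A : Matrix (Fin n) (Fin n) ℝ)
    (hA : ∀ x y, bf M (A.mulVec x) (A.mulVec y) = bf M x y) (z : ℂ)
    (hz : (A.map (algebraMap ℝ ℂ)).charpoly.eval z = 0) (hz1 : 1 < ‖z‖) :
    ∃ (τ : ℝ) (up um : Fin n → ℝ), z = τ ∧ 1 < |τ| ∧ A.mulVec up = τ • up ∧
      A.mulVec um = τ⁻¹ • um ∧ bf M up up = 0 ∧ bf M um um = 0 ∧ 0 < bf M up um := by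
  obtain ⟨τ, hτ, up, hup0, hup, hupp⟩ := eig_out h A hA z hz hz1
  have hB := h.1
  have hτ1 : 1 < |τ| := by
    rw [hτ, Complex.norm_real, Real.norm_eq_abs] at hz1
    exact hz1
  have hτ0 : τ ≠ 0 := by
    rintro rfl
    simp at hτ1
    linarith
  have hτ2 : τ ^ 2 ≠ 1 := by
    intro h0
    have h1 : |τ| ^ 2 = 1 := by rw [sq_abs, h0]
    nlinarith
  -- surjectivity
  have hinj : Function.Injective (Matrix.toLin' A) := by
    rw [← LinearMap.ker_eq_bot, LinearMap.ker_eq_bot']
    intro x hx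
    rw [Matrix.toLin'_apply] at hx
    apply h.nondeg
    intro y
    rw [← hA, hx]
    simp
  have hsurj : Function.Surjective (Matrix.toLin' A) := LinearMap.injective_iff_surjective.mp hinj
  have hMinj : Function.Injective (Matrix.toLin' M) := by
    rw [← LinearMap.ker_eq_bot, LinearMap.ker_eq_bot']
    intro x hx
    rw [Matrix.toLin'_apply] at hx
    apply h.nondeg
    intro y
    rw [hB, bf_apply, hx]
    simp
  have hMsurj : Function.Surjective (Matrix.toLin' M) := LinearMap.injective_iff_surjective.mp hMinj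
  -- eigenvector of the transpose
  have hdet : (A - Matrix.scalar (Fin n) τ).det = 0 := by
    apply Matrix.exists_mulVec_eq_zero_iff.mp
    refine ⟨up, hup0, ?_⟩
    rw [Matrix.sub_mulVec, hup, Matrix.scalar_apply, sub_eq_zero]
    funext i
    rw [Matrix.mulVec_diagonal]
    simp
  have hdet' : (A.transpose - Matrix.scalar (Fin n) τ).det = 0 := by
    rw [← Matrix.det_transpose, Matrix.transpose_sub, Matrix.transpose_transpose,
      Matrix.scalar_apply, Matrix.diagonal_transpose, ← Matrix.scalar_apply]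
    exact hdet
  obtain ⟨v, hv0, hv⟩ := Matrix.exists_mulVec_eq_zero_iff.mpr hdet'
  obtain ⟨um, hum⟩ := hMsurj v
  rw [Matrix.toLin'_apply] at hum
  have hum0 : um ≠ 0 := by
    rintro rfl
    rw [Matrix.mulVec_zero] at hum
    exact hv0 hum.symm
  have hv1 : A.transpose.mulVec v = τ • v := by
    rw [Matrix.sub_mulVec, sub_eq_zero] at hv
    rw [hv, Matrix.scalar_apply]
    funext i
    rw [Matrix.mulVec_diagonal]
    simp
  have e1 : ∀ x, bf M (A.mulVec x) um = τ * bf M x um := by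
    intro x
    rw [bf_apply, bf_apply, hum]
    have h1 : (A.mulVec x) ⬝ᵥ v = x ⬝ᵥ A.transpose.mulVec v := by
      rw [Matrix.mulVec_transpose, dotProduct_comm x, ← Matrix.dotProduct_mulVec, dotProduct_comm]
    rw [h1, hv1, dotProduct_smul, smul_eq_mul]
  have e2 : A.mulVec um = τ⁻¹ • um := by
    have h1 : A.mulVec um - τ⁻¹ • um = 0 := by
      apply h.nondeg
      intro y
      obtain ⟨x, hx⟩ := hsurj y
      rw [Matrix.toLin'_apply] at hx
      rw [hB, ← hx, map_sub, map_smul, hA, e1, smul_eq_mul, inv_mul_cancel_left₀ hτ0, sub_self]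
    exact sub_eq_zero.mp h1
  have e3 : bf M um um = 0 := by
    have h1 := hA um um
    rw [e2] at h1
    simp only [map_smul, LinearMap.smul_apply, smul_eq_mul] at h1
    have h2 : (1 - τ ^ 2) * bf M um um = 0 := by
      have h3 : bf M um um = τ ^ 2 * (τ⁻¹ * (τ⁻¹ * bf M um um)) := by field_simp
      rw [h1] at h3
      linarith
    exact (mul_eq_zero.mp h2).resolve_left (by
      intro h0
      apply hτ2
      linarith)
  have e4 : bf M up um ≠ 0 := by
    intro h0
    obtain ⟨c, hc⟩ := h.parallel hupp e3 h0 hum0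
    have h1 : A.mulVec up = τ⁻¹ • up := by
      rw [hc, Matrix.mulVec_smul, e2]
      module
    rw [hup] at h1
    have h2 : τ = τ⁻¹ := smul_left_injective ℝ hup0 h1
    apply hτ2
    have h3 : τ * τ = τ * τ⁻¹ := congrArg (τ * ·) h2
    rw [pow_two, h3, mul_inv_cancel₀ hτ0]
  rcases lt_or_gt_of_ne e4 with h1 | h1
  · refine ⟨τ, up, -um, hτ, hτ1, hup, ?_, hupp, ?_, ?_⟩
    · rw [Matrix.mulVec_neg, e2, smul_neg]
    · simp [e3]
    · rw [map_neg]
      linarith
  · exact ⟨τ, up, um, hτ, hτ1, hup, e2, hupp, e3, h1⟩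

/-- there is only one eigenvalue outside the unit circle -/
theorem eig_unique (h : Lor (bf M)) (A : Matrix (Fin n) (Fin n) ℝ)
    (hA : ∀ x y, bf M (A.mulVec x) (A.mulVec y) = bf M x y) {τ τ' : ℝ} (hτ : 1 < |τ|)
    (hτ' : 1 < |τ'|) {u u' : Fin n → ℝ} (hu : A.mulVec u = τ • u) (hu' : A.mulVec u' = τ' • u')
    (hu0 : u ≠ 0) (hu0' : u' ≠ 0) (huu : bf M u u = 0) (huu' : bf M u' u' = 0) : τ = τ' := by
  have h1 := hA u u'
  rw [hu, hu'] at h1
  simp only [map_smul, LinearMap.smul_apply, smul_eq_mul] at h1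
  have h2 : (τ * τ' - 1) * bf M u u' = 0 := by linear_combination h1
  have h3 : τ * τ' ≠ 1 := by
    intro h0
    have h4 : |τ| * |τ'| = 1 := by rw [← abs_mul, h0, abs_one]
    nlinarith
  have h4 : bf M u u' = 0 := (mul_eq_zero.mp h2).resolve_left (sub_ne_zero.mpr h3)
  obtain ⟨c, hc⟩ := h.parallel huu huu' h4 hu0'
  have hc0 : c ≠ 0 := by
    rintro rfl
    rw [zero_smul] at hc
    exact hu0 hc
  have h5 : τ • u = τ' • u := by
    rw [← hu, hc, Matrix.mulVec_smul, hu']
    module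
  exact smul_left_injective ℝ hu0 h5

end Pool.Agent.V5helper2.HR
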