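import Mathlib

/-!
# Partial fractions with moments
-/

set_option autoImplicit false

namespace Pool.Agent.V5helper2.HR

open Polynomial Finset

noncomputable section

/-- the numerator with given moments -/
def QQ (P : ℤ[X]) (m : ℕ → ℤ) : ℤ[X] :=
  ∑ i ∈ range (P.natDegree + 1), C (P.coeff i) * ∑ l ∈ range i, X ^ (i - 1 - l) * C (m l)

/-- the quotient of `p - p(a)` by `X - a` -/
def DD (p : ℝ[X]) (a : ℝ) : ℝ[X] :=
  ∑ i ∈ range (p.natDegree + 1), C (p.coeff i) * ∑ l ∈ range i, X ^ l * C a ^ (i - 1 - l)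

theorem DD_mul (p : ℝ[X]) (a : ℝ) (ha : p.eval a = 0) : DD p a * (X - C a) = p := by
  unfold DD
  rw [Finset.sum_mul]
  have h1 : ∀ i ∈ range (p.natDegree + 1), C (p.coeff i) *
      (∑ l ∈ range i, X ^ l * C a ^ (i - 1 - l)) * (X - C a) =
      C (p.coeff i) * X ^ i - C (p.coeff i) * C a ^ i := by
    intro i _
    rw [mul_assoc, (Commute.all (X : ℝ[X]) (C a)).geom_sum₂_mul i, mul_sub]
  rw [Finset.sum_congr rfl h1, Finset.sum_sub_distrib, ← as_sum_range_C_mul_X_pow p]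
  have h2 : ∑ i ∈ range (p.natDegree + 1), C (p.coeff i) * C a ^ i = C (p.eval a) := by
    rw [eval_eq_sum_range, map_sum]
    refine Finset.sum_congr rfl fun i _ => ?_
    rw [map_mul, map_pow]
  rw [h2, ha, map_zero, sub_zero]

theorem QQ_degree (P : ℤ[X]) (hP : P.Monic) (m : ℕ → ℤ) : (QQ P m).degree < P.degree := by
  rw [degree_eq_natDegree hP.ne_zero]
  refine lt_of_le_of_lt (degree_sum_le _ _) ?_
  rw [Finset.sup_lt_iff (WithBot.bot_lt_coe _)]
  intro i hi
  rw [← smul_eq_C_mul]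
  refine lt_of_le_of_lt (degree_smul_le _ _) ?_
  refine lt_of_le_of_lt (degree_sum_le _ _) ?_
  rw [Finset.sup_lt_iff (WithBot.bot_lt_coe _)]
  intro l hl
  rw [mul_comm, ← smul_eq_C_mul]
  refine lt_of_le_of_lt (degree_smul_le _ _) ?_
  refine lt_of_le_of_lt (degree_X_pow_le _) ?_
  rw [mem_range] at hi hl
  exact_mod_cast (by omega : i - 1 - l < P.natDegree)

theorem QQ_eval (P : ℤ[X]) (m : ℕ → ℤ) (ℓ : ℝ[X] →ₗ[ℝ] ℝ) (hm : ∀ l, ℓ (X ^ l) = m l) (a : ℝ) :
    ((QQ P m).map (Int.castRingHom ℝ)).eval a = ℓ (DD (P.map (Int.castRingHom ℝ)) a) := by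
  unfold QQ DD
  rw [natDegree_map_eq_of_injective (RingHom.injective_int _)]
  rw [Polynomial.map_sum, eval_finsetSum, map_sum]
  refine Finset.sum_congr rfl fun i _ => ?_
  rw [Polynomial.map_mul, map_C, eval_mul, eval_C, Polynomial.map_sum, eval_finsetSum,
    ← smul_eq_C_mul, map_smul, smul_eq_mul, coeff_map, map_sum]
  congr 1
  refine Finset.sum_congr rfl fun l _ => ?_
  rw [Polynomial.map_mul, Polynomial.map_pow, map_X, map_C, eval_mul, eval_pow, eval_X, eval_C,
    mul_comm (X ^ l), ← C_pow, ← smul_eq_C_mul, map_smul, smul_eq_mul, hm]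
  rfl

theorem deriv_eval (p : ℝ[X]) (a : ℝ) (ha : p.eval a = 0) :
    (derivative p).eval a = (DD p a).eval a := by
  have h := congrArg (fun q => (derivative q).eval a) (DD_mul p a ha)
  simp only [derivative_mul, derivative_sub, derivative_X, derivative_C, eval_add, eval_mul,
    eval_sub, eval_X, eval_C, sub_self, mul_zero, sub_zero, mul_one, zero_add] at h
  exact h.symm

variable {P : ℤ[X]} {s : Finset ℝ}

theorem eval_zero_of_mem (hs : P.map (Int.castRingHom ℝ) = ∏ a ∈ s, (X - C a)) {a : ℝ}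
    (ha : a ∈ s) : (P.map (Int.castRingHom ℝ)).eval a = 0 := by
  rw [hs, eval_prod]
  exact Finset.prod_eq_zero ha (by simp)

theorem DD_eval_ne (hs : P.map (Int.castRingHom ℝ) = ∏ a ∈ s, (X - C a)) {a : ℝ}
    (ha : a ∈ s) : (DD (P.map (Int.castRingHom ℝ)) a).eval a ≠ 0 := by
  have h1 := DD_mul _ a (eval_zero_of_mem hs ha)
  have h2 : DD (P.map (Int.castRingHom ℝ)) a = ∏ b ∈ s.erase a, (X - C b) := by
    have h3 : (∏ b ∈ s.erase a, (X - C b)) * (X - C a) = P.map (Int.castRingHom ℝ) := by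
      rw [hs, Finset.prod_erase_mul _ _ ha]
    exact mul_right_cancel₀ (X_sub_C_ne_zero a) (h1.trans h3.symm)
  rw [h2, eval_prod, Finset.prod_ne_zero_iff]
  intro b hb
  rw [eval_sub, eval_X, eval_C, sub_ne_zero]
  exact (Finset.ne_of_mem_erase hb).symm

theorem DD_eval_other (hs : P.map (Int.castRingHom ℝ) = ∏ a ∈ s, (X - C a)) {a b : ℝ}
    (ha : a ∈ s) (hb : b ∈ s) (hab : a ≠ b) :
    (DD (P.map (Int.castRingHom ℝ)) a).eval b = 0 := by
  have h1 := congrArg (eval b) (DD_mul _ a (eval_zero_of_mem hs ha))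
  rw [eval_mul, eval_zero_of_mem hs hb, eval_sub, eval_X, eval_C] at h1
  exact (mul_eq_zero.mp h1).resolve_right (sub_ne_zero.mpr hab.symm)

theorem DD_degree (hs : P.map (Int.castRingHom ℝ) = ∏ a ∈ s, (X - C a)) {a : ℝ} (ha : a ∈ s) :
    (DD (P.map (Int.castRingHom ℝ)) a).degree < s.card := by
  have h1 := DD_mul _ a (eval_zero_of_mem hs ha)
  have h2 : DD (P.map (Int.castRingHom ℝ)) a = ∏ b ∈ s.erase a, (X - C b) := by
    have h3 : (∏ b ∈ s.erase a, (X - C b)) * (X - C a) = P.map (Int.castRingHom ℝ) := by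
      rw [hs, Finset.prod_erase_mul _ _ ha]
    exact mul_right_cancel₀ (X_sub_C_ne_zero a) (h1.trans h3.symm)
  rw [h2, degree_prod]
  simp only [degree_X_sub_C, Finset.sum_const, Finset.card_erase_of_mem ha]
  have h3 : 0 < s.card := Finset.card_pos.mpr ⟨a, ha⟩
  rw [nsmul_eq_mul, mul_one]
  exact_mod_cast (by omega : s.card - 1 < s.card)

/-- the weights have the sum `ℓ 1` -/
theorem sum_weights (hs : P.map (Int.castRingHom ℝ) = ∏ a ∈ s, (X - C a))
    (ℓ : ℝ[X] →ₗ[ℝ] ℝ) (hne : s.Nonempty) :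
    ∑ a ∈ s, ℓ (DD (P.map (Int.castRingHom ℝ)) a) / (DD (P.map (Int.castRingHom ℝ)) a).eval a =
      ℓ 1 := by
  have h1 : ∑ a ∈ s, C (((DD (P.map (Int.castRingHom ℝ)) a).eval a)⁻¹) *
      DD (P.map (Int.castRingHom ℝ)) a = 1 := by
    refine eq_of_degree_sub_lt_of_eval_finset_eq s ?_ ?_
    · refine lt_of_le_of_lt (degree_sub_le _ _) (max_lt ?_ ?_)
      · refine lt_of_le_of_lt (degree_sum_le _ _) ?_
        rw [Finset.sup_lt_iff (WithBot.bot_lt_coe _)]
        intro a ha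
        rw [← smul_eq_C_mul]
        exact lt_of_le_of_lt (degree_smul_le _ _) (DD_degree hs ha)
      · rw [degree_one]
        exact_mod_cast Finset.card_pos.mpr hne
    · intro b hb
      rw [eval_finsetSum, eval_one, Finset.sum_eq_single b]
      · rw [eval_mul, eval_C, inv_mul_cancel₀ (DD_eval_ne hs hb)]
      · intro a ha hab
        rw [eval_mul, DD_eval_other hs ha hb hab, mul_zero]
      · intro h
        exact absurd hb h
  rw [← h1, map_sum]
  refine Finset.sum_congr rfl fun a _ => ?_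
  rw [← smul_eq_C_mul, map_smul, smul_eq_mul, div_eq_inv_mul]

theorem map_C_prod (hs : P.map (Int.castRingHom ℝ) = ∏ a ∈ s, (X - C a)) :
    P.map (Int.castRingHom ℂ) = ∏ a ∈ s, (X - C (a : ℂ)) := by
  have h1 : P.map (Int.castRingHom ℂ) = (P.map (Int.castRingHom ℝ)).map Complex.ofRealHom := by
    rw [Polynomial.map_map]
    congr 1
  rw [h1, hs, Polynomial.map_prod]
  simp

theorem roots_C (hs : P.map (Int.castRingHom ℝ) = ∏ a ∈ s, (X - C a)) :
    (P.map (Int.castRingHom ℂ)).roots = s.val.map (fun a : ℝ => (a : ℂ)) := by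
  rw [map_C_prod hs]
  have h1 : ∏ a ∈ s, (X - C (a : ℂ)) = ((s.val.map (fun a : ℝ => (a : ℂ))).map
      (fun z => X - C z)).prod := by
    rw [Multiset.map_map]
    rfl
  rw [h1, roots_multiset_prod_X_sub_C]

theorem roots_nodup (hs : P.map (Int.castRingHom ℝ) = ∏ a ∈ s, (X - C a)) :
    (P.map (Int.castRingHom ℂ)).roots.Nodup := by
  rw [roots_C hs]
  exact Multiset.Nodup.map Complex.ofReal_injective s.nodup

theorem ev_real (Q : ℤ[X]) (a : ℝ) : (Q.map (Int.castRingHom ℂ)).eval (a : ℂ) =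
    ((Q.map (Int.castRingHom ℝ)).eval a : ℝ) := by
  have h1 : Q.map (Int.castRingHom ℂ) = (Q.map (Int.castRingHom ℝ)).map Complex.ofRealHom := by
    rw [Polynomial.map_map]
    congr 1
  rw [h1, eval_map]
  exact Polynomial.eval₂_at_apply Complex.ofRealHom a

theorem residue_sum (hs : P.map (Int.castRingHom ℝ) = ∏ a ∈ s, (X - C a))
    (m : ℕ → ℤ) (ℓ : ℝ[X] →ₗ[ℝ] ℝ) (hm : ∀ l, ℓ (X ^ l) = m l) :
    ∑ a ∈ (P.map (Int.castRingHom ℂ)).roots.toFinset,
      ‖((QQ P m).map (Int.castRingHom ℂ)).eval a‖ /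
        ‖(derivative (P.map (Int.castRingHom ℂ))).eval a‖ =
      ∑ a ∈ s, |ℓ (DD (P.map (Int.castRingHom ℝ)) a) /
        (DD (P.map (Int.castRingHom ℝ)) a).eval a| := by
  classical
  have h0 : (P.map (Int.castRingHom ℂ)).roots.toFinset = s.image (fun a : ℝ => (a : ℂ)) := by
    ext z
    rw [Multiset.mem_toFinset, roots_C hs, Multiset.mem_map, Finset.mem_image]
    rfl
  rw [h0, Finset.sum_image (fun a _ b _ h => Complex.ofReal_injective h)]
  refine Finset.sum_congr rfl fun a ha => ?_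
  have h1 : (derivative (P.map (Int.castRingHom ℂ))).eval (a : ℂ) =
      ((DD (P.map (Int.castRingHom ℝ)) a).eval a : ℝ) := by
    rw [derivative_map, ev_real, ← derivative_map, deriv_eval _ _ (eval_zero_of_mem hs ha)]
  rw [h1, ev_real, QQ_eval P m ℓ hm, Complex.norm_real, Complex.norm_real, Real.norm_eq_abs,
    Real.norm_eq_abs, ← abs_div]

end

end Pool.Agent.V5helper2.HR
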