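import Mathlib

/-!
# Groups generated by reflections act freely on the chambers

`R` is a set of vectors of norm `-1` of a real vector space with a symmetric bilinear form, closed under
the reflections `x ↦ x + 2 B(x, r) r`, and `y` is a vector not orthogonal to any element of `R`. Under
a local finiteness condition and a strict Cauchy-Schwarz inequality at the points between `y` and
its images under reflections, a product of reflections which does not separate `y` from its image
is the identity.
-/

set_option autoImplicit false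

namespace Pool.Agent.V5helper2.HR

section

variable {V : Type*} [AddCommGroup V] [Module ℝ V] (B : LinearMap.BilinForm ℝ V)

/-- the reflection in a vector of norm `-1` -/
def s (r x : V) : V := x + (2 * B x r) • r

/-- product of reflections -/
def act (L : List V) (x : V) : V := L.foldr (s B) x

@[simp] theorem act_nil (x : V) : act B [] x = x := rfl
@[simp] theorem act_cons (r : V) (L : List V) (x : V) : act B (r :: L) x = s B r (act B L x) := rfl

theorem act_append (L M : List V) (x : V) : act B (L ++ M) x = act B L (act B M x) := by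
  unfold act
  rw [List.foldr_append]

theorem s_add (r x z : V) : s B r (x + z) = s B r x + s B r z := by
  unfold s
  rw [map_add, LinearMap.add_apply, mul_add, add_smul]
  abel

theorem s_smul (r : V) (c : ℝ) (x : V) : s B r (c • x) = c • s B r x := by
  unfold s
  rw [map_smul, LinearMap.smul_apply, smul_eq_mul, smul_add, smul_smul]
  congr 2
  ring

theorem s_neg (r x : V) : s B r (-x) = -s B r x := by
  have := s_smul B r (-1) x
  simpa using this

theorem s_neg_root (r x : V) : s B (-r) x = s B r x := by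
  unfold s
  rw [map_neg, mul_neg, neg_smul, smul_neg, neg_neg]

variable {B}

theorem s_self {r : V} (hr : B r r = -1) : s B r r = -r := by
  unfold s
  rw [hr]
  module

theorem s_form (hB : ∀ x z, B x z = B z x) {r : V} (hr : B r r = -1) (x z : V) :
    B (s B r x) (s B r z) = B x z := by
  unfold s
  simp only [map_add, map_smul, LinearMap.add_apply, LinearMap.smul_apply, smul_eq_mul, hr]
  rw [hB r z]
  ring

theorem s_s {r : V} (hr : B r r = -1) (x : V) : s B r (s B r x) = x := by
  unfold s
  simp only [map_add, map_smul, LinearMap.add_apply, LinearMap.smul_apply, smul_eq_mul, hr]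
  module

theorem s_adj (hB : ∀ x z, B x z = B z x) {r : V} (hr : B r r = -1) (x z : V) :
    B (s B r x) z = B x (s B r z) := by
  have := s_form hB hr x (s B r z)
  rwa [s_s hr] at this

theorem s_conj (hB : ∀ x z, B x z = B z x) {r : V} (hr : B r r = -1) (q x : V) :
    s B r (s B q x) = s B (s B r q) (s B r x) := by
  have e1 : s B r (s B q x) = s B r x + (2 * B x q) • s B r q := by
    conv_lhs => rw [show s B q x = x + (2 * B x q) • q from rfl]
    rw [s_add, s_smul]
  have e2 : s B (s B r q) (s B r x) = s B r x + (2 * B (s B r x) (s B r q)) • s B r q := rfl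
  rw [e1, e2, s_form hB hr]

variable {R : Set V}

theorem act_add (L : List V) (x z : V) : act B L (x + z) = act B L x + act B L z := by
  induction L with
  | nil => rfl
  | cons r L ih => rw [act_cons, act_cons, act_cons, ih, s_add]

theorem act_smul (L : List V) (c : ℝ) (x : V) : act B L (c • x) = c • act B L x := by
  induction L with
  | nil => rfl
  | cons r L ih => rw [act_cons, act_cons, ih, s_smul]

theorem act_neg (L : List V) (x : V) : act B L (-x) = -act B L x := by
  have := act_smul (B := B) L (-1) x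
  simpa using this

theorem act_form (hB : ∀ x z, B x z = B z x) (h1 : ∀ r ∈ R, B r r = -1) {L : List V}
    (hL : ∀ r ∈ L, r ∈ R) (x z : V) : B (act B L x) (act B L z) = B x z := by
  induction L with
  | nil => rfl
  | cons r L ih =>
    rw [act_cons, act_cons, s_form hB (h1 r (hL r (by simp)))]
    exact ih fun q hq => hL q (List.mem_cons_of_mem _ hq)

theorem act_reverse (h1 : ∀ r ∈ R, B r r = -1) {L : List V}
    (hL : ∀ r ∈ L, r ∈ R) (x : V) : act B L.reverse (act B L x) = x := by
  induction L generalizing x with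
  | nil => rfl
  | cons r L ih =>
    rw [List.reverse_cons, act_append, act_cons, act_cons, act_nil, s_s (h1 r (hL r (by simp)))]
    exact ih (fun q hq => hL q (List.mem_cons_of_mem _ hq)) x

theorem act_reverse' (h1 : ∀ r ∈ R, B r r = -1) {L : List V}
    (hL : ∀ r ∈ L, r ∈ R) (x : V) : act B L (act B L.reverse x) = x := by
  have := act_reverse (B := B) (R := R) h1 (L := L.reverse) (fun r hr => hL r (by simpa using hr)) x
  rwa [List.reverse_reverse] at this

theorem act_conj (hB : ∀ x z, B x z = B z x) (h1 : ∀ r ∈ R, B r r = -1) {L : List V}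
    (hL : ∀ r ∈ L, r ∈ R) (q x : V) : act B L (s B q x) = s B (act B L q) (act B L x) := by
  induction L with
  | nil => rfl
  | cons r L ih =>
    rw [act_cons, act_cons, act_cons, ih fun q hq => hL q (List.mem_cons_of_mem _ hq),
      s_conj hB (h1 r (hL r (by simp)))]

theorem act_mem (h2 : ∀ r ∈ R, ∀ q ∈ R, s B r q ∈ R) {L : List V}
    (hL : ∀ r ∈ L, r ∈ R) {q : V} (hq : q ∈ R) : act B L q ∈ R := by
  induction L with
  | nil => exact hq
  | cons r L ih =>
    rw [act_cons]
    exact h2 r (hL r (by simp)) _ (ih fun q hq => hL q (List.mem_cons_of_mem _ hq))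

theorem neg_mem (h1 : ∀ r ∈ R, B r r = -1) (h2 : ∀ r ∈ R, ∀ q ∈ R, s B r q ∈ R) {q : V}
    (hq : q ∈ R) : -q ∈ R := by
  have := h2 q hq q hq
  rwa [s_self (h1 q hq)] at this

/-- `α` is simple with respect to the base point `y`: its mirror is the only one between `y` and
the image of `y` -/
def Simple (B : LinearMap.BilinForm ℝ V) (R : Set V) (y α : V) : Prop :=
  α ∈ R ∧ 0 < B α y ∧ ∀ β ∈ R, 0 < B β y → β ≠ α → 0 < B β (s B α y)

/-- the mirrors between `y` and `z` -/
def Sep (B : LinearMap.BilinForm ℝ V) (R : Set V) (y z : V) : Set V :=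
  {q | q ∈ R ∧ 0 < B q y ∧ B q z < 0}

variable (hB : ∀ x z, B x z = B z x) (h1 : ∀ r ∈ R, B r r = -1)
  (h2 : ∀ r ∈ R, ∀ q ∈ R, s B r q ∈ R) {y : V} (hy : ∀ r ∈ R, B r y ≠ 0)
  (hfin : ∀ r ∈ R, (Sep B R y (s B r y)).Finite)
  (hcs : ∀ r ∈ R, ∀ f : ℝ, 0 < f → ∀ α ∈ R, ∀ β ∈ R, B α (s B r y + f • y) = 0 →
    B β (s B r y + f • y) = 0 → α ≠ β → α ≠ -β → |B α β| < 1)

include hB h1 h2 hy hfin hcs

/-- there is a simple mirror between `y` and its image under a reflection -/
theorem exists_simple {ρ : V} (hρ : ρ ∈ R) (hρy : 0 < B ρ y) :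
    ∃ α, Simple B R y α ∧ B α (s B ρ y) < 0 := by
  classical
  set z := s B ρ y with hz
  have hne : (Sep B R y z).Nonempty := by
    refine ⟨ρ, hρ, hρy, ?_⟩
    rw [hz, ← s_adj hB (h1 ρ hρ), s_self (h1 ρ hρ), map_neg, LinearMap.neg_apply]
    linarith
  have hF := hfin ρ hρ
  rw [← hz] at hF
  obtain ⟨α0, hα0, hmax⟩ := Set.exists_max_image (Sep B R y z) (fun q => -B q z / B q y) hF hne
  have hF' : ({q ∈ Sep B R y z | -B q z / B q y = -B α0 z / B α0 y}).Finite :=
    hF.subset fun q hq => hq.1
  obtain ⟨α, ⟨hα, hαe⟩, hmin⟩ := Set.exists_min_image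
    {q ∈ Sep B R y z | -B q z / B q y = -B α0 z / B α0 y} (fun q => B q y) hF' ⟨α0, hα0, rfl⟩
  set f : ℝ := -B α0 z / B α0 y with hf
  have hf0 : 0 < f := by
    rw [hf]
    exact div_pos (by linarith [hα0.2.2]) hα0.2.1
  have hle : ∀ q ∈ R, 0 < B q y → -B q z ≤ f * B q y := by
    intro q hq hqy
    by_cases hqz : B q z < 0
    · have := hmax q ⟨hq, hqy, hqz⟩
      rwa [div_le_iff₀ hqy] at this
    · have : 0 ≤ f * B q y := by positivity
      linarith
  have heq : ∀ q, 0 < B q y → (-B q z / B q y = f ↔ B q z = -(f * B q y)) := by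
    intro q hqy
    rw [div_eq_iff hqy.ne']
    constructor <;> intro h <;> linarith
  have hαz : B α z = -(f * B α y) := (heq α hα.2.1).mp hαe
  refine ⟨α, ⟨hα.1, hα.2.1, ?_⟩, hα.2.2⟩
  intro β hβ hβy hβα
  by_contra hcon
  have hsβ : s B α β ∈ R := h2 α hα.1 β hβ
  have e1 : B β (s B α y) = B (s B α β) y := (s_adj hB (h1 α hα.1) β y).symm
  rw [e1] at hcon
  have hlt : B (s B α β) y < 0 := lt_of_le_of_ne (not_lt.mp hcon) (hy _ hsβ)
  set δ := -s B α β with hδ
  have hδR : δ ∈ R := neg_mem h1 h2 hsβ
  have hδy : 0 < B δ y := by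
    rw [hδ, map_neg, LinearMap.neg_apply]
    linarith
  set c : ℝ := -(2 * B β α) with hc
  have hsum : ∀ w, B β w + B δ w = c * B α w := by
    intro w
    rw [hδ, hc, map_neg, LinearMap.neg_apply]
    unfold s
    simp only [map_add, map_smul, LinearMap.add_apply, LinearMap.smul_apply, smul_eq_mul]
    ring
  have hsy := hsum y
  have hsz := hsum z
  rw [hαz] at hsz
  have g1 := hle β hβ hβy
  have g2 := hle δ hδR hδy
  have hprod : c * -(f * B α y) = -(f * (B β y + B δ y)) := by
    rw [hsy]
    ring
  rw [hprod] at hsz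
  have hβz : B β z = -(f * B β y) := by nlinarith
  have hδz : B δ z = -(f * B δ y) := by nlinarith
  have m1 := hmin β ⟨⟨hβ, hβy, by rw [hβz]; nlinarith⟩, (heq β hβy).mpr hβz⟩
  have m2 := hmin δ ⟨⟨hδR, hδy, by rw [hδz]; nlinarith⟩, (heq δ hδy).mpr hδz⟩
  have hαy := hα.2.1
  have hc2 : 2 ≤ c := by
    by_contra hlt2
    push Not at hlt2
    nlinarith
  have hzero : ∀ q, B q z = -(f * B q y) → B q (z + f • y) = 0 := by
    intro q hq
    rw [map_add, map_smul, smul_eq_mul, hq]
    ring
  have hne' : α ≠ -β := by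
    rintro h
    rw [h, map_neg, LinearMap.neg_apply] at hαy
    linarith
  have := hcs ρ hρ f hf0 α hα.1 β hβ (hzero α hαz) (hzero β hβz) (Ne.symm hβα) hne'
  rw [hB α β] at this
  have h3 := (abs_lt.mp this).1
  linarith

/-- every reflection is a product of simple ones -/
theorem refl_simple : ∀ (n : ℕ) {ρ : V}, ρ ∈ R → 0 < B ρ y → (Sep B R y (s B ρ y)).ncard ≤ n →
    ∃ M : List V, (∀ r ∈ M, Simple B R y r) ∧ ∀ x, act B M x = s B ρ x := by
  intro n
  induction n with
  | zero =>
    intro ρ hρ hρy hn
    exfalso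
    have hmem : ρ ∈ Sep B R y (s B ρ y) := by
      refine ⟨hρ, hρy, ?_⟩
      rw [← s_adj hB (h1 ρ hρ), s_self (h1 ρ hρ), map_neg, LinearMap.neg_apply]
      linarith
    have := (Set.ncard_pos (hfin ρ hρ)).mpr ⟨ρ, hmem⟩
    omega
  | succ n ih =>
    intro ρ hρ hρy hn
    obtain ⟨μ, hμ, hμz⟩ := exists_simple hB h1 h2 hy hfin hcs hρ hρy
    by_cases hμρ : ρ = μ
    · subst hμρ
      exact ⟨[ρ], by simpa using hμ, fun x => rfl⟩
    have hμR := hμ.1
    have hm1 := h1 μ hμR
    set ρ' := s B μ ρ with hρ'
    have hρ'R : ρ' ∈ R := h2 μ hμR ρ hρ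
    have hρ'y : 0 < B ρ' y := by
      rw [hρ', s_adj hB hm1]
      exact hμ.2.2 ρ hρ hρy hμρ
    -- the reflection in `ρ'`
    have hconj : ∀ x, s B ρ' x = s B μ (s B ρ (s B μ x)) := by
      intro x
      rw [s_conj hB hm1, s_s hm1]
    -- the root `-s_ρ μ`
    set ν := -s B ρ μ with hν
    have hνR : ν ∈ R := neg_mem h1 h2 (h2 ρ hρ μ hμR)
    have hνy : 0 < B ν y := by
      rw [hν, map_neg, LinearMap.neg_apply, s_adj hB (h1 ρ hρ)]
      linarith
    have hνμ : ν ≠ μ := by
      intro h
      have h3 : s B ρ μ = -μ := neg_eq_iff_eq_neg.mp h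
      unfold s at h3
      have h4 : (2 * B μ ρ) • ρ = (-2 : ℝ) • μ := by
        have h5 : (2 * B μ ρ) • ρ = -μ - μ := by rw [← h3]; abel
        rw [h5]
        module
      have h5 : B μ ρ ≠ 0 := by
        intro h0
        rw [h0, mul_zero, zero_smul] at h4
        have h6 : μ = 0 := by
          have := (smul_eq_zero.mp h4.symm).resolve_left (by norm_num)
          exact this
        rw [h6] at hm1
        simp at hm1
      set t : ℝ := -B μ ρ with ht
      have h6 : μ = t • ρ := by
        have h7 : μ = (-(1 / 2) : ℝ) • ((-2 : ℝ) • μ) := by module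
        rw [h7, ← h4, ht, smul_smul]
        congr 1
        ring
      have h8 : t * t = 1 := by
        have h9 := hm1
        rw [h6, map_smul, map_smul, LinearMap.smul_apply, h1 ρ hρ, smul_eq_mul, smul_eq_mul] at h9
        linarith
      have h9 : 0 < t * B ρ y := by
        have := hμ.2.1
        rw [h6, map_smul, LinearMap.smul_apply, smul_eq_mul] at this
        exact this
      have h10 : 0 < t := by
        by_contra hc
        push Not at hc
        nlinarith
      have h11 : t = 1 := by nlinarith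
      rw [h11, one_smul] at h6
      exact hμρ h6.symm
    have hlt : (Sep B R y (s B ρ' y)).ncard < (Sep B R y (s B ρ y)).ncard := by
      have hinj : Function.Injective (s B μ) := fun a b hab => by
        rw [← s_s hm1 a, hab, s_s hm1]
      rw [← Set.ncard_image_of_injective _ hinj]
      refine Set.ncard_lt_ncard ?_ (hfin ρ hρ)
      rw [Set.ssubset_iff_of_subset]
      · -- `ν` is not in the image
        refine ⟨ν, ⟨hνR, hνy, ?_⟩, ?_⟩
        · rw [hν, map_neg, LinearMap.neg_apply, s_form hB (h1 ρ hρ)]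
          linarith [hμ.2.1]
        · rintro ⟨q, ⟨hq, hqy, hqz⟩, hqν⟩
          have e1 : B q (s B ρ' y) = B (s B ρ (s B μ q)) (s B μ y) := by
            rw [hconj, ← s_adj hB hm1, ← s_adj hB (h1 ρ hρ)]
          rw [e1, hqν, hν, s_neg, s_s (h1 ρ hρ), map_neg, LinearMap.neg_apply,
            ← s_adj hB hm1, s_self hm1, map_neg, LinearMap.neg_apply] at hqz
          linarith [hμ.2.1]
      · rintro _ ⟨q, ⟨hq, hqy, hqz⟩, rfl⟩
        have e1 : B q (s B ρ' y) = B (s B ρ (s B μ q)) (s B μ y) := by
          rw [hconj, ← s_adj hB hm1, ← s_adj hB (h1 ρ hρ)]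
        rw [e1] at hqz
        -- `q ≠ μ`
        have hqμ : q ≠ μ := by
          rintro rfl
          rw [s_self hm1, s_neg, map_neg, LinearMap.neg_apply] at hqz
          have := hμ.2.2 ν hνR hνy hνμ
          rw [hν, map_neg, LinearMap.neg_apply] at this
          linarith
        have hq1 : s B μ q ∈ R := h2 μ hμR q hq
        have hq2 : 0 < B (s B μ q) y := by
          rw [s_adj hB hm1]
          exact hμ.2.2 q hq hqy hqμ
        refine ⟨hq1, hq2, ?_⟩
        rw [← s_adj hB (h1 ρ hρ)]
        by_contra hcon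
        have hq3 : s B ρ (s B μ q) ∈ R := h2 ρ hρ _ hq1
        have hq4 : 0 < B (s B ρ (s B μ q)) y := lt_of_le_of_ne (not_lt.mp hcon) (Ne.symm (hy _ hq3))
        by_cases hq5 : s B ρ (s B μ q) = μ
        · have hq6 : s B μ q = s B ρ μ := by
            have h7 := congrArg (s B ρ) hq5
            rwa [s_s (h1 ρ hρ)] at h7
          rw [hq6] at hq2
          rw [hν, map_neg, LinearMap.neg_apply] at hνy
          linarith
        · linarith [hμ.2.2 _ hq3 hq4 hq5]
    obtain ⟨M, hM1, hM2⟩ := ih hρ'R hρ'y (by omega)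
    refine ⟨μ :: (M ++ [μ]), ?_, ?_⟩
    · intro r hr
      simp only [List.mem_cons, List.mem_append, List.not_mem_nil, or_false] at hr
      rcases hr with rfl | hr | rfl
      · exact hμ
      · exact hM1 r hr
      · exact hμ
    · intro x
      rw [act_cons, act_append, act_cons, act_nil, hM2, hconj, s_s hm1, s_s hm1]

/-- every product of reflections is a product of simple ones -/
theorem act_simple {L : List V} (hL : ∀ r ∈ L, r ∈ R) :
    ∃ M : List V, (∀ r ∈ M, Simple B R y r) ∧ ∀ x, act B M x = act B L x := by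
  induction L with
  | nil => exact ⟨[], by simp, fun x => rfl⟩
  | cons r L ih =>
    obtain ⟨M, hM1, hM2⟩ := ih fun q hq => hL q (List.mem_cons_of_mem _ hq)
    have hr := hL r (by simp)
    obtain ⟨N, hN1, hN2⟩ : ∃ N : List V, (∀ r ∈ N, Simple B R y r) ∧
        ∀ x, act B N x = s B r x := by
      rcases lt_or_gt_of_ne (hy r hr) with h | h
      · obtain ⟨N, hN1, hN2⟩ := refl_simple hB h1 h2 hy hfin hcs _ (neg_mem h1 h2 hr)
          (by rw [map_neg, LinearMap.neg_apply]; linarith) le_rfl
        exact ⟨N, hN1, fun x => by rw [hN2, s_neg_root]⟩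
      · exact refl_simple hB h1 h2 hy hfin hcs _ hr h le_rfl
    refine ⟨N ++ M, ?_, fun x => ?_⟩
    · intro q hq
      rcases List.mem_append.mp hq with h | h
      · exact hN1 q h
      · exact hM1 q h
    · rw [act_append, hN2, hM2, act_cons]

omit [AddCommGroup V] [Module ℝ V] hB h1 h2 hy hfin hcs in
theorem split_list {p : List V → Prop} (h0 : p []) (M : List V) (hM : ¬ p M) :
    ∃ (M2 : List V) (β : V) (M3 : List V), M = M2 ++ β :: M3 ∧ p M2 ∧ ¬ p (M2 ++ [β]) := by
  induction M using List.reverseRecOn with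
  | nil => exact absurd h0 hM
  | append_singleton l a ih =>
    by_cases hl : p l
    · exact ⟨l, a, [], rfl, hl, hM⟩
    · obtain ⟨M2, β, M3, e, h3, h4⟩ := ih hl
      refine ⟨M2, β, M3 ++ [a], ?_, h3, h4⟩
      rw [e]
      simp

/-- **Freeness.** A product of reflections such that no mirror separates `y` from its image is the
identity. -/
theorem free {L : List V} (hL : ∀ r ∈ L, r ∈ R) (hsep : ∀ r ∈ R, 0 < B r y → 0 < B r (act B L y)) :
    ∀ x, act B L x = x := by
  classical
  have hex : ∃ n, ∃ M : List V, M.length = n ∧ (∀ r ∈ M, Simple B R y r) ∧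
      ∀ x, act B M x = act B L x := by
    obtain ⟨M, hM⟩ := act_simple hB h1 h2 hy hfin hcs hL
    exact ⟨_, M, rfl, hM⟩
  obtain ⟨M, hMn, hM1, hM2⟩ := Nat.find_spec hex
  have hmin : ∀ M' : List V, (∀ r ∈ M', Simple B R y r) → (∀ x, act B M' x = act B L x) →
      M.length ≤ M'.length := by
    intro M' h3 h4
    rw [hMn]
    exact Nat.find_min' hex ⟨M', rfl, h3, h4⟩
  rcases M with _ | ⟨α, M1⟩
  · intro x
    rw [← hM2, act_nil]
  exfalso
  have hα := hM1 α (by simp)
  have hMR : ∀ r ∈ α :: M1, r ∈ R := fun r hr => (hM1 r hr).1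
  obtain ⟨M2, β, M3, e, h3, h4⟩ := split_list (p := fun P => B α (act B (α :: P) y) < 0) (by
      show B α (s B α y) < 0
      rw [← s_adj hB (h1 α hα.1), s_self (h1 α hα.1), map_neg, LinearMap.neg_apply]
      linarith [hα.2.1]) M1 (by
      rw [hM2]
      exact not_lt.mpr (hsep α hα.1 hα.2.1).le)
  have hβ : Simple B R y β := hM1 β (by rw [e]; simp)
  have hgR : ∀ r ∈ α :: M2, r ∈ R := by
    intro r hr
    refine hMR r ?_
    rw [e]
    rcases List.mem_cons.mp hr with rfl | hr
    · simp
    · exact List.mem_cons_of_mem _ (List.mem_append_left _ hr)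
  have hgR' : ∀ r ∈ (α :: M2).reverse, r ∈ R := fun r hr => hgR r (List.mem_reverse.mp hr)
  set g := act B (α :: M2) with hg
  set γ := act B (α :: M2).reverse α with hγ
  have hgγ : g γ = α := act_reverse' h1 hgR α
  have hγR : γ ∈ R := act_mem h2 hgR' hα.1
  have e3 : B α (g y) = B γ y := by
    rw [← hgγ]
    exact act_form hB h1 hgR γ y
  have e4 : B α (g (s B β y)) = B γ (s B β y) := by
    rw [← hgγ]
    exact act_form hB h1 hgR γ _
  have h3' : B γ y < 0 := by
    rw [← e3]
    exact h3
  have h4' : ¬ B γ (s B β y) < 0 := by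
    rw [← e4]
    intro h5
    apply h4
    have : act B (α :: (M2 ++ [β])) y = g (s B β y) := by
      rw [← List.cons_append, act_append]
      rfl
    rw [this]
    exact h5
  have hδ : -γ = β := by
    by_contra hne
    have := hβ.2.2 (-γ) (neg_mem h1 h2 hγR) (by rw [map_neg, LinearMap.neg_apply]; linarith) hne
    rw [map_neg, LinearMap.neg_apply] at this
    apply h4'
    linarith
  have hγβ : γ = -β := by rw [← hδ, neg_neg]
  -- the two letters can be deleted
  have hdel : ∀ x, act B M2 x = act B (α :: M2) (s B β x) := by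
    intro x
    have h5 := act_conj hB h1 hgR β x
    rw [h5]
    have h6 : act B (α :: M2) β = -α := by
      have : β = -γ := by rw [hγβ, neg_neg]
      rw [this, act_neg]
      congr 1
    rw [h6, s_neg_root, act_cons, s_s (h1 α hα.1)]
  have := hmin (M2 ++ M3) (by
      intro r hr
      refine hM1 r ?_
      rw [e]
      rcases List.mem_append.mp hr with h | h
      · exact List.mem_cons_of_mem _ (List.mem_append_left _ h)
      · exact List.mem_cons_of_mem _ (List.mem_append_right _ (List.mem_cons_of_mem _ h)))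
    (by
      intro x
      rw [← hM2, e, ← List.cons_append, act_append, act_append, act_cons _ β, hdel])
  rw [e] at this
  simp at this

end

end Pool.Agent.V5helper2.HR
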