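import Pool.Agent.V5helper2.HR.Core
import Pool.Agent.TH845.KN.B2

/-!
# Classes of spectral radii
-/

set_option autoImplicit false

namespace Pool.Agent.V5helper2.HR

open Polynomial Pool.Agent.Y820.LB Pool.Agent.H261R2.CM Pool.Agent.TH845.KN Pool.Agent.W242.IM

noncomputable section

/-- the spectral radii with a lattice vector of bounded weights -/
def Kl (κ : ℝ → ℝ) : Set ℝ :=
  {x | 1 < x ∧ ∃ (n : ℕ) (S A A' : Matrix (Fin n) (Fin n) ℤ) (up um : Fin n → ℝ) (v : Fin n → ℤ),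
    Situ S A A' x up um ∧ wt S up um (iv v) ≠ 0 ∧
      -bf (rm S) (iv v) (iv v) - wt S up um (iv v) + |wt S up um (iv v)| ≤ κ x}

theorem BC_Kl (κ : ℝ → ℝ) (hκ : Monotone κ) : BC (Kl κ ∪ {1}) := by
  intro B
  refine ⟨max 0 (Real.log (max B 1) + subC (toC h2) 1 (κ B)), ?_⟩
  rintro x ⟨hx | hx, hxB⟩
  · obtain ⟨hx1, n, S, A, A', up, um, v, h, hv, hL⟩ := hx
    have hxB' : x < B := hxB
    obtain ⟨A0, B0, c, e1, e2, e3, e4, e5, _, _⟩ := h.core hv (L := κ B) (hL.trans (hκ hxB'.le))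
    rw [abs_of_pos (by linarith)] at e5
    rw [← e5]
    refine m1_mem_LL A0 B0 e1 e2 e3 _ (le_trans ?_ (le_max_right _ _))
    have h9 : Real.log (m1 A0) ≤ Real.log (max B 1) := by
      rw [e5]
      exact Real.log_le_log (by linarith) (le_max_of_le_left hxB'.le)
    linarith
  · have hx1 : x = 1 := hx
    rw [hx1]
    exact LL_mono (le_max_left _ _) one_mem_LL

variable {n : ℕ} {S A A' : Matrix (Fin n) (Fin n) ℤ} {τ : ℝ} {up um : Fin n → ℝ}

theorem rm_neg (A : Matrix (Fin n) (Fin n) ℤ) : rm (-A) = -rm A := by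
  unfold rm
  ext i j
  simp

theorem Situ.neg (h : Situ S A A' τ up um) : Situ S (-A) (-A') (-τ) up um where
  lor := h.lor
  inv := by rw [neg_mul_neg, h.inv]
  iso x y := by
    rw [rm_neg, Matrix.neg_mulVec, Matrix.neg_mulVec]
    simp only [map_neg, LinearMap.neg_apply, neg_neg]
    exact h.iso x y
  hτ := by
    rw [abs_neg]
    exact h.hτ
  hup := by rw [rm_neg, Matrix.neg_mulVec, h.hup, neg_smul]
  hum := by rw [rm_neg, Matrix.neg_mulVec, h.hum, inv_neg, neg_smul]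
  pp := h.pp
  mm := h.mm
  pm := h.pm

theorem mem_Kl (h : Situ S A A' τ up um) (v : Fin n → ℤ) (hv : wt S up um (iv v) ≠ 0)
    (κ : ℝ → ℝ) (hL : -bf (rm S) (iv v) (iv v) - wt S up um (iv v) + |wt S up um (iv v)| ≤ κ |τ|) :
    |τ| ∈ Kl κ := by
  refine ⟨h.hτ, n, ?_⟩
  rcases lt_or_gt_of_ne h.τ0 with h1 | h1
  · refine ⟨S, -A, -A', up, um, v, ?_, hv, hL⟩
    rw [abs_of_neg h1]
    exact h.neg
  · refine ⟨S, A, A', up, um, v, ?_, hv, hL⟩
    rw [abs_of_pos h1]
    exact h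

/-- integral reflections in vectors of norm between `-k` and `-1` -/
def IsRefl (S : Matrix (Fin n) (Fin n) ℤ) (k : ℝ) (R : Matrix (Fin n) (Fin n) ℤ) : Prop :=
  ∃ r : Fin n → ℤ, -k ≤ ((r ⬝ᵥ S.mulVec r : ℤ) : ℝ) ∧ r ⬝ᵥ S.mulVec r < 0 ∧
    ∀ x : Fin n → ℤ, (r ⬝ᵥ S.mulVec r) • R.mulVec x =
      (r ⬝ᵥ S.mulVec r) • x - (2 * (x ⬝ᵥ S.mulVec r)) • r

theorem iv_smul (c : ℤ) (x : Fin n → ℤ) : iv (c • x) = (c : ℝ) • iv x := by
  funext i
  simp [iv]

theorem iv_sub (x y : Fin n → ℤ) : iv (x - y) = iv x - iv y := by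
  funext i
  simp [iv]

theorem IsRefl.spec {k : ℝ} {R : Matrix (Fin n) (Fin n) ℤ} (h : IsRefl S k R) :
    ∃ r : Fin n → ℤ, IsRoot (rm S) k r ∧
      ∀ x : Fin n → ℝ, (rm R).mulVec x = s (bf (rm S)) (nrm (rm S) (iv r)) x := by
  obtain ⟨r, h1, h2, h3⟩ := h
  have hrr : bf (rm S) (iv r) (iv r) < 0 := by
    rw [bf_iv]
    exact_mod_cast h2
  have key : ∀ x : Fin n → ℤ, iv (R.mulVec x) = rfl' (rm S) (iv r) (iv x) := by
    intro x
    have h4 := congrArg iv (h3 x)
    rw [iv_smul, iv_sub, iv_smul, iv_smul, ← bf_iv] at h4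
    push_cast at h4
    rw [← bf_iv] at h4
    unfold rfl'
    have h5 : iv (R.mulVec x) = (bf (rm S) (iv r) (iv r))⁻¹ •
        (bf (rm S) (iv r) (iv r) • iv (R.mulVec x)) := by
      rw [smul_smul, inv_mul_cancel₀ hrr.ne, one_smul]
    rw [h5, h4, smul_sub, smul_smul, smul_smul, inv_mul_cancel₀ hrr.ne, one_smul]
    congr 2
    field_simp
  refine ⟨r, ⟨?_, hrr, fun x => ⟨R.mulVec x, key x⟩⟩, ?_⟩
  · rw [bf_iv]
    exact h1
  · -- equality of linear maps
    set g : (Fin n → ℝ) →ₗ[ℝ] (Fin n → ℝ) :=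
      { toFun := fun x => s (bf (rm S)) (nrm (rm S) (iv r)) x
        map_add' := fun x y => s_add _ _ x y
        map_smul' := fun c x => s_smul _ _ c x } with hg
    have h4 : Matrix.toLin' (rm R) = g := by
      apply LinearMap.pi_ext
      intro i c
      have h5 : (Pi.single i c : Fin n → ℝ) = c • iv (Pi.single i 1) := by
        funext j
        by_cases hj : j = i
        · subst hj
          simp [iv]
        · simp [iv, hj]
      rw [h5, map_smul, map_smul]
      congr 1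
      rw [Matrix.toLin'_apply, rm_iv, key, ← s_nrm hrr]
      rfl
    intro x
    have h5 := congrArg (fun f : (Fin n → ℝ) →ₗ[ℝ] (Fin n → ℝ) => f x) h4
    exact h5

theorem rm_inj {A B : Matrix (Fin n) (Fin n) ℤ} (h : ∀ x : Fin n → ℝ, (rm A).mulVec x = (rm B).mulVec x) :
    A = B := by
  have h1 : rm A = rm B := by
    apply Matrix.toLin'.injective
    refine LinearMap.ext fun x => ?_
    rw [Matrix.toLin'_apply, Matrix.toLin'_apply]
    exact h x
  ext i j
  have h2 := congrFun (congrFun h1 i) j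
  simp [rm] at h2
  exact h2

theorem closure_spec {k : ℝ} (hA : A ∈ Submonoid.closure {R | IsRefl S k R}) :
    ∃ L : List (Fin n → ℝ), (∀ r ∈ L, r ∈ RR (rm S) k) ∧
      (∀ x, (rm A).mulVec x = act (bf (rm S)) L x) ∧ ∃ A', A * A' = 1 := by
  induction hA using Submonoid.closure_induction with
  | mem R hR =>
    obtain ⟨r, h1, h2⟩ := IsRefl.spec hR
    refine ⟨[nrm (rm S) (iv r)], ?_, fun x => h2 x, R, ?_⟩
    · intro q hq
      rw [List.mem_singleton] at hq
      rw [hq]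
      exact ⟨r, h1, rfl⟩
    · apply rm_inj
      intro x
      rw [rm_mul, ← Matrix.mulVec_mulVec, h2, h2, s_s (nrm_norm h1.2.1), rm_one, Matrix.one_mulVec]
  | one => exact ⟨[], by simp, fun x => by rw [rm_one, Matrix.one_mulVec]; rfl, 1, mul_one 1⟩
  | mul A B _ _ ihA ihB =>
    obtain ⟨L, a1, a2, A', a3⟩ := ihA
    obtain ⟨M, b1, b2, B', b3⟩ := ihB
    refine ⟨L ++ M, ?_, ?_, B' * A', ?_⟩
    · intro r hr
      rcases List.mem_append.mp hr with h | h
      · exact a1 r h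
      · exact b1 r h
    · intro x
      rw [rm_mul, ← Matrix.mulVec_mulVec, b2, a2, act_append]
    · rw [mul_assoc, ← mul_assoc B, b3, one_mul, a3]

/-- conversion of the characteristic polynomial -/
theorem charpoly_conv (A : Matrix (Fin n) (Fin n) ℤ) :
    ((rm A).map (algebraMap ℝ ℂ)).charpoly = (A.map (Int.castRingHom ℂ)).charpoly := by
  have h2 : (rm A).map (algebraMap ℝ ℂ) = A.map (Int.castRingHom ℂ) := by
    ext i j
    simp [rm]
  rw [h2]

/-- the spectral radius of a matrix -/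
def IsSR (A : Matrix (Fin n) (Fin n) ℤ) (x : ℝ) : Prop :=
  (∃ z : ℂ, (A.map (Int.castRingHom ℂ)).charpoly.IsRoot z ∧ ‖z‖ = x) ∧
    ∀ z : ℂ, (A.map (Int.castRingHom ℂ)).charpoly.IsRoot z → ‖z‖ ≤ x

/-- spectral radii of isometries are at least one -/
theorem one_le_SR (hinv : A * A' = 1) {x : ℝ} (hx : IsSR A x) : 1 ≤ x := by
  by_contra hcon
  push Not at hcon
  obtain ⟨⟨z0, hz0, hz0x⟩, hx2⟩ := hx
  have hx0 : 0 ≤ x := by
    rw [← hz0x]
    exact norm_nonneg _
  have hdet : IsUnit A.det := (Matrix.isUnit_iff_isUnit_det A).mp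
    (IsUnit.of_mul_eq_one A' hinv)
  set p := (A.map (Int.castRingHom ℂ)).charpoly with hp
  have h1 : (A.map (Int.castRingHom ℂ)).det = p.roots.prod := Matrix.det_eq_prod_roots_charpoly _
  have h2 : ‖(A.map (Int.castRingHom ℂ)).det‖ = 1 := by
    have h3 : (A.map (Int.castRingHom ℂ)).det = (A.det : ℂ) := by
      have := (RingHom.map_det (Int.castRingHom ℂ) A).symm
      simpa using this
    rw [h3, Complex.norm_intCast]
    have := Int.isUnit_iff_abs_eq.mp hdet
    exact_mod_cast this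
  have hpm : p.Monic := Matrix.charpoly_monic _
  have h3 : ∀ z ∈ p.roots, ‖z‖ ≤ x := fun z hz => hx2 z ((mem_roots hpm.ne_zero).mp hz)
  have h4 : ‖p.roots.prod‖ ≤ x ^ Multiset.card p.roots := by
    have key : ∀ m : Multiset ℂ, (∀ z ∈ m, ‖z‖ ≤ x) → ‖m.prod‖ ≤ x ^ Multiset.card m := by
      intro m
      induction m using Multiset.induction_on with
      | empty => intro _; simp
      | cons a m ih =>
        intro hm
        rw [Multiset.prod_cons, norm_mul, Multiset.card_cons, pow_succ']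
        have e1 := hm a (Multiset.mem_cons_self a m)
        have e2 := ih fun z hz => hm z (Multiset.mem_cons_of_mem hz)
        exact mul_le_mul e1 e2 (norm_nonneg _) hx0
    exact key _ h3
  have hcard : Multiset.card p.roots ≠ 0 := by
    intro h0
    rw [Multiset.card_eq_zero] at h0
    have := (mem_roots hpm.ne_zero).mpr hz0
    rw [h0] at this
    simp at this
  rw [h1] at h2
  rw [h2] at h4
  have h5 : x ^ Multiset.card p.roots < 1 := pow_lt_one₀ hx0 hcon hcard
  linarith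

/-- **Reflection groups.** -/
theorem refl_mem (hlor : Lor (bf (rm S))) (κ : ℝ → ℝ) {x : ℝ}
    (hA : A ∈ Submonoid.closure {R | IsRefl S (κ x) R}) (hx : IsSR A x) :
    x ∈ Kl κ ∪ {1} := by
  obtain ⟨L, hL, hact, A', hinv⟩ := closure_spec hA
  rcases (one_le_SR hinv hx).eq_or_lt with h1 | h1
  · exact Or.inr h1.symm
  left
  have hB := hlor.1
  have hnorm : ∀ r ∈ RR (rm S) (κ x), bf (rm S) r r = -1 := fun r hr => RR_norm hr
  have hiso : ∀ x y, bf (rm S) ((rm A).mulVec x) ((rm A).mulVec y) = bf (rm S) x y := by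
    intro a b
    rw [hact, hact]
    exact act_form hB hnorm hL a b
  obtain ⟨⟨z, hz, hzx⟩, _⟩ := hx
  obtain ⟨τ, up, um, e1, e2, e3, e4, e5, e6, e7⟩ := exists_axis hlor (rm A) hiso z
    (by rw [charpoly_conv]; exact hz) (by rw [hzx]; exact h1)
  have hτx : |τ| = x := by
    rw [← hzx, e1, Complex.norm_real, Real.norm_eq_abs]
  have hs : Situ S A A' τ up um := ⟨hlor, hinv, hiso, e2, e3, e4, e5, e6, e7⟩
  obtain ⟨_, ⟨r, hr, rfl⟩, hcr⟩ := exists_crossing hlor (κ x) hL e2 (by rw [← hact, e3])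
    (by rw [← hact, e4]) e5 e6 e7
  obtain ⟨c, hc, hc1⟩ : ∃ c : ℝ, 0 < c ∧ ∀ y, bf (rm S) (nrm (rm S) (iv r)) y =
      c * bf (rm S) (iv r) y := by
    refine ⟨(Real.sqrt (-bf (rm S) (iv r) (iv r)))⁻¹,
      inv_pos.mpr (Real.sqrt_pos.mpr (by linarith [hr.2.1])), fun y => ?_⟩
    unfold nrm
    rw [map_smul, LinearMap.smul_apply, smul_eq_mul]
  rw [hc1, hc1] at hcr
  have hcr' : bf (rm S) (iv r) up * bf (rm S) (iv r) um < 0 := by
    have h2 : c * c * (bf (rm S) (iv r) up * bf (rm S) (iv r) um) < 0 := by linarith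
    have h3 : 0 < c * c := by positivity
    by_contra hcon
    push Not at hcon
    have : 0 ≤ c * c * (bf (rm S) (iv r) up * bf (rm S) (iv r) um) := by positivity
    linarith
  have hw : 0 < wt S up um (iv r) := by
    unfold wt
    rw [neg_pos]
    apply div_neg_of_neg_of_pos _ e7
    linarith
  rw [← hτx]
  refine mem_Kl hs r hw.ne' κ ?_
  rw [abs_of_pos hw, hτx]
  have := hr.1
  linarith

end

end Pool.Agent.V5helper2.HR
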