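import Pool.Agent.V5helper2.HR.Lor

/-!
# Reflections of hyperbolic lattices; mirrors that cross an axis
-/

set_option autoImplicit false

namespace Pool.Agent.V5helper2.HR

open Filter Topology

variable {n : ℕ} {M : Matrix (Fin n) (Fin n) ℝ}

/-- the bilinear form of a matrix -/
abbrev bf (M : Matrix (Fin n) (Fin n) ℝ) : LinearMap.BilinForm ℝ (Fin n → ℝ) := Matrix.toBilin' M

theorem bf_apply (x y : Fin n → ℝ) : bf M x y = x ⬝ᵥ M.mulVec y := Matrix.toBilin'_apply' M x y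

/-- integer vectors as real vectors -/
def iv (r : Fin n → ℤ) : Fin n → ℝ := fun i => (r i : ℝ)

theorem continuous_self : Continuous fun x : Fin n → ℝ => bf M x x := by
  simp only [bf_apply, dotProduct, Matrix.mulVec]
  fun_prop

theorem continuous_left (y : Fin n → ℝ) : Continuous fun x : Fin n → ℝ => bf M x y := by
  simp only [bf_apply, dotProduct, Matrix.mulVec]
  fun_prop

/-- the form is a positive definite form minus a square -/
theorem pos_bound (h : Lor (bf M)) {y : Fin n → ℝ} (hy : 0 < bf M y y) :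
    ∃ c : ℝ, 0 < c ∧ ∀ x : Fin n → ℝ, c * ‖x‖ ^ 2 ≤ -bf M x x + 2 * (bf M x y) ^ 2 / bf M y y := by
  have hB := h.1
  set g : (Fin n → ℝ) → ℝ := fun x => -bf M x x + 2 * (bf M x y) ^ 2 / bf M y y with hg
  have hgc : Continuous g := by
    have h1 := continuous_self (M := M)
    have h2 := continuous_left (M := M) y
    exact h1.neg.add ((continuous_const.mul (h2.pow 2)).div_const _)
  have hpos : ∀ x, x ≠ 0 → 0 < g x := by
    intro x hx
    set a := bf M x y / bf M y y with ha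
    set x' := x - a • y with hx'
    have h1 : bf M y x' = 0 := by
      rw [hx', map_sub, map_smul, smul_eq_mul, hB y x, ha]
      field_simp
      ring
    have h2 : bf M x x = a ^ 2 * bf M y y + bf M x' x' := by
      have hx2 : x = x' + a • y := by rw [hx']; module
      conv_lhs => rw [hx2]
      simp only [map_add, map_smul, LinearMap.add_apply, LinearMap.smul_apply, smul_eq_mul]
      rw [hB x' y, h1]
      ring
    have h3 : 2 * (bf M x y) ^ 2 / bf M y y = 2 * a ^ 2 * bf M y y := by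
      rw [ha]
      field_simp
    have h4 : g x = a ^ 2 * bf M y y + (-bf M x' x') := by
      rw [hg]
      simp only
      rw [h2, h3]
      ring
    rw [h4]
    by_cases hx0 : x' = 0
    · have ha0 : a ≠ 0 := by
        intro h0
        rw [h0, zero_smul, sub_zero] at hx'
        rw [hx'] at hx0
        exact hx hx0
      rw [hx0]
      simp only [map_zero, neg_zero, add_zero]
      positivity
    · have := h.neg_of_orth hy hx0 h1
      have : 0 ≤ a ^ 2 * bf M y y := by positivity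
      linarith
  have hhom : ∀ (t : ℝ) (x : Fin n → ℝ), g (t • x) = t ^ 2 * g x := by
    intro t x
    rw [hg]
    simp only [map_smul, LinearMap.smul_apply, smul_eq_mul]
    ring
  rcases (Metric.sphere (0 : Fin n → ℝ) 1).eq_empty_or_nonempty with he | hne
  · refine ⟨1, one_pos, fun x => ?_⟩
    have hx : x = 0 := by
      by_contra h0
      have : (‖x‖⁻¹ • x) ∈ Metric.sphere (0 : Fin n → ℝ) 1 := by
        rw [mem_sphere_zero_iff_norm, norm_smul, norm_inv, norm_norm, inv_mul_cancel₀]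
        exact norm_ne_zero_iff.mpr h0
      rw [he] at this
      exact this
    rw [hx]
    simp
  · obtain ⟨x0, hx0, hmin⟩ := (isCompact_sphere (0 : Fin n → ℝ) 1).exists_isMinOn hne
      hgc.continuousOn
    have hx00 : x0 ≠ 0 := by
      rintro rfl
      simp at hx0
    refine ⟨g x0, hpos x0 hx00, fun x => ?_⟩
    by_cases h0 : x = 0
    · rw [h0]
      simp
    have hn : ‖x‖ ≠ 0 := norm_ne_zero_iff.mpr h0
    have h1 : (‖x‖⁻¹ • x) ∈ Metric.sphere (0 : Fin n → ℝ) 1 := by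
      rw [mem_sphere_zero_iff_norm, norm_smul, norm_inv, norm_norm, inv_mul_cancel₀ hn]
    have h2 : g x0 ≤ g (‖x‖⁻¹ • x) := hmin h1
    rw [hhom] at h2
    have h3 : g x = ‖x‖ ^ 2 * ((‖x‖⁻¹) ^ 2 * g x) := by
      field_simp
    change g x0 * ‖x‖ ^ 2 ≤ g x
    rw [h3]
    nlinarith [sq_nonneg ‖x‖]

theorem finite_lattice (h : Lor (bf M)) {y : Fin n → ℝ} (hy : 0 < bf M y y) (k K : ℝ) :
    {r : Fin n → ℤ | -k ≤ bf M (iv r) (iv r) ∧ (bf M (iv r) y) ^ 2 ≤ K}.Finite := by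
  obtain ⟨c, hc, hb⟩ := pos_bound h hy
  set m : ℤ := ⌈(k + 2 * K / bf M y y) / c + 1⌉ with hm
  refine (Set.finite_Icc (fun _ : Fin n => -m) (fun _ => m)).subset ?_
  rintro r ⟨h1, h2⟩
  have h3 := hb (iv r)
  have h4 : 2 * (bf M (iv r) y) ^ 2 / bf M y y ≤ 2 * K / bf M y y := by gcongr
  have h5 : ‖iv r‖ ^ 2 ≤ (k + 2 * K / bf M y y) / c := by
    rw [le_div_iff₀ hc]
    linarith
  have h6 : ‖iv r‖ ≤ m := by
    have h7 : ‖iv r‖ ≤ ‖iv r‖ ^ 2 + 1 := by nlinarith [sq_nonneg (‖iv r‖ - 1)]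
    have h8 : (k + 2 * K / bf M y y) / c + 1 ≤ m := Int.le_ceil _
    linarith
  have h7 : ∀ i, |(r i : ℝ)| ≤ m := fun i => (norm_le_pi_norm (iv r) i).trans h6
  rw [Set.mem_Icc]
  constructor
  · intro i
    have := (abs_le.mp (h7 i)).1
    exact_mod_cast this
  · intro i
    have := (abs_le.mp (h7 i)).2
    exact_mod_cast this

/-- the reflection in a vector of negative norm -/
noncomputable def rfl' (M : Matrix (Fin n) (Fin n) ℝ) (r x : Fin n → ℝ) : Fin n → ℝ :=
  x - (2 * bf M x r / bf M r r) • r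

/-- integer vectors of norm at least `-k` with an integral reflection -/
def IsRoot (M : Matrix (Fin n) (Fin n) ℝ) (k : ℝ) (r : Fin n → ℤ) : Prop :=
  -k ≤ bf M (iv r) (iv r) ∧ bf M (iv r) (iv r) < 0 ∧
    ∀ x : Fin n → ℤ, ∃ z : Fin n → ℤ, iv z = rfl' M (iv r) (iv x)

/-- the unit vector of direction `r` -/
noncomputable def nrm (M : Matrix (Fin n) (Fin n) ℝ) (r : Fin n → ℝ) : Fin n → ℝ :=
  (Real.sqrt (-bf M r r))⁻¹ • r

theorem nrm_norm {r : Fin n → ℝ} (hr : bf M r r < 0) : bf M (nrm M r) (nrm M r) = -1 := by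
  unfold nrm
  simp only [map_smul, LinearMap.smul_apply, smul_eq_mul]
  have h1 : Real.sqrt (-bf M r r) * Real.sqrt (-bf M r r) = -bf M r r :=
    Real.mul_self_sqrt (by linarith)
  have h2 : Real.sqrt (-bf M r r) ≠ 0 := by
    intro h0
    rw [h0] at h1
    linarith
  have h3 : bf M r r = -(Real.sqrt (-bf M r r) * Real.sqrt (-bf M r r)) := by linarith
  rw [h3]
  simp only [neg_neg]
  rw [Real.sqrt_mul_self (Real.sqrt_nonneg _)]
  field_simp

theorem s_nrm {r : Fin n → ℝ} (hr : bf M r r < 0) (x : Fin n → ℝ) :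
    s (bf M) (nrm M r) x = rfl' M r x := by
  unfold s rfl' nrm
  have h1 : Real.sqrt (-bf M r r) * Real.sqrt (-bf M r r) = -bf M r r :=
    Real.mul_self_sqrt (by linarith)
  have h2 : Real.sqrt (-bf M r r) ≠ 0 := by
    intro h0
    rw [h0] at h1
    linarith
  rw [map_smul, smul_eq_mul, smul_smul, sub_eq_add_neg, ← neg_smul]
  congr 2
  have h3 : bf M r r ≠ 0 := hr.ne
  have h4 : (Real.sqrt (-bf M r r))⁻¹ * (Real.sqrt (-bf M r r))⁻¹ = -(bf M r r)⁻¹ := by
    rw [← mul_inv, h1, inv_neg]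
  calc 2 * ((Real.sqrt (-bf M r r))⁻¹ * bf M x r) * (Real.sqrt (-bf M r r))⁻¹
      = 2 * bf M x r * ((Real.sqrt (-bf M r r))⁻¹ * (Real.sqrt (-bf M r r))⁻¹) := by ring
    _ = _ := by rw [h4]; ring

/-- the set of the unit normals of the reflections -/
def RR (M : Matrix (Fin n) (Fin n) ℝ) (k : ℝ) : Set (Fin n → ℝ) :=
  {u | ∃ r : Fin n → ℤ, IsRoot M k r ∧ u = nrm M (iv r)}

theorem RR_norm {k : ℝ} {u : Fin n → ℝ} (hu : u ∈ RR M k) : bf M u u = -1 := by
  obtain ⟨r, hr, rfl⟩ := hu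
  exact nrm_norm hr.2.1

theorem RR_refl (hB : ∀ x z, bf M x z = bf M z x) {k : ℝ} :
    ∀ r ∈ RR M k, ∀ q ∈ RR M k, s (bf M) r q ∈ RR M k := by
  rintro _ ⟨r, hr, rfl⟩ _ ⟨q, hq, rfl⟩
  obtain ⟨z, hz⟩ := hr.2.2 q
  have hz' : iv z = s (bf M) (nrm M (iv r)) (iv q) := by rw [s_nrm hr.2.1, hz]
  have hzz : bf M (iv z) (iv z) = bf M (iv q) (iv q) := by
    rw [hz', s_form hB (nrm_norm hr.2.1)]
  have hn : nrm M (iv z) = s (bf M) (nrm M (iv r)) (nrm M (iv q)) := by
    unfold nrm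
    rw [hzz, s_smul]
    congr 1
  refine ⟨z, ⟨by rw [hzz]; exact hq.1, by rw [hzz]; exact hq.2.1, ?_⟩, hn.symm⟩
  intro x
  obtain ⟨x1, hx1⟩ := hr.2.2 x
  obtain ⟨x2, hx2⟩ := hq.2.2 x1
  obtain ⟨x3, hx3⟩ := hr.2.2 x2
  refine ⟨x3, ?_⟩
  rw [hx3, hx2, hx1, ← s_nrm hr.2.1, ← s_nrm hr.2.1, ← s_nrm hq.2.1,
    ← s_nrm (r := iv z) (by rw [hzz]; exact hq.2.1), hn, s_conj hB (nrm_norm hr.2.1) (nrm M (iv q)),
    s_s (nrm_norm hr.2.1)]

theorem root_sq {r : Fin n → ℝ} (hr : bf M r r < 0) (y : Fin n → ℝ) :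
    (bf M r y) ^ 2 = -bf M r r * (bf M (nrm M r) y) ^ 2 := by
  unfold nrm
  rw [map_smul, LinearMap.smul_apply, smul_eq_mul, mul_pow, inv_pow, Real.sq_sqrt (by linarith)]
  have h1 : -bf M r r ≠ 0 := by linarith
  rw [← mul_assoc, mul_inv_cancel₀ h1, one_mul]

theorem sep_finite (h : Lor (bf M)) (k : ℝ) {y z : Fin n → ℝ} (hy : 0 < bf M y y)
    (hz : 0 < bf M z z) (hyz : 0 < bf M y z) : (Sep (bf M) (RR M k) y z).Finite := by
  have hF := (finite_lattice h hy k (k * ((bf M y z ^ 2) / bf M z z))).image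
    (fun r => nrm M (iv r))
  refine hF.subset ?_
  rintro _ ⟨⟨r, hr, rfl⟩, hqy, hqz⟩
  refine ⟨r, ⟨hr.1, ?_⟩, rfl⟩
  have h1 := h.between hy hz hyz (q := nrm M (iv r)) (by rw [nrm_norm hr.2.1]; norm_num) hqy hqz.le
  rw [nrm_norm hr.2.1, neg_neg, one_mul] at h1
  rw [root_sq hr.2.1]
  have h2 : 0 ≤ (bf M y z ^ 2) / bf M z z := by positivity
  calc -bf M (iv r) (iv r) * (bf M (nrm M (iv r)) y) ^ 2
      ≤ -bf M (iv r) (iv r) * ((bf M y z ^ 2) / bf M z z) := by
        apply mul_le_mul_of_nonneg_left h1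
        linarith [hr.2.1]
    _ ≤ _ := by
        apply mul_le_mul_of_nonneg_right _ h2
        linarith [hr.1]

theorem nrm_sign {r : Fin n → ℝ} (hr : bf M r r < 0) (y : Fin n → ℝ) :
    ∃ c : ℝ, 0 < c ∧ bf M (nrm M r) y = c * bf M r y := by
  refine ⟨(Real.sqrt (-bf M r r))⁻¹, ?_, ?_⟩
  · apply inv_pos.mpr
    exact Real.sqrt_pos.mpr (by linarith)
  · unfold nrm
    rw [map_smul, LinearMap.smul_apply, smul_eq_mul]

/-- a generic point near `x` -/
theorem exists_generic (h : Lor (bf M)) (k : ℝ) {x : Fin n → ℝ} (hx : 0 < bf M x x) :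
    ∃ y : Fin n → ℝ, 0 < bf M y y ∧ (∀ r ∈ RR M k, bf M r y ≠ 0) ∧
      ∀ r ∈ RR M k, 0 < bf M r x → 0 < bf M r y := by
  have hB := h.1
  -- a vector not orthogonal to the roots orthogonal to `x`
  have hF0 := finite_lattice h hx k 0
  set F0 := {r : Fin n → ℤ | -k ≤ bf M (iv r) (iv r) ∧ (bf M (iv r) x) ^ 2 ≤ 0 ∧
    bf M (iv r) (iv r) < 0} with hF0d
  have hF0' : F0.Finite := hF0.subset fun r hr => ⟨hr.1, hr.2.1⟩
  have : Finite F0 := hF0'
  obtain ⟨v, hv⟩ := Module.Dual.exists_forall_ne_zero_of_forall_exists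
    (fun r : F0 => bf M (iv r.1)) (fun r => by
      by_contra hc
      push Not at hc
      have := h.nondeg hc
      have h2 := r.2.2.2
      rw [this] at h2
      simp at h2)
  -- the points near `x`
  set y : ℝ → Fin n → ℝ := fun ε => x + ε • v with hy
  have hlim1 : Tendsto (fun ε : ℝ => bf M (y ε) (y ε)) (𝓝[>] 0) (𝓝 (bf M x x)) := by
    have hc : Continuous fun ε : ℝ => bf M (y ε) (y ε) :=
      (continuous_self (M := M)).comp (by rw [hy]; fun_prop)
    have := hc.tendsto 0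
    simp only [hy, zero_smul, add_zero] at this
    exact this.mono_left nhdsWithin_le_nhds
  have hlim2 : ∀ w : Fin n → ℝ, Tendsto (fun ε : ℝ => bf M w (y ε)) (𝓝[>] 0) (𝓝 (bf M w x)) := by
    intro w
    have hc : Continuous fun ε : ℝ => bf M w (y ε) := by
      simp only [hy, map_add, map_smul, smul_eq_mul]
      fun_prop
    have := hc.tendsto 0
    simp only [hy, zero_smul, add_zero] at this
    exact this.mono_left nhdsWithin_le_nhds
  have e1 : ∀ᶠ ε in 𝓝[>] (0 : ℝ), bf M x x / 2 < bf M (y ε) (y ε) :=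
    hlim1.eventually_const_lt (by linarith)
  have e2 : ∀ᶠ ε in 𝓝[>] (0 : ℝ), bf M x (y ε) < 2 * bf M x x :=
    (hlim2 x).eventually_lt_const (by linarith)
  have e3 : ∀ᶠ ε in 𝓝[>] (0 : ℝ), 0 < bf M x (y ε) :=
    (hlim2 x).eventually_const_lt hx
  have hF1 := finite_lattice h hx k (k * (8 * bf M x x))
  have e4 : ∀ᶠ ε in 𝓝[>] (0 : ℝ), ∀ r ∈ {r : Fin n → ℤ | -k ≤ bf M (iv r) (iv r) ∧
      (bf M (iv r) x) ^ 2 ≤ k * (8 * bf M x x)}, 0 < bf M (iv r) x → 0 < bf M (iv r) (y ε) := by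
    rw [eventually_all_finite hF1]
    intro r _
    by_cases hr : 0 < bf M (iv r) x
    · filter_upwards [(hlim2 (iv r)).eventually_const_lt hr] with ε hε _
      exact hε
    · exact Eventually.of_forall fun _ h0 => absurd h0 hr
  obtain ⟨ε, h1, h2, h3, h4, h5⟩ := (e1.and (e2.and (e3.and (e4.and
    (self_mem_nhdsWithin : ∀ᶠ ε in 𝓝[>] (0 : ℝ), ε ∈ Set.Ioi (0 : ℝ)))))).exists
  have h5' : 0 < ε := h5
  have hyy : 0 < bf M (y ε) (y ε) := by linarith
  -- positivity is kept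
  have hkeep : ∀ r : Fin n → ℤ, IsRoot M k r → 0 < bf M (iv r) x → 0 < bf M (iv r) (y ε) := by
    intro r hr hrx
    by_contra hc
    push Not at hc
    have h6 := h.between hx hyy h3 (q := iv r) hr.2.1.le hrx hc
    have h7 : bf M x (y ε) ^ 2 / bf M (y ε) (y ε) ≤ 8 * bf M x x := by
      rw [div_le_iff₀ hyy]
      nlinarith
    have h8 : (bf M (iv r) x) ^ 2 ≤ k * (8 * bf M x x) := by
      calc (bf M (iv r) x) ^ 2 ≤ -bf M (iv r) (iv r) * (bf M x (y ε) ^ 2 / bf M (y ε) (y ε)) := h6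
        _ ≤ -bf M (iv r) (iv r) * (8 * bf M x x) := by
          apply mul_le_mul_of_nonneg_left h7
          linarith [hr.2.1]
        _ ≤ _ := by
          apply mul_le_mul_of_nonneg_right _ (by positivity)
          linarith [hr.1]
    have h9 := h4 r ⟨hr.1, h8⟩ hrx
    linarith
  refine ⟨y ε, hyy, ?_, ?_⟩
  · rintro _ ⟨r, hr, rfl⟩
    obtain ⟨c, hc, hcr⟩ := nrm_sign hr.2.1 (y ε)
    rw [hcr]
    apply mul_ne_zero hc.ne'
    rcases lt_trichotomy (bf M (iv r) x) 0 with h6 | h6 | h6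
    · -- the negative root
      have hiv : iv (-r) = -iv r := by
        funext i
        simp [iv]
      have hr' : IsRoot M k (-r) := by
        refine ⟨?_, ?_, ?_⟩
        · rw [hiv]
          simpa using hr.1
        · rw [hiv]
          simpa using hr.2.1
        · intro x
          obtain ⟨z, hz⟩ := hr.2.2 x
          refine ⟨z, ?_⟩
          rw [hz, hiv]
          unfold rfl'
          simp [neg_div]
      have h7 := hkeep (-r) hr' (by
        rw [hiv, map_neg, LinearMap.neg_apply]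
        linarith)
      rw [hiv, map_neg, LinearMap.neg_apply] at h7
      intro h0
      linarith
    · have h7 := hv ⟨r, hr.1, by rw [h6]; norm_num, hr.2.1⟩
      simp only at h7
      rw [hy]
      simp only [map_add, map_smul, smul_eq_mul]
      rw [h6, zero_add]
      exact mul_ne_zero h5'.ne' h7
    · exact (hkeep r hr h6).ne'
  · rintro _ ⟨r, hr, rfl⟩ h6
    obtain ⟨c, hc, hcr⟩ := nrm_sign hr.2.1 (y ε)
    obtain ⟨c', hc', hcr'⟩ := nrm_sign hr.2.1 x
    rw [hcr]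
    rw [hcr'] at h6
    exact mul_pos hc (hkeep r hr ((mul_pos_iff_of_pos_left hc').mp h6))

end Pool.Agent.V5helper2.HR
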