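import Pool.Agent.V5helper2.HR.Norm
import Pool.Agent.Y820.LB.Closure

/-!
# Limits of spectral radii
-/

set_option autoImplicit false

namespace Pool.Agent.V5helper2.HR

open Polynomial Filter Topology Pool.Agent.Y820.LB Pool.Agent.H261R2.CM

noncomputable section

/-- bounded integer sequences are constant on a set of the ultrafilter -/
theorem ultra_const (f : ℕ → ℤ) (M : ℤ) (hf : ∀ n, |f n| ≤ M) :
    ∃ z : ℤ, ∀ᶠ n in (hyperfilter ℕ : Filter ℕ), f n = z := by
  have h1 : (⋃ z ∈ Set.Icc (-M) M, {n | f n = z}) ∈ hyperfilter ℕ := by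
    have h2 : (⋃ z ∈ Set.Icc (-M) M, {n | f n = z}) = Set.univ := by
      ext n
      simp only [Set.mem_iUnion, Set.mem_Icc, Set.mem_ofPred_eq, Set.mem_univ, iff_true]
      exact ⟨f n, abs_le.mp (hf n), rfl⟩
    rw [h2]
    exact univ_mem
  obtain ⟨z, _, hz⟩ := (Ultrafilter.finite_biUnion_mem_iff (Set.finite_Icc (-M) M)).mp h1
  exact ⟨z, hz⟩

theorem ultra_real (f : ℕ → ℝ) (M : ℝ) (hf : ∀ n, |f n| ≤ M) :
    ∃ z : ℝ, Tendsto f (hyperfilter ℕ : Filter ℕ) (𝓝 z) := by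
  obtain ⟨z, _, hz⟩ := (isCompact_Icc (a := -M) (b := M)).ultrafilter_le_nhds
    ((hyperfilter ℕ).map f) (by
      rw [le_principal_iff]
      show f ⁻¹' (Set.Icc (-M) M) ∈ (hyperfilter ℕ : Filter ℕ)
      have : f ⁻¹' (Set.Icc (-M) M) = Set.univ := by
        ext n
        simp only [Set.mem_preimage, Set.mem_Icc, Set.mem_univ, iff_true]
        exact abs_le.mp (hf n)
      rw [this]
      exact univ_mem)
  exact ⟨z, hz⟩

theorem Ur_continuous (i : ℕ) : Continuous fun a : ℝ => Ur a i := by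
  induction i using Nat.twoStepInduction with
  | zero => exact continuous_const
  | one => exact continuous_id
  | more i h1 h2 =>
    show Continuous fun a : ℝ => a * Ur a (i + 1) - Ur a i
    exact (continuous_id.mul h2).sub h1

/-- sequences of integers with bounded sums of absolute values are polynomials -/
theorem exists_poly (f : ℕ → ℤ) (N : ℤ) (hf : ∀ m, ∑ i ∈ Finset.range m, |f i| ≤ N) :
    ∃ a : ℤ[X], ∀ i, a.coeff i = f i := by
  have h1 : Summable fun i => (|f i| : ℝ) := by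
    refine summable_of_sum_range_le (c := N) (fun i => by positivity) fun m => ?_
    have := hf m
    exact_mod_cast this
  have h2 := h1.tendsto_atTop_zero
  obtain ⟨M, hM⟩ := (h2.eventually_lt_const one_pos).exists_forall_of_atTop
  have h3 : ∀ i, M ≤ i → f i = 0 := by
    intro i hi
    have h4 := hM i hi
    have h5 : |f i| < 1 := by exact_mod_cast h4
    exact Int.abs_lt_one_iff.mp h5
  refine ⟨∑ i ∈ Finset.range M, monomial i (f i), fun i => ?_⟩
  rw [finsetSum_coeff]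
  simp only [coeff_monomial]
  rw [Finset.sum_ite_eq' (Finset.range M) i]
  split_ifs with h
  · rfl
  · rw [Finset.mem_range, not_lt] at h
    exact (h3 i h).symm

theorem sum_shift_le_len (P : ℤ[X]) (k m : ℕ) :
    ∑ i ∈ Finset.range m, |P.coeff (i + k)| ≤ len P := by
  rw [len_eq P (max (P.natDegree + 1) (m + k)) (lt_of_lt_of_le (Nat.lt_succ_self _) (le_max_left _ _))]
  have h1 : ∑ i ∈ Finset.range m, |P.coeff (i + k)| =
      ∑ i ∈ (Finset.range m).map ⟨fun i => i + k, fun a b h => by simpa using h⟩, |P.coeff i| := by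
    rw [Finset.sum_map]
    rfl
  rw [h1]
  refine Finset.sum_le_sum_of_subset_of_nonneg ?_ fun _ _ _ => abs_nonneg _
  intro i hi
  rw [Finset.mem_map] at hi
  obtain ⟨j, hj, rfl⟩ := hi
  rw [Finset.mem_range] at hj ⊢
  exact lt_of_lt_of_le (Nat.add_lt_add_right hj k) (le_max_right _ _)

/-- the data of an element of the closure -/
def LimData (x : ℝ) : Prop :=
  ∃ (a b : ℤ[X]) (c : ℕ → ℤ) (t L : ℝ), a.coeff 0 ≠ 0 ∧
    (a : PowerSeries ℤ) * PowerSeries.mk c = (b : PowerSeries ℤ) ∧ 1 ≤ |t| ∧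
    ∀ i : ℕ, |(c i : ℝ) - t * Ur (x + x⁻¹) i| ≤ (i + 1) * L

theorem Kl_limit {κ : ℝ → ℝ} (hκ : Monotone κ) {x : ℝ} (hx : x ∈ closure (Kl κ)) (hx1 : 1 < x) :
    LimData x := by
  obtain ⟨u0, hu0, hlim0⟩ := mem_closure_iff_seq_limit.mp hx
  obtain ⟨N0, hN0⟩ := (hlim0.eventually_lt_const (show x < x + 1 by linarith)).exists_forall_of_atTop
  obtain ⟨u, hu⟩ : ∃ u : ℕ → ℝ, u = fun n => u0 (n + N0) := ⟨_, rfl⟩
  have huK : ∀ n, u n ∈ Kl κ := fun n => by rw [hu]; exact hu0 _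
  have huB : ∀ n, u n < x + 1 := fun n => by rw [hu]; exact hN0 _ (by omega)
  have hulim : Tendsto u atTop (𝓝 x) := by
    rw [hu]
    exact hlim0.comp (tendsto_add_atTop_nat N0)
  have hle : (hyperfilter ℕ : Filter ℕ) ≤ atTop := by
    rw [← Nat.cofinite_eq_atTop]
    exact hyperfilter_le_cofinite
  have hulim' : Tendsto u (hyperfilter ℕ : Filter ℕ) (𝓝 x) := hulim.mono_left hle
  set L : ℝ := 4 * κ (x + 1) + (x + 1) ^ 2 with hL
  have hdata : ∀ n, ∃ (A0 B0 : ℤ[X]) (c : ℕ → ℤ) (t : ℝ), A0 ≠ 0 ∧ B0 ≠ 0 ∧ IsRelPrime A0 B0 ∧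
      mx1 A0 B0 ≤ Real.log (x + 1) + subC (toC h2) 1 L ∧
      (A0 : PowerSeries ℤ) * PowerSeries.mk c = (B0 : PowerSeries ℤ) ∧ 1 ≤ |t| ∧ |t| ≤ L ∧
      ∀ i : ℕ, |(c i : ℝ) - t * Ur (u n + (u n)⁻¹) i| ≤ (i + 1) * L := by
    intro n
    obtain ⟨h1, m, S, A, A', up, um, v, hs, hv1, hv2⟩ := Kl_norm (huK n)
    have hB := (huB n).le
    have hLL : 4 * κ (u n) + u n ^ 2 ≤ L := by
      have e1 := hκ hB
      have e2 : u n ^ 2 ≤ (x + 1) ^ 2 := pow_le_pow_left₀ (by linarith) hB 2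
      rw [hL]
      linarith
    have hv2' := hv2.trans hLL
    have hv0 : wt S up um (iv v) ≠ 0 := by
      intro h0
      rw [h0, abs_zero] at hv1
      linarith
    obtain ⟨A0, B0, c, e1, e2, e3, e4, e5, e6, e7⟩ := hs.core hv0 hv2'
    refine ⟨A0, B0, c, wt S up um (iv v), e1, e2, e3, ?_, e6, hv1, ?_, e7⟩
    · rw [abs_of_pos (by linarith)] at e5
      rw [e5] at e4
      have := Real.log_le_log (by linarith) hB
      linarith
    · have := hs.off_nonneg (iv v)
      linarith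
  choose A B c t hA hB hAB hmx hser ht1 htL hbd using hdata
  obtain ⟨N, hN⟩ := pair_structure (Real.log (x + 1) + subC (toC h2) 1 L) 1 one_pos
  have hΦ := fun n => hN (A n) (B n) (hA n) (hB n) (hAB n) (hmx n)
  choose Φ hΦ0 _ hΦA hΦB using hΦ
  set k : ℕ → ℕ := fun n => (A n * Φ n).natTrailingDegree with hk
  set α : ℕ → ℕ → ℤ := fun n i => (A n * Φ n).coeff (i + k n) with hα
  set β : ℕ → ℕ → ℤ := fun n i => (B n * Φ n).coeff (i + k n) with hβ
  have hα0 : ∀ n, α n 0 ≠ 0 := by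
    intro n
    show (A n * Φ n).coeff (0 + k n) ≠ 0
    rw [zero_add]
    have h1 : (A n * Φ n).trailingCoeff ≠ 0 := by
      rw [Ne, trailingCoeff_eq_zero]
      exact mul_ne_zero (hA n) (hΦ0 n)
    exact h1
  have hser' : ∀ n, PowerSeries.mk (α n) * PowerSeries.mk (c n) = PowerSeries.mk (β n) := by
    intro n
    have h1 : ((A n * Φ n : ℤ[X]) : PowerSeries ℤ) = PowerSeries.X ^ (k n) * PowerSeries.mk (α n) := by
      ext m
      rw [PowerSeries.coeff_X_pow_mul', Polynomial.coeff_coe]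
      split_ifs with h
      · rw [PowerSeries.coeff_mk]
        show _ = (A n * Φ n).coeff (m - k n + k n)
        rw [Nat.sub_add_cancel h]
      · exact coeff_eq_zero_of_lt_natTrailingDegree (not_le.mp h)
    have h2 : ((B n * Φ n : ℤ[X]) : PowerSeries ℤ) =
        PowerSeries.X ^ (k n) * (PowerSeries.mk (α n) * PowerSeries.mk (c n)) := by
      rw [← mul_assoc, ← h1, Polynomial.coe_mul, Polynomial.coe_mul, ← hser n]
      ring
    ext m
    have h3 := congrArg (PowerSeries.coeff (m + k n)) h2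
    rw [PowerSeries.coeff_X_pow_mul, Polynomial.coeff_coe] at h3
    rw [PowerSeries.coeff_mk, ← h3]
  have hαN : ∀ n m, ∑ i ∈ Finset.range m, |α n i| ≤ N := fun n m =>
    (sum_shift_le_len _ _ _).trans (hΦA n)
  have hβN : ∀ n m, ∑ i ∈ Finset.range m, |β n i| ≤ N := fun n m =>
    (sum_shift_le_len _ _ _).trans (hΦB n)
  have hone : ∀ (f : ℕ → ℕ → ℤ), (∀ n m, ∑ i ∈ Finset.range m, |f n i| ≤ N) →
      ∀ n i, |f n i| ≤ N := by
    intro f hf n i
    refine le_trans ?_ (hf n (i + 1))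
    exact Finset.single_le_sum (f := fun i => |f n i|) (fun _ _ => abs_nonneg _)
      (Finset.mem_range.mpr (Nat.lt_succ_self i))
  choose a ha using fun i => ultra_const (fun n => α n i) N (fun n => hone α hαN n i)
  choose b hb using fun i => ultra_const (fun n => β n i) N (fun n => hone β hβN n i)
  obtain ⟨t', ht'⟩ := ultra_real t L htL
  have hL0 : 0 ≤ L := (abs_nonneg _).trans (htL 0)
  -- the values of the Chebyshev polynomials are bounded
  have hulim1 : Tendsto (fun n => u n + (u n)⁻¹) (hyperfilter ℕ : Filter ℕ) (𝓝 (x + x⁻¹)) :=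
    hulim'.add (hulim'.inv₀ (by linarith))
  have hulim2 : Tendsto (fun n => u n + (u n)⁻¹) atTop (𝓝 (x + x⁻¹)) :=
    hulim.add (hulim.inv₀ (by linarith))
  have hUr : ∀ i, Tendsto (fun n => Ur (u n + (u n)⁻¹) i) (hyperfilter ℕ : Filter ℕ)
      (𝓝 (Ur (x + x⁻¹) i)) := fun i => ((Ur_continuous i).tendsto _).comp hulim1
  have hUrb : ∀ i, ∃ M : ℝ, ∀ n, |Ur (u n + (u n)⁻¹) i| ≤ M := by
    intro i
    have h1 : Tendsto (fun n => Ur (u n + (u n)⁻¹) i) atTop (𝓝 (Ur (x + x⁻¹) i)) :=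
      ((Ur_continuous i).tendsto _).comp hulim2
    obtain ⟨M, hM⟩ := h1.abs.bddAbove_range
    exact ⟨M, fun n => hM ⟨n, rfl⟩⟩
  have hcb : ∀ i, ∃ M : ℤ, ∀ n, |c n i| ≤ M := by
    intro i
    obtain ⟨M, hM⟩ := hUrb i
    refine ⟨⌈L * M + (i + 1) * L⌉, fun n => ?_⟩
    have h1 := hbd n i
    have h2 : |(c n i : ℝ)| ≤ |t n * Ur (u n + (u n)⁻¹) i| + (i + 1) * L := by
      have e1 : |(c n i : ℝ)| = |((c n i : ℝ) - t n * Ur (u n + (u n)⁻¹) i) +
          t n * Ur (u n + (u n)⁻¹) i| := by ring_nf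
      rw [e1]
      refine (abs_add_le _ _).trans ?_
      linarith
    have h3 : |t n * Ur (u n + (u n)⁻¹) i| ≤ L * M := by
      rw [abs_mul]
      exact mul_le_mul (htL n) (hM n) (abs_nonneg _) hL0
    have h4 : |(c n i : ℝ)| ≤ ⌈L * M + (i + 1) * L⌉ := by
      refine le_trans ?_ (Int.le_ceil _)
      linarith
    exact_mod_cast h4
  choose M hM using hcb
  choose c' hc' using fun i => ultra_const (fun n => c n i) (M i) (hM i)
  -- polynomials
  have hsum : ∀ (f : ℕ → ℕ → ℤ) (g : ℕ → ℤ), (∀ n m, ∑ i ∈ Finset.range m, |f n i| ≤ N) →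
      (∀ i, ∀ᶠ n in (hyperfilter ℕ : Filter ℕ), f n i = g i) →
      ∀ m, ∑ i ∈ Finset.range m, |g i| ≤ N := by
    intro f g hf hg m
    have h1 : ∀ᶠ n in (hyperfilter ℕ : Filter ℕ), ∀ i ∈ Finset.range m, f n i = g i :=
      (Finset.eventually_all (Finset.range m)).mpr fun i _ => hg i
    obtain ⟨n, hn⟩ := h1.exists
    have h2 : ∑ i ∈ Finset.range m, |f n i| = ∑ i ∈ Finset.range m, |g i| :=
      Finset.sum_congr rfl fun i hi => by rw [hn i hi]
    rw [← h2]
    exact hf n m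
  obtain ⟨pa, hpa⟩ := exists_poly a N (hsum α a hαN ha)
  obtain ⟨pb, hpb⟩ := exists_poly b N (hsum β b hβN hb)
  refine ⟨pa, pb, c', t', L, ?_, ?_, ?_, ?_⟩
  · rw [hpa]
    obtain ⟨n, hn⟩ := (ha 0).exists
    rw [← hn]
    exact hα0 n
  · ext m
    rw [PowerSeries.coeff_mul, Polynomial.coeff_coe, hpb]
    simp only [Polynomial.coeff_coe, PowerSeries.coeff_mk, hpa]
    have h1 : ∀ᶠ n in (hyperfilter ℕ : Filter ℕ), ∀ p ∈ (Finset.HasAntidiagonal.antidiagonal m),
        α n p.1 = a p.1 ∧ c n p.2 = c' p.2 :=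
      (Finset.eventually_all ((Finset.HasAntidiagonal.antidiagonal m))).mpr fun p _ => (ha p.1).and (hc' p.2)
    obtain ⟨n, hn, hn2⟩ := (h1.and (hb m)).exists
    have h2 := congrArg (PowerSeries.coeff m) (hser' n)
    rw [PowerSeries.coeff_mul] at h2
    simp only [PowerSeries.coeff_mk] at h2
    rw [← hn2, ← h2]
    refine Finset.sum_congr rfl fun p hp => ?_
    rw [(hn p hp).1, (hn p hp).2]
  · exact ge_of_tendsto ht'.abs (Eventually.of_forall ht1)
  · intro i
    have h1 : Tendsto (fun n => (c n i : ℝ)) (hyperfilter ℕ : Filter ℕ) (𝓝 (c' i : ℝ)) := by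
      refine tendsto_const_nhds.congr' ?_
      filter_upwards [hc' i] with n hn
      rw [hn]
    exact le_of_tendsto (h1.sub (ht'.mul (hUr i))).abs (Eventually.of_forall fun n => hbd n i)

end

end Pool.Agent.V5helper2.HR
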