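import Pool.Agent.V5helper2.HR.Free

/-!
# Lorentzian forms
-/

set_option autoImplicit false

namespace Pool.Agent.V5helper2.HR

section abstract

variable {V : Type*} [AddCommGroup V] [Module ℝ V]

/-- symmetric forms of signature `(1, m)` -/
def Lor (B : LinearMap.BilinForm ℝ V) : Prop :=
  (∀ x z, B x z = B z x) ∧ ∃ p, 0 < B p p ∧ ∀ y, y ≠ 0 → B p y = 0 → B y y < 0

variable {B : LinearMap.BilinForm ℝ V}

theorem Lor.neg_of_orth (h : Lor B) {e y : V} (he : 0 < B e e) (hy : y ≠ 0) (hey : B e y = 0) :
    B y y < 0 := by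
  obtain ⟨hB, p, hp, hneg⟩ := h
  set z := (B p y) • e - (B p e) • y with hz
  have h1 : B p z = 0 := by
    rw [hz, map_sub, map_smul, map_smul, smul_eq_mul, smul_eq_mul]
    ring
  have h2 : B z z = B p y ^ 2 * B e e + B p e ^ 2 * B y y := by
    rw [hz]
    simp only [map_sub, map_smul, LinearMap.sub_apply, LinearMap.smul_apply, smul_eq_mul]
    rw [hB y e, hey]
    ring
  by_cases hz0 : z = 0
  · have h3 : B z e = 0 := by rw [hz0, map_zero, LinearMap.zero_apply]
    rw [hz] at h3
    simp only [map_sub, map_smul, LinearMap.sub_apply, LinearMap.smul_apply, smul_eq_mul] at h3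
    rw [hB y e, hey, mul_zero, sub_zero] at h3
    rcases mul_eq_zero.mp h3 with h4 | h4
    · exact hneg y hy h4
    · exact absurd h4 he.ne'
  · have h3 := hneg z hz0 h1
    rw [h2] at h3
    by_contra hc
    push Not at hc
    have : 0 ≤ B p y ^ 2 * B e e + B p e ^ 2 * B y y := by positivity
    linarith

theorem Lor.nonpos_of_orth (h : Lor B) {e y : V} (he : 0 < B e e) (hey : B e y = 0) :
    B y y ≤ 0 := by
  by_cases hy : y = 0
  · rw [hy]
    simp
  · exact (h.neg_of_orth he hy hey).le

theorem Lor.parallel (h : Lor B) {x z : V} (hx : B x x = 0) (hz : B z z = 0) (hxz : B x z = 0)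
    (hz0 : z ≠ 0) : ∃ c : ℝ, x = c • z := by
  obtain ⟨hB, p, hp, hneg⟩ := h
  have hpz : B p z ≠ 0 := fun h0 => by
    have := hneg z hz0 h0
    linarith
  set w := (B p z) • x - (B p x) • z with hw
  have h1 : B p w = 0 := by
    rw [hw, map_sub, map_smul, map_smul, smul_eq_mul, smul_eq_mul]
    ring
  have h2 : B w w = 0 := by
    rw [hw]
    simp only [map_sub, map_smul, LinearMap.sub_apply, LinearMap.smul_apply, smul_eq_mul]
    rw [hB z x, hx, hz, hxz]
    ring
  have h3 : w = 0 := by
    by_contra h0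
    have := hneg w h0 h1
    linarith
  refine ⟨B p x / B p z, ?_⟩
  have h4 : (B p z) • x = (B p x) • z := by
    rw [hw] at h3
    exact sub_eq_zero.mp h3
  calc x = (B p z)⁻¹ • ((B p z) • x) := by rw [smul_smul, inv_mul_cancel₀ hpz, one_smul]
    _ = _ := by rw [h4, smul_smul]; congr 1; field_simp

theorem Lor.nondeg (h : Lor B) {x : V} (hx : ∀ z, B x z = 0) : x = 0 := by
  obtain ⟨hB, p, hp, hneg⟩ := h
  by_contra h0
  have := hneg x h0 (by rw [hB]; exact hx p)
  rw [hx x] at this
  exact lt_irrefl _ this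

/-- Cauchy-Schwarz on the orthogonal complement of a positive vector -/
theorem Lor.cs (h : Lor B) {w a b : V} (hw : 0 < B w w) (ha : B w a = 0) (hb : B w b = 0) :
    (B a b) ^ 2 ≤ B a a * B b b := by
  have hB := h.1
  by_cases hb0 : b = 0
  · rw [hb0]
    simp
  have h1 := h.neg_of_orth hw hb0 hb
  set v := (B b b) • a - (B a b) • b with hv
  have h2 : B w v = 0 := by
    rw [hv, map_sub, map_smul, map_smul, smul_eq_mul, smul_eq_mul, ha, hb]
    ring
  have h3 : B v v = B b b * (B b b * B a a - (B a b) ^ 2) := by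
    rw [hv]
    simp only [map_sub, map_smul, LinearMap.sub_apply, LinearMap.smul_apply, smul_eq_mul]
    rw [hB b a]
    ring
  have h4 := h.nonpos_of_orth hw h2
  rw [h3] at h4
  by_contra hc
  push Not at hc
  have : 0 < B b b * (B b b * B a a - (B a b) ^ 2) := mul_pos_of_neg_of_neg h1 (by nlinarith)
  linarith

/-- strict inequality for different unit normals -/
theorem Lor.cs_strict (h : Lor B) {w a b : V} (hw : 0 < B w w) (ha : B w a = 0) (hb : B w b = 0)
    (ha1 : B a a = -1) (hb1 : B b b = -1) (hab : a ≠ b) (hab' : a ≠ -b) : |B a b| < 1 := by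
  have hB := h.1
  set t := B a b with ht
  set v := a + t • b with hv
  have h2 : B w v = 0 := by
    rw [hv, map_add, map_smul, smul_eq_mul, ha, hb]
    ring
  have h3 : B v v = t ^ 2 - 1 := by
    rw [hv]
    simp only [map_add, map_smul, LinearMap.add_apply, LinearMap.smul_apply, smul_eq_mul]
    rw [hB b a, ha1, hb1, ← ht]
    ring
  by_cases hv0 : v = 0
  · exfalso
    rw [hv0, map_zero] at h3
    have h4 : (t - 1) * (t + 1) = 0 := by linear_combination -h3
    have h5 : a = -(t • b) := eq_neg_of_add_eq_zero_left (by rw [← hv]; exact hv0)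
    rcases mul_eq_zero.mp h4 with h6 | h6
    · apply hab'
      rw [h5, sub_eq_zero.mp h6, one_smul]
    · apply hab
      rw [h5, eq_neg_of_add_eq_zero_left h6, neg_smul, one_smul, neg_neg]
  · have h4 := h.neg_of_orth hw hv0 h2
    rw [h3] at h4
    rw [abs_lt]
    constructor <;> nlinarith

theorem image_pos {y r : V} (hy : 0 < B y y) :
    0 < B y (s B r y) := by
  unfold s
  rw [map_add, map_smul, smul_eq_mul]
  nlinarith [sq_nonneg (B y r)]

theorem Lor.hcs (h : Lor B) {R : Set V} (h1 : ∀ r ∈ R, B r r = -1) {y : V} (hy : 0 < B y y) :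
    ∀ r ∈ R, ∀ f : ℝ, 0 < f → ∀ α ∈ R, ∀ β ∈ R, B α (s B r y + f • y) = 0 →
      B β (s B r y + f • y) = 0 → α ≠ β → α ≠ -β → |B α β| < 1 := by
  intro r hr f hf α hα β hβ h2 h3 h4 h5
  have hB := h.1
  refine h.cs_strict (w := s B r y + f • y) ?_ (by rw [hB]; exact h2) (by rw [hB]; exact h3)
    (h1 α hα) (h1 β hβ) h4 h5
  have h6 := image_pos (r := r) hy
  have h7 := s_form hB (h1 r hr) y y
  simp only [map_add, map_smul, LinearMap.add_apply, LinearMap.smul_apply, smul_eq_mul]
  rw [h7, hB (s B r y) y]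
  have : 0 < f * B y (s B r y) := by positivity
  have : 0 < f * (f * B y y) := by positivity
  linarith

/-- bound for the distance from `y` of the mirrors between `y` and `z` -/
theorem Lor.between (h : Lor B) {y z q : V} (hy : 0 < B y y) (hz : 0 < B z z) (hyz : 0 < B y z)
    (hq : B q q ≤ 0) (hqy : 0 < B q y) (hqz : B q z ≤ 0) :
    (B q y) ^ 2 ≤ -B q q * ((B y z ^ 2) / B z z) := by
  have hB := h.1
  set f : ℝ := -B q z / B q y with hf
  have hf0 : 0 ≤ f := div_nonneg (by linarith) hqy.le
  have hfq : f * B q y = -B q z := by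
    rw [hf]
    field_simp
  set w := z + f • y with hw
  have hww : B w w = B z z + 2 * f * B y z + f ^ 2 * B y y := by
    rw [hw]
    simp only [map_add, map_smul, LinearMap.add_apply, LinearMap.smul_apply, smul_eq_mul]
    rw [hB z y]
    ring
  have hwz : B z z ≤ B w w := by
    rw [hww]
    have : 0 ≤ 2 * f * B y z := by positivity
    have : 0 ≤ f ^ 2 * B y y := by positivity
    linarith
  have hw0 : 0 < B w w := by linarith
  have hqw : B w q = 0 := by
    rw [hw, hB]
    simp only [map_add, map_smul, smul_eq_mul]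
    rw [hfq]
    ring
  set y' := y - (B y w / B w w) • w with hy'
  have h1 : B w y' = 0 := by
    rw [hy', map_sub, map_smul, smul_eq_mul, hB w y]
    field_simp
    ring
  have h2 : B q y' = B q y := by
    rw [hy', map_sub, map_smul, hB q w, hqw]
    simp
  have h3 := h.cs hw0 hqw h1
  rw [h2] at h3
  have h4 : B y' y' = B y y - B y w ^ 2 / B w w := by
    rw [hy']
    simp only [map_sub, map_smul, LinearMap.sub_apply, LinearMap.smul_apply, smul_eq_mul]
    rw [hB w y]
    field_simp
    ring
  have h5 : B y w ^ 2 - B y y * B w w = B y z ^ 2 - B y y * B z z := by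
    rw [hww, hw]
    simp only [map_add, map_smul, smul_eq_mul]
    ring
  have h6 : -B y' y' ≤ B y z ^ 2 / B z z := by
    rw [h4]
    have h7 : -(B y y - B y w ^ 2 / B w w) = (B y w ^ 2 - B y y * B w w) / B w w := by
      field_simp
      ring
    rw [h7, h5]
    have h8 : (B y z ^ 2 - B y y * B z z) / B w w ≤ B y z ^ 2 / B w w := by
      gcongr
      have : 0 < B y y * B z z := by positivity
      linarith
    refine h8.trans ?_
    gcongr
  calc (B q y) ^ 2 ≤ B q q * B y' y' := h3
    _ = -B q q * -B y' y' := by ring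
    _ ≤ _ := by
      apply mul_le_mul_of_nonneg_left h6
      linarith

end abstract

end Pool.Agent.V5helper2.HR
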