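import Pool.Agent.V5helper2.HR.Grp

/-!
# Normalisation of the weight
-/

set_option autoImplicit false

namespace Pool.Agent.V5helper2.HR

open Polynomial

noncomputable section

variable {n : ℕ} {S A A' : Matrix (Fin n) (Fin n) ℤ} {τ : ℝ} {up um : Fin n → ℝ}

/-- powers -/
theorem Situ.pow (h : Situ S A A' τ up um) {j : ℕ} (hj : j ≠ 0) :
    Situ S (A ^ j) (A' ^ j) (τ ^ j) up um where
  lor := h.lor
  inv := by
    rw [← (show Commute A A' from by
      show A * A' = A' * A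
      rw [h.inv, mul_eq_one_comm.mp h.inv]).mul_pow, h.inv, one_pow]
  iso := by
    have hpow : ∀ j : ℕ, ∀ x y, bf (rm S) ((rm (A ^ j)).mulVec x) ((rm (A ^ j)).mulVec y) =
        bf (rm S) x y := by
      intro j
      induction j with
      | zero => intro x y; rw [pow_zero, rm_one, Matrix.one_mulVec, Matrix.one_mulVec]
      | succ j ih =>
        intro x y
        rw [pow_succ', rm_mul, ← Matrix.mulVec_mulVec, ← Matrix.mulVec_mulVec, h.iso, ih]
    exact hpow j
  hτ := by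
    rw [abs_pow]
    exact one_lt_pow₀ h.hτ hj
  hup := by
    clear hj
    induction j with
    | zero => rw [pow_zero, rm_one, Matrix.one_mulVec, pow_zero, one_smul]
    | succ j ih =>
      rw [pow_succ', rm_mul, ← Matrix.mulVec_mulVec, ih, Matrix.mulVec_smul, h.hup, smul_smul,
        ← pow_succ]
  hum := by
    clear hj
    induction j with
    | zero => rw [pow_zero, rm_one, Matrix.one_mulVec, pow_zero, inv_one, one_smul]
    | succ j ih =>
      rw [pow_succ', rm_mul, ← Matrix.mulVec_mulVec, ih, Matrix.mulVec_smul, h.hum, smul_smul,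
        pow_succ, mul_inv]
  pp := h.pp
  mm := h.mm
  pm := h.pm

/-- the weight of `T v` -/
theorem Situ.wt_TR (h : Situ S A A' τ up um) (v : Fin n → ℝ) :
    wt S up um (TR A A' v) = (τ + τ⁻¹) ^ 2 * wt S up um v := by
  unfold wt
  rw [h.adj, h.Tup, h.adj, h.Tum, map_smul, map_smul, smul_eq_mul, smul_eq_mul]
  ring

/-- the component orthogonal to the axis -/
theorem Situ.off (h : Situ S A A' τ up um) (v : Fin n → ℝ) :
    ∃ w, bf (rm S) w up = 0 ∧ bf (rm S) w um = 0 ∧
      (∃ α β : ℝ, v = w + α • up + β • um) ∧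
      -bf (rm S) v v - wt S up um v = -bf (rm S) w w := by
  have hB := h.lor.1
  set b := bf (rm S) up um with hb
  have hb0 : 0 < b := h.pm
  set w := v - (bf (rm S) v um / b) • up - (bf (rm S) v up / b) • um with hw
  have h3 : bf (rm S) w up = 0 := by
    rw [hw]
    simp only [map_sub, map_smul, LinearMap.sub_apply, LinearMap.smul_apply, smul_eq_mul]
    rw [h.pp, hB um up, ← hb]
    field_simp
    ring
  have h4 : bf (rm S) w um = 0 := by
    rw [hw]
    simp only [map_sub, map_smul, LinearMap.sub_apply, LinearMap.smul_apply, smul_eq_mul]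
    rw [h.mm, ← hb]
    field_simp
    ring
  have hv : v = w + (bf (rm S) v um / b) • up + (bf (rm S) v up / b) • um := by
    rw [hw]
    module
  refine ⟨w, h3, h4, ⟨_, _, hv⟩, ?_⟩
  have h5 : bf (rm S) v v = bf (rm S) w w + 2 * (bf (rm S) v um / b) * (bf (rm S) v up / b) * b := by
    have e1 : bf (rm S) v v = bf (rm S) (w + (bf (rm S) v um / b) • up + (bf (rm S) v up / b) • um)
        (w + (bf (rm S) v um / b) • up + (bf (rm S) v up / b) • um) := by
      rw [← hv]
    rw [e1]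
    simp only [map_add, map_smul, LinearMap.add_apply, LinearMap.smul_apply, smul_eq_mul]
    rw [h.pp, h.mm, hB um up, hB up w, hB um w, h3, h4, ← hb]
    ring
  rw [h5]
  unfold wt
  rw [← hb]
  field_simp
  ring

theorem Situ.off_nonneg (h : Situ S A A' τ up um) (v : Fin n → ℝ) :
    0 ≤ -bf (rm S) v v - wt S up um v := by
  obtain ⟨w, h1, h2, _, h4⟩ := h.off v
  rw [h4]
  have : bf (rm S) w w ≤ 0 := by
    apply h.lor.nonpos_of_orth h.ee_pos
    rw [h.lor.1, map_add, h1, h2, add_zero]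
  linarith

theorem Situ.off_TR (h : Situ S A A' τ up um) (v : Fin n → ℝ) :
    -bf (rm S) (TR A A' v) (TR A A' v) - wt S up um (TR A A' v) ≤
      4 * (-bf (rm S) v v - wt S up um v) := by
  have hB := h.lor.1
  obtain ⟨w, h1, h2, ⟨α, β, h3⟩, h4⟩ := h.off v
  have hT : TR A A' v = TR A A' w + (α * (τ + τ⁻¹)) • up + (β * (τ + τ⁻¹)) • um := by
    conv_lhs => rw [h3]
    rw [map_add, map_add, map_smul, map_smul, h.Tup, h.Tum, smul_smul, smul_smul]
  have h5 : bf (rm S) (TR A A' w) up = 0 := by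
    rw [h.adj, h.Tup, map_smul, h1, smul_zero]
  have h6 : bf (rm S) (TR A A' w) um = 0 := by
    rw [h.adj, h.Tum, map_smul, h2, smul_zero]
  have h7 : -bf (rm S) (TR A A' v) (TR A A' v) - wt S up um (TR A A' v) =
      -bf (rm S) (TR A A' w) (TR A A' w) := by
    have e1 : bf (rm S) (TR A A' v) (TR A A' v) = bf (rm S) (TR A A' w) (TR A A' w) +
        2 * (α * (τ + τ⁻¹)) * (β * (τ + τ⁻¹)) * bf (rm S) up um := by
      rw [hT]
      simp only [map_add, map_smul, LinearMap.add_apply, LinearMap.smul_apply, smul_eq_mul]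
      rw [h.pp, h.mm, hB um up, hB up (TR A A' w), hB um (TR A A' w), h5, h6]
      ring
    have e2 : bf (rm S) (TR A A' v) up = (β * (τ + τ⁻¹)) * bf (rm S) up um := by
      rw [hT]
      simp only [map_add, map_smul, LinearMap.add_apply, LinearMap.smul_apply, smul_eq_mul]
      rw [h.pp, hB um up, h5]
      ring
    have e3 : bf (rm S) (TR A A' v) um = (α * (τ + τ⁻¹)) * bf (rm S) up um := by
      rw [hT]
      simp only [map_add, map_smul, LinearMap.add_apply, LinearMap.smul_apply, smul_eq_mul]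
      rw [h.mm, h6]
      ring
    rw [e1]
    unfold wt
    rw [e2, e3]
    have := h.pm
    field_simp
    ring
  rw [h7, h4]
  -- parallelogram
  set x := (rm A).mulVec w with hx
  set y := (rm A').mulVec w with hy
  have hxx : bf (rm S) x x = bf (rm S) w w := h.iso w w
  have hyy : bf (rm S) y y = bf (rm S) w w := by
    have := h.iso y y
    rw [hy, h.inv1] at this
    exact this.symm
  have hxy1 : bf (rm S) (x - y) up = 0 := by
    rw [map_sub, LinearMap.sub_apply, hx, hy, h.adj2, h.adj1, h.Aup, h.hup, map_smul, map_smul, h1,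
      smul_zero, smul_zero, sub_zero]
  have hxy2 : bf (rm S) (x - y) um = 0 := by
    rw [map_sub, LinearMap.sub_apply, hx, hy, h.adj2, h.adj1, h.Aum, h.hum, map_smul, map_smul, h2,
      smul_zero, smul_zero, sub_zero]
  have h8 : bf (rm S) (x - y) (x - y) ≤ 0 := by
    apply h.lor.nonpos_of_orth h.ee_pos
    rw [h.lor.1, map_add, hxy1, hxy2, add_zero]
  rw [TR_apply, ← hx, ← hy]
  simp only [map_add, map_sub, LinearMap.add_apply, LinearMap.sub_apply] at h8 ⊢
  rw [hxx, hyy] at *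
  linarith

/-- the smallest power which makes the weight large -/
theorem exists_power {x w : ℝ} (hx : 1 < x) (hw : w ≠ 0) (hw1 : |w| < 1 / 4) :
    ∃ j : ℕ, j ≠ 0 ∧ 1 ≤ (x ^ j + (x ^ j)⁻¹) ^ 2 * |w| ∧ (x ^ j + (x ^ j)⁻¹) ^ 2 * |w| ≤ x ^ 2 := by
  classical
  have hx0 : 0 < x := by linarith
  have hex : ∃ j : ℕ, 1 ≤ (x ^ j + (x ^ j)⁻¹) ^ 2 * |w| := by
    obtain ⟨j, hj⟩ := pow_unbounded_of_one_lt (max 1 (1 / |w|)) hx
    refine ⟨j, ?_⟩
    have h1 : 1 < x ^ j := lt_of_le_of_lt (le_max_left _ _) hj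
    have h2 : 1 / |w| < x ^ j := lt_of_le_of_lt (le_max_right _ _) hj
    have hw0 : 0 < |w| := abs_pos.mpr hw
    have h3 : 1 < x ^ j * |w| := by
      rw [div_lt_iff₀ hw0] at h2
      exact h2
    have h4 : 0 < (x ^ j)⁻¹ := by positivity
    have h5 : x ^ j ≤ (x ^ j + (x ^ j)⁻¹) ^ 2 := by nlinarith
    nlinarith
  set j := Nat.find hex with hj
  have h1 := Nat.find_spec hex
  rw [← hj] at h1
  have hj0 : j ≠ 0 := by
    intro h0
    rw [h0] at h1
    norm_num at h1
    linarith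
  refine ⟨j, hj0, h1, ?_⟩
  obtain ⟨i, hi⟩ := Nat.exists_eq_succ_of_ne_zero hj0
  have h2 : ¬ 1 ≤ (x ^ i + (x ^ i)⁻¹) ^ 2 * |w| := Nat.find_min hex (by omega)
  push Not at h2
  rw [hi]
  have hxi : 0 < x ^ i := by positivity
  have h3 : x ^ (i + 1) + (x ^ (i + 1))⁻¹ ≤ x * (x ^ i + (x ^ i)⁻¹) := by
    have h4 : (x ^ (i + 1))⁻¹ ≤ x * (x ^ i)⁻¹ := by
      rw [pow_succ, mul_inv, mul_comm]
      apply mul_le_mul_of_nonneg_right _ (by positivity)
      have : x⁻¹ < 1 := inv_lt_one_of_one_lt₀ hx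
      linarith
    rw [mul_add, ← pow_succ']
    linarith
  have h5 : (x ^ (i + 1) + (x ^ (i + 1))⁻¹) ^ 2 ≤ (x * (x ^ i + (x ^ i)⁻¹)) ^ 2 := by
    apply pow_le_pow_left₀ (by positivity) h3
  calc (x ^ (i + 1) + (x ^ (i + 1))⁻¹) ^ 2 * |w| ≤ (x * (x ^ i + (x ^ i)⁻¹)) ^ 2 * |w| :=
        mul_le_mul_of_nonneg_right h5 (abs_nonneg _)
    _ = x ^ 2 * ((x ^ i + (x ^ i)⁻¹) ^ 2 * |w|) := by ring
    _ ≤ x ^ 2 * 1 := mul_le_mul_of_nonneg_left h2.le (by positivity)
    _ = x ^ 2 := mul_one _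

/-- **Normalisation.** -/
theorem Kl_norm {κ : ℝ → ℝ} {x : ℝ} (hx : x ∈ Kl κ) :
    1 < x ∧ ∃ (n : ℕ) (S A A' : Matrix (Fin n) (Fin n) ℤ) (up um : Fin n → ℝ) (v : Fin n → ℤ),
      Situ S A A' x up um ∧ 1 ≤ |wt S up um (iv v)| ∧
        -bf (rm S) (iv v) (iv v) - wt S up um (iv v) + |wt S up um (iv v)| ≤ 4 * κ x + x ^ 2 := by
  obtain ⟨hx1, n, S, A, A', up, um, v, h, hv, hL⟩ := hx
  refine ⟨hx1, n, S, A, A', up, um, ?_⟩
  have h0 := h.off_nonneg (iv v)
  have hw0 : 0 < |wt S up um (iv v)| := abs_pos.mpr hv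
  by_cases h1 : 1 ≤ |wt S up um (iv v)|
  · exact ⟨v, h, h1, by nlinarith⟩
  push Not at h1
  by_cases h2 : 1 / 4 ≤ |wt S up um (iv v)|
  · refine ⟨(2 : ℤ) • v, h, ?_, ?_⟩
    · have h3 : wt S up um (iv ((2 : ℤ) • v)) = 4 * wt S up um (iv v) := by
        rw [iv_smul]
        unfold wt
        simp only [map_smul, LinearMap.smul_apply, smul_eq_mul]
        push_cast
        ring
      rw [h3, abs_mul, abs_of_pos (by norm_num : (0:ℝ) < 4)]
      linarith
    · have h3 : wt S up um (iv ((2 : ℤ) • v)) = 4 * wt S up um (iv v) := by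
        rw [iv_smul]
        unfold wt
        simp only [map_smul, LinearMap.smul_apply, smul_eq_mul]
        push_cast
        ring
      have h4 : bf (rm S) (iv ((2 : ℤ) • v)) (iv ((2 : ℤ) • v)) = 4 * bf (rm S) (iv v) (iv v) := by
        rw [iv_smul]
        simp only [map_smul, LinearMap.smul_apply, smul_eq_mul]
        push_cast
        ring
      rw [h3, h4, abs_mul, abs_of_pos (by norm_num : (0:ℝ) < 4)]
      nlinarith
  push Not at h2
  obtain ⟨j, hj0, hj1, hj2⟩ := exists_power hx1 hv h2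
  have hp := h.pow hj0
  have h3 := hp.wt_TR (iv v)
  have h4 := hp.off_TR (iv v)
  have h5 : TR (A ^ j) (A' ^ j) (iv v) = iv ((A ^ j + A' ^ j).mulVec v) := by
    unfold TR
    rw [Matrix.toLin'_apply, rm_iv]
  rw [h5] at h3 h4
  have h6 : |wt S up um (iv ((A ^ j + A' ^ j).mulVec v))| =
      (x ^ j + (x ^ j)⁻¹) ^ 2 * |wt S up um (iv v)| := by
    rw [h3, abs_mul, abs_of_nonneg (sq_nonneg _)]
  refine ⟨(A ^ j + A' ^ j).mulVec v, h, ?_, ?_⟩
  · rw [h6]
    exact hj1
  · rw [h6]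
    linarith

end

end Pool.Agent.V5helper2.HR
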