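import Pool.Agent.V5helper2.HR.Sit

/-!
# The minimal polynomial of `A + A⁻¹`
-/

set_option autoImplicit false

namespace Pool.Agent.V5helper2.HR

open Polynomial

noncomputable section

variable {n : ℕ} {S A A' : Matrix (Fin n) (Fin n) ℤ} {τ : ℝ} {up um : Fin n → ℝ}

theorem algebraMap_ZQ : (algebraMap ℤ ℚ) = Int.castRingHom ℚ := rfl

/-- eigenvalues of the operator are real -/
theorem Situ.real_eig (h : Situ S A A' τ up um) (z : ℂ)
    (hz : ((rm (A + A')).map (algebraMap ℝ ℂ)).charpoly.eval z = 0) :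
    z.im = 0 ∧ (z.re = τ + τ⁻¹ ∨ |z.re| ≤ 2) := by
  obtain ⟨a, b, hab, ha, hb⟩ := complex_eig (rm (A + A')) z hz
  have hB := h.lor.1
  set p := z.re with hp
  set q := z.im with hq
  have ha' : TR A A' a = p • a - q • b := by
    unfold TR
    rw [Matrix.toLin'_apply, ha]
  have hb' : TR A A' b = q • a + p • b := by
    unfold TR
    rw [Matrix.toLin'_apply, hb]
  have hTe : TR A A' (up + um) = (τ + τ⁻¹) • (up + um) := by
    rw [map_add, h.Tup, h.Tum, smul_add]
  have e1 := h.adj a b
  rw [ha', hb'] at e1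
  have e2 := h.adj a (up + um)
  rw [ha', hTe] at e2
  have e3 := h.adj b (up + um)
  rw [hb', hTe] at e3
  simp only [map_sub, map_add (bf (rm S)), map_smul, LinearMap.add_apply, LinearMap.sub_apply,
    LinearMap.smul_apply, smul_eq_mul] at e1 e2 e3
  rw [map_add, map_smul, map_smul, smul_eq_mul, smul_eq_mul] at e1
  set x := bf (rm S) a (up + um) with hx
  set y := bf (rm S) b (up + um) with hy
  have f1 : q * (bf (rm S) a a + bf (rm S) b b) = 0 := by linear_combination -e1
  have f2 : q * (x ^ 2 + y ^ 2) = 0 := by linear_combination -y * e2 + x * e3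
  obtain ⟨c, hc, hpos⟩ := pos_bound h.lor h.ee_pos
  have g1 := hpos a
  have g2 := hpos b
  have hq0 : q = 0 := by
    by_contra hne
    have f3 := (mul_eq_zero.mp f1).resolve_left hne
    have f4 := (mul_eq_zero.mp f2).resolve_left hne
    have hx0 : x = 0 := by nlinarith [sq_nonneg x, sq_nonneg y]
    have hy0 : y = 0 := by nlinarith [sq_nonneg x, sq_nonneg y]
    rw [← hx, hx0] at g1
    rw [← hy, hy0] at g2
    simp only [ne_eq, OfNat.ofNat_ne_zero, not_false_eq_true, zero_pow, mul_zero, zero_div,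
      add_zero] at g1 g2
    have h5 : c * ‖a‖ ^ 2 + c * ‖b‖ ^ 2 ≤ 0 := by linarith
    rcases hab with h6 | h6
    · have : 0 < ‖a‖ := norm_pos_iff.mpr h6
      have : 0 < c * ‖a‖ ^ 2 := by positivity
      have : 0 ≤ c * ‖b‖ ^ 2 := by positivity
      linarith
    · have : 0 < ‖b‖ := norm_pos_iff.mpr h6
      have : 0 < c * ‖b‖ ^ 2 := by positivity
      have : 0 ≤ c * ‖a‖ ^ 2 := by positivity
      linarith
  refine ⟨hq0, ?_⟩
  rw [hq0, zero_smul, sub_zero] at ha'
  rw [hq0, zero_smul, zero_add] at hb'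
  rcases hab with h6 | h6
  · exact h.eig_T h6 ha'
  · exact h.eig_T h6 hb'

theorem map_map_R (g : ℤ[X]) : (g.map (Int.castRingHom ℚ)).map (algebraMap ℚ ℝ) =
    g.map (Int.castRingHom ℝ) := by
  rw [Polynomial.map_map]
  congr 1

theorem Situ.exists_P (h : Situ S A A' τ up um) : ∃ (P : ℤ[X]) (s : Finset ℝ), P.Monic ∧
    P.map (Int.castRingHom ℝ) = ∏ a ∈ s, (X - C a) ∧
    aeval (TR A A') (P.map (Int.castRingHom ℝ)) = 0 ∧ τ + τ⁻¹ ∈ s ∧
    ∀ a ∈ s, a = τ + τ⁻¹ ∨ |a| ≤ 2 := by
  classical
  set Tq := (A + A').map (Int.castRingHom ℚ) with hTq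
  set μ := minpoly ℚ Tq with hμ
  have hint : IsIntegral ℚ Tq := Matrix.isIntegral Tq
  have hμm : μ.Monic := minpoly.monic hint
  have hμ0 : μ ≠ 0 := hμm.ne_zero
  have hdvd : μ ∣ (A + A').charpoly.map (Int.castRingHom ℚ) := by
    rw [← Matrix.charpoly_map]
    exact Matrix.minpoly_dvd_charpoly _
  obtain ⟨P, hP⟩ := IsIntegrallyClosed.eq_map_mul_C_of_dvd ℚ (A + A').charpoly_monic
    (g := μ) (by rw [algebraMap_ZQ]; exact hdvd)
  rw [hμm.leadingCoeff, C_1, mul_one, algebraMap_ZQ] at hP
  have hPm : P.Monic := by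
    refine monic_of_injective (RingHom.injective_int (Int.castRingHom ℚ)) ?_
    rw [hP]
    exact hμm
  have hPR : P.map (Int.castRingHom ℝ) = μ.map (algebraMap ℚ ℝ) := by
    rw [← map_map_R, hP]
  have hzero : aeval (TR A A') (P.map (Int.castRingHom ℝ)) = 0 := by
    rw [hPR, aeval_TR, minpoly.aeval]
    simp
  -- squarefree
  have hsq : Squarefree μ := by
    rintro π ⟨R, hR⟩
    set q := π * R with hq
    have hq1 : μ = π * q := by rw [hR, hq]; ring
    have hqq : q * q = μ * R := by rw [hR, hq]; ring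
    have h1 : aeval (TR A A') (q.map (algebraMap ℚ ℝ) * q.map (algebraMap ℚ ℝ)) = 0 := by
      rw [← Polynomial.map_mul, hqq, Polynomial.map_mul, map_mul, ← hPR, hzero, zero_mul]
    have h2 := h.nil _ h1
    rw [aeval_TR] at h2
    have h3 : ((aeval Tq q).map (algebraMap ℚ ℝ)) = 0 := by
      have h4 := congrArg LinearMap.toMatrix' h2
      rwa [LinearMap.toMatrix'_toLin', map_zero] at h4
    have h4 : aeval Tq q = 0 := by
      ext i j
      have h5 := congrFun (congrFun h3 i) j
      simpa using h5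
    have h5 : μ ∣ q := minpoly.dvd _ _ h4
    have hq0 : q ≠ 0 := by
      intro h0
      rw [h0, mul_zero] at hq1
      exact hμ0 hq1
    have hπ0 : π ≠ 0 := by
      intro h0
      rw [h0, zero_mul] at hq1
      exact hμ0 hq1
    have h6 := natDegree_le_of_dvd h5 hq0
    rw [hq1, natDegree_mul hπ0 hq0] at h6
    have h7 : π.natDegree = 0 := by omega
    rw [eq_C_of_natDegree_eq_zero h7]
    refine isUnit_C.mpr (IsUnit.mk0 _ ?_)
    intro h0
    apply hπ0
    rw [eq_C_of_natDegree_eq_zero h7, h0, C_0]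
  have hsep : (P.map (Int.castRingHom ℂ)).Separable := by
    have h1 : μ.Separable := PerfectField.separable_iff_squarefree.mpr hsq
    have h2 := h1.map (f := algebraMap ℚ ℂ)
    rw [← hP, Polynomial.map_map] at h2
    have h3 : (algebraMap ℚ ℂ).comp (Int.castRingHom ℚ) = Int.castRingHom ℂ := by
      ext
      simp
    rwa [h3] at h2
  have hnd := nodup_roots hsep
  have hreal : ∀ z ∈ (P.map (Int.castRingHom ℂ)).roots,
      z.im = 0 ∧ (z.re = τ + τ⁻¹ ∨ |z.re| ≤ 2) := by
    intro z hz
    apply h.real_eig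
    have h1 : ((rm (A + A')).map (algebraMap ℝ ℂ)).charpoly =
        (A + A').charpoly.map (Int.castRingHom ℂ) := by
      have h2 : (rm (A + A')).map (algebraMap ℝ ℂ) = (A + A').map (Int.castRingHom ℂ) := by
        ext i j
        simp [rm]
      rw [h2, Matrix.charpoly_map]
    rw [h1]
    have h2 : P.map (Int.castRingHom ℂ) ∣ (A + A').charpoly.map (Int.castRingHom ℂ) := by
      have h3 := Polynomial.map_dvd (algebraMap ℚ ℂ) hdvd
      rw [← hP, Polynomial.map_map, Polynomial.map_map] at h3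
      have h4 : (algebraMap ℚ ℂ).comp (Int.castRingHom ℚ) = Int.castRingHom ℂ := by
        ext
        simp
      rwa [h4] at h3
    obtain ⟨R, hR⟩ := h2
    have hne : P.map (Int.castRingHom ℂ) ≠ 0 := (hPm.map _).ne_zero
    rw [hR, eval_mul, (mem_roots hne).mp hz, zero_mul]
  set r := (P.map (Int.castRingHom ℂ)).roots with hr
  set R' : Multiset ℝ := r.map Complex.re with hR'
  have hback : R'.map (fun a : ℝ => (a : ℂ)) = r := by
    rw [hR', Multiset.map_map]
    conv_rhs => rw [← Multiset.map_id r]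
    refine Multiset.map_congr rfl fun z hz => ?_
    apply Complex.ext
    · simp
    · simp [(hreal z hz).1]
  have hR'nd : R'.Nodup := by
    have h1 : (R'.map (fun a : ℝ => (a : ℂ))).Nodup := by
      rw [hback]
      exact hnd
    exact Multiset.Nodup.of_map _ h1
  have hprod : P.map (Int.castRingHom ℝ) = (R'.map (fun a => X - C a)).prod := by
    apply Polynomial.map_injective Complex.ofRealHom Complex.ofReal_injective
    have h1 : (P.map (Int.castRingHom ℝ)).map Complex.ofRealHom = P.map (Int.castRingHom ℂ) := by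
      rw [Polynomial.map_map]
      congr 1
    rw [h1, (IsAlgClosed.splits (P.map (Int.castRingHom ℂ))).eq_prod_roots_of_monic (hPm.map _),
      ← hr, Polynomial.map_multiset_prod, Multiset.map_map, ← hback, Multiset.map_map]
    congr 1
    refine Multiset.map_congr rfl fun a _ => ?_
    simp
  have hs : P.map (Int.castRingHom ℝ) = ∏ a ∈ R'.toFinset, (X - C a) := by
    rw [hprod, Finset.prod_eq_multiset_prod, Multiset.toFinset_val, hR'nd.dedup]
  refine ⟨P, R'.toFinset, hPm, hs, hzero, ?_, ?_⟩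
  · have hup0 : up ≠ 0 := by
      rintro rfl
      have := h.pm
      simp at this
    have h1 := poly_eig (P.map (Int.castRingHom ℝ)) h.Tup
    rw [hzero, LinearMap.zero_apply] at h1
    have h2 := (smul_eq_zero.mp h1.symm).resolve_right hup0
    rw [hs, eval_prod, Finset.prod_eq_zero_iff] at h2
    obtain ⟨a, ha, h3⟩ := h2
    rw [eval_sub, eval_X, eval_C] at h3
    have h4 : τ + τ⁻¹ = a := by linarith
    rw [h4]
    exact ha
  · intro a ha
    rw [Multiset.mem_toFinset, hR', Multiset.mem_map] at ha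
    obtain ⟨z, hz, rfl⟩ := ha
    exact (hreal z hz).2

end

end Pool.Agent.V5helper2.HR
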