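import Pool.Agent.V5helper2.HR.Eig
import Pool.Agent.V5helper2.HR.Frc

/-!
# The sum of a loxodromic isometry of a hyperbolic lattice and its inverse
-/

set_option autoImplicit false

namespace Pool.Agent.V5helper2.HR

open Polynomial

noncomputable section

variable {n : ℕ}

/-- the real matrix of an integer matrix -/
def rm (S : Matrix (Fin n) (Fin n) ℤ) : Matrix (Fin n) (Fin n) ℝ := S.map (Int.castRingHom ℝ)

/-- a loxodromic isometry with its axis -/
structure Situ (S A A' : Matrix (Fin n) (Fin n) ℤ) (τ : ℝ) (up um : Fin n → ℝ) : Prop where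
  lor : Lor (bf (rm S))
  inv : A * A' = 1
  iso : ∀ x y, bf (rm S) ((rm A).mulVec x) ((rm A).mulVec y) = bf (rm S) x y
  hτ : 1 < |τ|
  hup : (rm A).mulVec up = τ • up
  hum : (rm A).mulVec um = τ⁻¹ • um
  pp : bf (rm S) up up = 0
  mm : bf (rm S) um um = 0
  pm : 0 < bf (rm S) up um

theorem rm_mul (A B : Matrix (Fin n) (Fin n) ℤ) : rm (A * B) = rm A * rm B :=
  Matrix.map_mul ..

theorem rm_add (A B : Matrix (Fin n) (Fin n) ℤ) : rm (A + B) = rm A + rm B := by
  unfold rm
  ext i j
  simp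

theorem rm_one : rm (1 : Matrix (Fin n) (Fin n) ℤ) = 1 := by
  unfold rm
  simp

/-- the operator `A + A⁻¹` -/
def TR (A A' : Matrix (Fin n) (Fin n) ℤ) : (Fin n → ℝ) →ₗ[ℝ] (Fin n → ℝ) :=
  Matrix.toLin' (rm (A + A'))

theorem TR_apply (A A' : Matrix (Fin n) (Fin n) ℤ) (x : Fin n → ℝ) :
    TR A A' x = (rm A).mulVec x + (rm A').mulVec x := by
  unfold TR
  rw [Matrix.toLin'_apply, rm_add, Matrix.add_mulVec]

namespace Situ

variable {S A A' : Matrix (Fin n) (Fin n) ℤ} {τ : ℝ} {up um : Fin n → ℝ}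
  (h : Situ S A A' τ up um)

include h

theorem τ0 : τ ≠ 0 := by
  have := h.hτ
  rintro rfl
  simp at this
  linarith

theorem inv1 (x : Fin n → ℝ) : (rm A).mulVec ((rm A').mulVec x) = x := by
  rw [Matrix.mulVec_mulVec, ← rm_mul, h.inv, rm_one, Matrix.one_mulVec]

theorem inv2 (x : Fin n → ℝ) : (rm A').mulVec ((rm A).mulVec x) = x := by
  rw [Matrix.mulVec_mulVec, ← rm_mul, mul_eq_one_comm.mp h.inv, rm_one, Matrix.one_mulVec]

theorem adj1 (x y : Fin n → ℝ) : bf (rm S) ((rm A').mulVec x) y =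
    bf (rm S) x ((rm A).mulVec y) := by
  rw [← h.iso, h.inv1]

theorem adj2 (x y : Fin n → ℝ) : bf (rm S) ((rm A).mulVec x) y =
    bf (rm S) x ((rm A').mulVec y) := by
  have := h.iso x ((rm A').mulVec y)
  rwa [h.inv1] at this

theorem adj (x y : Fin n → ℝ) : bf (rm S) (TR A A' x) y = bf (rm S) x (TR A A' y) := by
  rw [TR_apply, TR_apply, map_add, map_add, LinearMap.add_apply, h.adj1, h.adj2]
  ring

theorem Aup : (rm A').mulVec up = τ⁻¹ • up := by
  have h1 := h.inv2 up
  rw [h.hup, Matrix.mulVec_smul] at h1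
  calc (rm A').mulVec up = τ⁻¹ • (τ • (rm A').mulVec up) := by
        rw [smul_smul, inv_mul_cancel₀ h.τ0, one_smul]
    _ = _ := by rw [h1]

theorem Aum : (rm A').mulVec um = τ • um := by
  have h1 := h.inv2 um
  rw [h.hum, Matrix.mulVec_smul] at h1
  calc (rm A').mulVec um = τ • (τ⁻¹ • (rm A').mulVec um) := by
        rw [smul_smul, mul_inv_cancel₀ h.τ0, one_smul]
    _ = _ := by rw [h1]

theorem Tup : TR A A' up = (τ + τ⁻¹) • up := by
  rw [TR_apply, h.hup, h.Aup]
  module

theorem Tum : TR A A' um = (τ + τ⁻¹) • um := by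
  rw [TR_apply, h.hum, h.Aum]
  module

theorem t0_gt : 2 < |τ + τ⁻¹| := by
  have h1 := h.hτ
  have h2 := h.τ0
  have h3 : |τ + τ⁻¹| = |τ| + |τ|⁻¹ := by
    rcases lt_or_gt_of_ne h2 with h4 | h4
    · have h5 : τ⁻¹ < 0 := inv_lt_zero.mpr h4
      rw [abs_of_neg h4, abs_of_neg (by linarith), inv_neg]
      ring
    · have h5 : 0 < τ⁻¹ := inv_pos.mpr h4
      rw [abs_of_pos h4, abs_of_pos (by linarith)]
  rw [h3]
  have h4 : |τ| * |τ|⁻¹ = 1 := mul_inv_cancel₀ (by positivity)
  have h5 : 0 < |τ|⁻¹ := by positivity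
  nlinarith [sq_nonneg (|τ| - 1)]

/-- the positive vector on the axis -/
theorem ee : bf (rm S) (up + um) (up + um) = 2 * bf (rm S) up um := by
  simp only [map_add, LinearMap.add_apply]
  rw [h.pp, h.mm, h.lor.1 um up]
  ring

theorem ee_pos : 0 < bf (rm S) (up + um) (up + um) := by
  rw [h.ee]
  have := h.pm
  linarith

theorem neg_orth {x : Fin n → ℝ} (hx : x ≠ 0) (h1 : bf (rm S) x up = 0)
    (h2 : bf (rm S) x um = 0) : bf (rm S) x x < 0 := by
  apply h.lor.neg_of_orth h.ee_pos hx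
  rw [h.lor.1, map_add, h1, h2, add_zero]

/-- eigenvectors orthogonal to the axis -/
theorem eig_orth {x : Fin n → ℝ} (hx : x ≠ 0) (h1 : bf (rm S) x up = 0)
    (h2 : bf (rm S) x um = 0) {α : ℝ} (hα : TR A A' x = α • x) : |α| ≤ 2 := by
  have hB := h.lor.1
  have h3 := h.neg_orth hx h1 h2
  have hAx1 : bf (rm S) ((rm A).mulVec x) up = 0 := by
    rw [h.adj2, h.Aup, map_smul, h1, smul_zero]
  have hAx2 : bf (rm S) ((rm A).mulVec x) um = 0 := by
    rw [h.adj2, h.Aum, map_smul, h2, smul_zero]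
  have h4 := h.lor.cs h.ee_pos (a := (rm A).mulVec x) (b := x)
    (by rw [hB, map_add, hAx1, hAx2, add_zero]) (by rw [hB, map_add, h1, h2, add_zero])
  rw [h.iso] at h4
  have h5 : α * bf (rm S) x x = 2 * bf (rm S) ((rm A).mulVec x) x := by
    have h6 : bf (rm S) (TR A A' x) x = α * bf (rm S) x x := by
      rw [hα, map_smul, LinearMap.smul_apply, smul_eq_mul]
    rw [← h6, TR_apply, map_add, LinearMap.add_apply, h.adj1, hB x]
    ring
  have h6 : α ^ 2 * (bf (rm S) x x) ^ 2 ≤ 4 * (bf (rm S) x x) ^ 2 := by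
    rw [← mul_pow, h5, mul_pow]
    nlinarith
  have h7 : 0 < (bf (rm S) x x) ^ 2 := by
    have := h3.ne
    positivity
  have h8 : α ^ 2 ≤ 2 ^ 2 := by
    by_contra hcon
    push Not at hcon
    nlinarith
  exact abs_le_of_sq_le_sq h8 (by norm_num)

theorem eig_T {x : Fin n → ℝ} (hx : x ≠ 0) {α : ℝ} (hα : TR A A' x = α • x) :
    α = τ + τ⁻¹ ∨ |α| ≤ 2 := by
  by_cases h0 : α = τ + τ⁻¹
  · exact Or.inl h0
  right
  have h1 : bf (rm S) x up = 0 := by
    have h2 := h.adj x up
    rw [hα, h.Tup, map_smul, LinearMap.smul_apply, map_smul, smul_eq_mul, smul_eq_mul] at h2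
    have h3 : (α - (τ + τ⁻¹)) * bf (rm S) x up = 0 := by linear_combination h2
    exact (mul_eq_zero.mp h3).resolve_left (sub_ne_zero.mpr h0)
  have h1' : bf (rm S) x um = 0 := by
    have h2 := h.adj x um
    rw [hα, h.Tum, map_smul, LinearMap.smul_apply, map_smul, smul_eq_mul, smul_eq_mul] at h2
    have h3 : (α - (τ + τ⁻¹)) * bf (rm S) x um = 0 := by linear_combination h2
    exact (mul_eq_zero.mp h3).resolve_left (sub_ne_zero.mpr h0)
  exact h.eig_orth hx h1 h1' hα

/-- polynomials in the operator are self-adjoint -/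
theorem adj_poly (f : ℝ[X]) (x y : Fin n → ℝ) :
    bf (rm S) (aeval (TR A A') f x) y = bf (rm S) x (aeval (TR A A') f y) := by
  induction f using Polynomial.induction_on' generalizing x y with
  | add p q hp hq =>
    rw [map_add, LinearMap.add_apply, map_add, LinearMap.add_apply, LinearMap.add_apply, map_add,
      hp, hq]
  | monomial k a =>
    have key : ∀ (k : ℕ) (x y : Fin n → ℝ), bf (rm S) ((TR A A' ^ k) x) y =
        bf (rm S) x ((TR A A' ^ k) y) := by
      intro k
      induction k with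
      | zero => intro x y; simp
      | succ k ih =>
        intro x y
        rw [pow_succ, Module.End.mul_apply, ih, h.adj, ← Module.End.mul_apply, ← pow_succ',
          pow_succ]
    rw [aeval_monomial]
    simp only [Module.End.mul_apply, Module.algebraMap_end_apply, map_smul, LinearMap.smul_apply,
      smul_eq_mul]
    rw [key]

omit h in
theorem poly_eig (f : ℝ[X]) {x : Fin n → ℝ} {α : ℝ} (hα : TR A A' x = α • x) :
    aeval (TR A A') f x = f.eval α • x := by
  have hk : ∀ k : ℕ, (TR A A' ^ k) x = α ^ k • x := by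
    intro k
    induction k with
    | zero => simp
    | succ k ih => rw [pow_succ', Module.End.mul_apply, ih, map_smul, hα, smul_smul, pow_succ]
  rw [aeval_eq_sum_range, eval_eq_sum_range, LinearMap.sum_apply, Finset.sum_smul]
  refine Finset.sum_congr rfl fun k _ => ?_
  rw [LinearMap.smul_apply, hk, smul_smul]

/-- nilpotent polynomials in the operator vanish -/
theorem nil (f : ℝ[X]) (hf : aeval (TR A A') (f * f) = 0) : aeval (TR A A') f = 0 := by
  have hB := h.lor.1
  obtain ⟨c, hc, hb⟩ := pos_bound h.lor h.ee_pos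
  have hff : ∀ x, aeval (TR A A') f (aeval (TR A A') f x) = 0 := by
    intro x
    rw [← Module.End.mul_apply, ← map_mul, hf, LinearMap.zero_apply]
  have hup0 : up ≠ 0 := by
    rintro rfl
    have := h.pm
    simp at this
  have ht : f.eval (τ + τ⁻¹) = 0 := by
    have h1 := hff up
    rw [poly_eig f h.Tup, map_smul, poly_eig f h.Tup, smul_smul] at h1
    have h2 := (smul_eq_zero.mp h1).resolve_right hup0
    exact mul_self_eq_zero.mp h2
  refine LinearMap.ext fun x => ?_
  rw [LinearMap.zero_apply]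
  have h1 := hb (aeval (TR A A') f x)
  have h2 : bf (rm S) (aeval (TR A A') f x) (aeval (TR A A') f x) = 0 := by
    rw [h.adj_poly, hff, map_zero]
  have h3 : bf (rm S) (aeval (TR A A') f x) (up + um) = 0 := by
    rw [h.adj_poly, map_add, poly_eig f h.Tup, poly_eig f h.Tum, ht, zero_smul, zero_smul,
      add_zero, map_zero]
  rw [h2, h3] at h1
  simp only [neg_zero, ne_eq, OfNat.ofNat_ne_zero, not_false_eq_true, zero_pow, mul_zero,
    zero_div, add_zero] at h1
  have h4 : ‖aeval (TR A A') f x‖ ^ 2 ≤ 0 := by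
    by_contra hcon
    push Not at hcon
    have : 0 < c * ‖aeval (TR A A') f x‖ ^ 2 := by positivity
    linarith
  have h5 : ‖aeval (TR A A') f x‖ = 0 := by
    have := sq_nonneg ‖aeval (TR A A') f x‖
    exact pow_eq_zero_iff (two_ne_zero) |>.mp (le_antisymm h4 this)
  exact norm_eq_zero.mp h5

end Situ

/-- the real operator of a rational polynomial -/
theorem aeval_TR (A A' : Matrix (Fin n) (Fin n) ℤ) (g : ℚ[X]) :
    aeval (TR A A') (g.map (algebraMap ℚ ℝ)) =
      Matrix.toLin' ((aeval ((A + A').map (Int.castRingHom ℚ)) g).map (algebraMap ℚ ℝ)) := by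
  have h1 : (algebraMap ℚ ℝ).mapMatrix (aeval ((A + A').map (Int.castRingHom ℚ)) g) =
      aeval ((algebraMap ℚ ℝ).mapMatrix ((A + A').map (Int.castRingHom ℚ)))
        (g.map (algebraMap ℚ ℝ)) := by
    apply Polynomial.map_aeval_eq_aeval_map
    ext q i j
    simp [Matrix.algebraMap_matrix_apply]
  have h2 : (algebraMap ℚ ℝ).mapMatrix ((A + A').map (Int.castRingHom ℚ)) = rm (A + A') := by
    ext i j
    simp [rm]
  rw [h2] at h1
  have h3 : ((aeval ((A + A').map (Int.castRingHom ℚ)) g).map (algebraMap ℚ ℝ)) =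
      (algebraMap ℚ ℝ).mapMatrix (aeval ((A + A').map (Int.castRingHom ℚ)) g) := rfl
  rw [h3, h1]
  unfold TR
  have h4 := Polynomial.aeval_algHom_apply (Matrix.toLinAlgEquiv' (R := ℝ) (n := Fin n)).toAlgHom
    (rm (A + A')) (g.map (algebraMap ℚ ℝ))
  exact h4

end

end Pool.Agent.V5helper2.HR
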