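import Pool.Agent.V5helper2.HR.Pol

/-!
# Lattice vectors whose hyperplane crosses the axis
-/

set_option autoImplicit false

namespace Pool.Agent.V5helper2.HR

open Polynomial

noncomputable section

variable {n : ℕ} {S A A' : Matrix (Fin n) (Fin n) ℤ} {τ : ℝ} {up um : Fin n → ℝ}

theorem bf_iv (S : Matrix (Fin n) (Fin n) ℤ) (x y : Fin n → ℤ) :
    bf (rm S) (iv x) (iv y) = ((x ⬝ᵥ S.mulVec y : ℤ) : ℝ) := by
  rw [bf_apply]
  simp [rm, iv, dotProduct, Matrix.mulVec]

theorem rm_iv (T : Matrix (Fin n) (Fin n) ℤ) (x : Fin n → ℤ) :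
    (rm T).mulVec (iv x) = iv (T.mulVec x) := by
  funext i
  simp [rm, iv, dotProduct, Matrix.mulVec]

theorem TR_pow_iv (A A' : Matrix (Fin n) (Fin n) ℤ) (l : ℕ) (v : Fin n → ℤ) :
    (TR A A' ^ l) (iv v) = iv (((A + A') ^ l).mulVec v) := by
  induction l with
  | zero => simp
  | succ l ih =>
    rw [pow_succ', Module.End.mul_apply, ih]
    unfold TR
    rw [Matrix.toLin'_apply, rm_iv, Matrix.mulVec_mulVec, ← pow_succ']

/-- the moments -/
def mom (S A A' : Matrix (Fin n) (Fin n) ℤ) (v : Fin n → ℤ) (l : ℕ) : ℤ :=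
  -(v ⬝ᵥ S.mulVec (((A + A') ^ l).mulVec v))

/-- the functional -/
def ell (S A A' : Matrix (Fin n) (Fin n) ℤ) (v : Fin n → ℤ) : ℝ[X] →ₗ[ℝ] ℝ where
  toFun f := -bf (rm S) (iv v) (aeval (TR A A') f (iv v))
  map_add' f g := by
    rw [map_add, LinearMap.add_apply, map_add]
    ring
  map_smul' c f := by
    rw [map_smul, LinearMap.smul_apply, map_smul, smul_eq_mul, smul_eq_mul, RingHom.id_apply]
    ring

theorem ell_apply (v : Fin n → ℤ) (f : ℝ[X]) :
    ell S A A' v f = -bf (rm S) (iv v) (aeval (TR A A') f (iv v)) := rfl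

theorem ell_X (v : Fin n → ℤ) (l : ℕ) : ell S A A' v (X ^ l) = mom S A A' v l := by
  rw [ell_apply, map_pow, aeval_X, TR_pow_iv, bf_iv]
  unfold mom
  push_cast
  rfl

theorem ell_one (v : Fin n → ℤ) : ell S A A' v 1 = -bf (rm S) (iv v) (iv v) := by
  rw [ell_apply, map_one]
  rfl

variable {P : ℤ[X]} {s : Finset ℝ}

/-- the eigenvectors `D_a(T) v` -/
theorem Situ.proj (hs : P.map (Int.castRingHom ℝ) = ∏ a ∈ s, (X - C a))
    (hP : aeval (TR A A') (P.map (Int.castRingHom ℝ)) = 0) {a : ℝ} (ha : a ∈ s)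
    (v : Fin n → ℝ) :
    TR A A' (aeval (TR A A') (DD (P.map (Int.castRingHom ℝ)) a) v) =
      a • aeval (TR A A') (DD (P.map (Int.castRingHom ℝ)) a) v := by
  have h1 := DD_mul _ a (eval_zero_of_mem hs ha)
  have h2 : aeval (TR A A') ((X - C a) * DD (P.map (Int.castRingHom ℝ)) a) v = 0 := by
    rw [mul_comm, h1, hP, LinearMap.zero_apply]
  rw [map_mul, Module.End.mul_apply, map_sub, aeval_X, aeval_C, LinearMap.sub_apply,
    Module.algebraMap_end_apply] at h2
  exact sub_eq_zero.mp h2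

theorem Situ.ell_DD (h : Situ S A A' τ up um) (v : Fin n → ℤ)
    (hs : P.map (Int.castRingHom ℝ) = ∏ a ∈ s, (X - C a))
    (hP : aeval (TR A A') (P.map (Int.castRingHom ℝ)) = 0) {a : ℝ} (ha : a ∈ s) :
    ell S A A' v (DD (P.map (Int.castRingHom ℝ)) a) /
      (DD (P.map (Int.castRingHom ℝ)) a).eval a =
      -bf (rm S) (aeval (TR A A') (DD (P.map (Int.castRingHom ℝ)) a) (iv v))
        (aeval (TR A A') (DD (P.map (Int.castRingHom ℝ)) a) (iv v)) /
        (DD (P.map (Int.castRingHom ℝ)) a).eval a ^ 2 := by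
  set D := DD (P.map (Int.castRingHom ℝ)) a with hD
  have hne : D.eval a ≠ 0 := DD_eval_ne hs ha
  have h1 : bf (rm S) (aeval (TR A A') D (iv v)) (aeval (TR A A') D (iv v)) =
      D.eval a * bf (rm S) (iv v) (aeval (TR A A') D (iv v)) := by
    rw [h.adj_poly, poly_eig D (Situ.proj hs hP ha (iv v)), map_smul, smul_eq_mul]
  rw [h1, ell_apply]
  field_simp

theorem Situ.weight_nonneg (h : Situ S A A' τ up um) (v : Fin n → ℤ)
    (hs : P.map (Int.castRingHom ℝ) = ∏ a ∈ s, (X - C a))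
    (hP : aeval (TR A A') (P.map (Int.castRingHom ℝ)) = 0) :
    ∀ a ∈ s, a ≠ τ + τ⁻¹ → 0 ≤ ell S A A' v (DD (P.map (Int.castRingHom ℝ)) a) /
      (DD (P.map (Int.castRingHom ℝ)) a).eval a := by
  intro a ha hat
  rw [h.ell_DD v hs hP ha]
  set w := aeval (TR A A') (DD (P.map (Int.castRingHom ℝ)) a) (iv v) with hw
  have hTw : TR A A' w = a • w := Situ.proj hs hP ha (iv v)
  have hup : bf (rm S) w up = 0 := by
    have h2 := h.adj w up
    rw [hTw, h.Tup, map_smul, LinearMap.smul_apply, map_smul, smul_eq_mul, smul_eq_mul] at h2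
    have h3 : (a - (τ + τ⁻¹)) * bf (rm S) w up = 0 := by linear_combination h2
    exact (mul_eq_zero.mp h3).resolve_left (sub_ne_zero.mpr hat)
  have hum : bf (rm S) w um = 0 := by
    have h2 := h.adj w um
    rw [hTw, h.Tum, map_smul, LinearMap.smul_apply, map_smul, smul_eq_mul, smul_eq_mul] at h2
    have h3 : (a - (τ + τ⁻¹)) * bf (rm S) w um = 0 := by linear_combination h2
    exact (mul_eq_zero.mp h3).resolve_left (sub_ne_zero.mpr hat)
  have h1 : bf (rm S) w w ≤ 0 := by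
    apply h.lor.nonpos_of_orth h.ee_pos
    rw [h.lor.1, map_add, hup, hum, add_zero]
  have h2 : 0 ≤ (DD (P.map (Int.castRingHom ℝ)) a).eval a ^ 2 := sq_nonneg _
  apply div_nonneg _ h2
  linarith

/-- the weight of the large eigenvalue -/
theorem Situ.weight_top (h : Situ S A A' τ up um) {v : Fin n → ℤ}
    (hs : P.map (Int.castRingHom ℝ) = ∏ a ∈ s, (X - C a))
    (hP : aeval (TR A A') (P.map (Int.castRingHom ℝ)) = 0) (ht : τ + τ⁻¹ ∈ s) :
    ell S A A' v (DD (P.map (Int.castRingHom ℝ)) (τ + τ⁻¹)) /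
      (DD (P.map (Int.castRingHom ℝ)) (τ + τ⁻¹)).eval (τ + τ⁻¹) =
      -(2 * (bf (rm S) (iv v) up * bf (rm S) (iv v) um) / bf (rm S) up um) := by
  rw [h.ell_DD v hs hP ht]
  have hB := h.lor.1
  set D := DD (P.map (Int.castRingHom ℝ)) (τ + τ⁻¹) with hD
  set c := D.eval (τ + τ⁻¹) with hc
  have hne : c ≠ 0 := DD_eval_ne hs ht
  set b := bf (rm S) up um with hb
  have hb0 : 0 < b := h.pm
  set w := aeval (TR A A') D (iv v) with hw
  have hTw : TR A A' w = (τ + τ⁻¹) • w := Situ.proj hs hP ht (iv v)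
  have h1 : bf (rm S) w up = c * bf (rm S) (iv v) up := by
    rw [hw, h.adj_poly, poly_eig D h.Tup, map_smul, smul_eq_mul]
  have h2 : bf (rm S) w um = c * bf (rm S) (iv v) um := by
    rw [hw, h.adj_poly, poly_eig D h.Tum, map_smul, smul_eq_mul]
  set wn := w - (bf (rm S) w um / b) • up - (bf (rm S) w up / b) • um with hwn
  have h3 : bf (rm S) wn up = 0 := by
    rw [hwn]
    simp only [map_sub, map_smul, LinearMap.sub_apply, LinearMap.smul_apply, smul_eq_mul]
    rw [h.pp, hB um up, ← hb]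
    field_simp
    ring
  have h4 : bf (rm S) wn um = 0 := by
    rw [hwn]
    simp only [map_sub, map_smul, LinearMap.sub_apply, LinearMap.smul_apply, smul_eq_mul]
    rw [h.mm, ← hb]
    field_simp
    ring
  have hTwn : TR A A' wn = (τ + τ⁻¹) • wn := by
    rw [hwn, map_sub, map_sub, map_smul, map_smul, h.Tup, h.Tum, hTw]
    module
  have hwn0 : wn = 0 := by
    by_contra hne
    have h5 := h.eig_orth hne h3 h4 hTwn
    have h6 := h.t0_gt
    linarith
  have h6' : w = (bf (rm S) w um / b) • up + (bf (rm S) w up / b) • um := by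
    have : w = wn + ((bf (rm S) w um / b) • up + (bf (rm S) w up / b) • um) := by
      rw [hwn]
      module
    rw [hwn0, zero_add] at this
    exact this
  have h7 : bf (rm S) w w = 2 * (bf (rm S) w um / b) * (bf (rm S) w up / b) * b := by
    conv_lhs => rw [h6']
    simp only [map_add, map_smul, LinearMap.add_apply, LinearMap.smul_apply, smul_eq_mul]
    rw [h.pp, h.mm, hB um up, ← hb]
    ring
  rw [h7, h1, h2]
  field_simp

end

end Pool.Agent.V5helper2.HR
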